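import Mathlib

set_option autoImplicit false

namespace Pool.Agent.H90.Bern

open Finset

/-- Expectation of `f S` when every element of `U` is put independently into `S` with
probability `1 - r`. -/
noncomputable def Ex (U : Finset ℕ) (r : ℝ) (f : Finset ℕ → ℝ) : ℝ :=
  ∑ S ∈ U.powerset, (∏ k ∈ U, (if k ∈ S then 1 - r else r)) * f S

theorem Ex_empty (r : ℝ) (f : Finset ℕ → ℝ) : Ex ∅ r f = f ∅ := by
  simp [Ex]

theorem Ex_insert {a : ℕ} {U : Finset ℕ} (ha : a ∉ U) (r : ℝ) (f : Finset ℕ → ℝ) :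
    Ex (insert a U) r f = r * Ex U r f + (1 - r) * Ex U r (fun S => f (insert a S)) := by
  unfold Ex
  rw [Finset.sum_powerset_insert ha, Finset.mul_sum, Finset.mul_sum]
  congr 1
  · refine Finset.sum_congr rfl fun S hS => ?_
    rw [Finset.mem_powerset] at hS
    have h1 : a ∉ S := fun h => ha (hS h)
    rw [Finset.prod_insert ha]
    simp only [h1, if_false]
    ring
  · refine Finset.sum_congr rfl fun S hS => ?_
    rw [Finset.mem_powerset] at hS
    rw [Finset.prod_insert ha]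
    simp only [Finset.mem_insert_self, if_true]
    have : (∏ k ∈ U, (if k ∈ insert a S then 1 - r else r)) =
        ∏ k ∈ U, (if k ∈ S then 1 - r else r) := by
      refine Finset.prod_congr rfl fun k hk => ?_
      have hka : k ≠ a := fun h => ha (h ▸ hk)
      simp [Finset.mem_insert, hka]
    rw [this]
    ring

theorem Ex_congr {U : Finset ℕ} {r : ℝ} {f g : Finset ℕ → ℝ} (h : ∀ S, S ⊆ U → f S = g S) :
    Ex U r f = Ex U r g := by
  unfold Ex
  refine Finset.sum_congr rfl fun S hS => ?_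
  rw [h S (Finset.mem_powerset.mp hS)]

theorem Ex_mono {U : Finset ℕ} {r : ℝ} (h0 : 0 ≤ r) (h1 : r ≤ 1) {f g : Finset ℕ → ℝ}
    (h : ∀ S, S ⊆ U → f S ≤ g S) : Ex U r f ≤ Ex U r g := by
  unfold Ex
  refine Finset.sum_le_sum fun S hS => ?_
  refine mul_le_mul_of_nonneg_left (h S (Finset.mem_powerset.mp hS)) ?_
  refine Finset.prod_nonneg fun k _ => ?_
  split_ifs <;> linarith

theorem Ex_const (U : Finset ℕ) (r c : ℝ) : Ex U r (fun _ => c) = c := by
  induction U using Finset.induction_on with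
  | empty => simp [Ex_empty]
  | insert a U ha ih => rw [Ex_insert ha]; simp only [ih]; ring

theorem Ex_add (U : Finset ℕ) (r : ℝ) (f g : Finset ℕ → ℝ) :
    Ex U r (fun S => f S + g S) = Ex U r f + Ex U r g := by
  unfold Ex
  rw [← Finset.sum_add_distrib]
  exact Finset.sum_congr rfl fun S _ => by ring

theorem Ex_smul (U : Finset ℕ) (r c : ℝ) (f : Finset ℕ → ℝ) :
    Ex U r (fun S => c * f S) = c * Ex U r f := by
  unfold Ex
  rw [Finset.mul_sum]
  exact Finset.sum_congr rfl fun S _ => by ring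

theorem Ex_sum {ι : Type*} (U : Finset ℕ) (r : ℝ) (s : Finset ι) (f : ι → Finset ℕ → ℝ) :
    Ex U r (fun S => ∑ i ∈ s, f i S) = ∑ i ∈ s, Ex U r (f i) := by
  unfold Ex
  rw [Finset.sum_comm]
  exact Finset.sum_congr rfl fun S _ => by rw [Finset.mul_sum]

theorem Ex_nonneg {U : Finset ℕ} {r : ℝ} (h0 : 0 ≤ r) (h1 : r ≤ 1) {f : Finset ℕ → ℝ}
    (h : ∀ S, S ⊆ U → 0 ≤ f S) : 0 ≤ Ex U r f := by
  have := Ex_mono (U := U) h0 h1 (f := fun _ => 0) (g := f) h
  rwa [Ex_const] at this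

/-- The union of two independent random sets. -/
theorem Ex_union (U : Finset ℕ) (r r' : ℝ) (f : Finset ℕ → ℝ) :
    Ex U (r * r') f = Ex U r (fun S => Ex U r' (fun S' => f (S ∪ S'))) := by
  induction U using Finset.induction_on generalizing f with
  | empty => simp [Ex_empty]
  | insert a U ha ih =>
    rw [Ex_insert ha, Ex_insert ha]
    simp only [Ex_insert ha, Finset.insert_union, Finset.union_insert, Finset.insert_idem]
    rw [ih, ih]
    simp only [Ex_add, Ex_smul]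
    ring

theorem Ex_exp (U : Finset ℕ) (r : ℝ) (g : ℕ → ℝ) :
    Ex U r (fun S => Real.exp (∑ k ∈ S, g k)) = ∏ k ∈ U, (r + (1 - r) * Real.exp (g k)) := by
  induction U using Finset.induction_on with
  | empty => simp [Ex_empty]
  | insert a U ha ih =>
    rw [Ex_insert ha, Finset.prod_insert ha, ← ih]
    have : Ex U r (fun S => Real.exp (∑ k ∈ insert a S, g k)) =
        Ex U r (fun S => Real.exp (g a) * Real.exp (∑ k ∈ S, g k)) := by
      refine Ex_congr fun S hS => ?_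
      have haS : a ∉ S := fun h => ha (hS h)
      rw [Finset.sum_insert haS, Real.exp_add]
    rw [this, Ex_smul]
    ring

/-- Cauchy-Schwarz. -/
theorem Ex_sq_le {U : Finset ℕ} {r : ℝ} (h0 : 0 ≤ r) (h1 : r ≤ 1) (f : Finset ℕ → ℝ) :
    (Ex U r f) ^ 2 ≤ Ex U r (fun S => f S ^ 2) := by
  set m := Ex U r f with hm
  have h : 0 ≤ Ex U r (fun S => (f S - m) ^ 2) := Ex_nonneg h0 h1 fun S _ => sq_nonneg _
  have h2 : Ex U r (fun S => (f S - m) ^ 2) =
      Ex U r (fun S => f S ^ 2) + ((-2 * m) * Ex U r f + m ^ 2) := by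
    have h3 : Ex U r (fun S => (f S - m) ^ 2) =
        Ex U r (fun S => f S ^ 2 + ((-2 * m) * f S + m ^ 2)) := Ex_congr fun S _ => by ring
    rw [h3, Ex_add, Ex_add, Ex_smul, Ex_const]
  rw [h2, ← hm] at h
  nlinarith

theorem Ex_sqrt_le {U : Finset ℕ} {r : ℝ} (h0 : 0 ≤ r) (h1 : r ≤ 1) {f : Finset ℕ → ℝ}
    (h : ∀ S, S ⊆ U → 0 ≤ f S) :
    Ex U r (fun S => Real.sqrt (f S)) ≤ Real.sqrt (Ex U r f) := by
  apply Real.le_sqrt_of_sq_le
  refine (Ex_sq_le h0 h1 _).trans (le_of_eq ?_)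
  exact Ex_congr fun S hS => Real.sq_sqrt (h S hS)

theorem Ex_half (U : Finset ℕ) (f : Finset ℕ → ℝ) :
    Ex U (1 / 2) f = (∑ S ∈ U.powerset, f S) / 2 ^ U.card := by
  unfold Ex
  rw [Finset.sum_div]
  refine Finset.sum_congr rfl fun S _ => ?_
  have : ∀ k ∈ U, (if k ∈ S then (1 - 1 / 2 : ℝ) else 1 / 2) = 1 / 2 := by
    intro k _
    split_ifs <;> norm_num
  rw [Finset.prod_congr rfl this, Finset.prod_const]
  rw [div_pow, one_pow]
  ring

/-- `e^x ≤ x + e^{x^2}`. -/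
theorem exp_le_add_exp_sq (x : ℝ) : Real.exp x ≤ x + Real.exp (x ^ 2) := by
  rcases le_total |x| 1 with h | h
  · have h1 := Real.abs_exp_sub_one_sub_id_le h
    have h2 := Real.add_one_le_exp (x ^ 2)
    have h3 := (abs_le.mp h1).2
    linarith
  · rcases le_total 0 x with h0 | h0
    · rw [abs_of_nonneg h0] at h
      have : Real.exp x ≤ Real.exp (x ^ 2) := Real.exp_le_exp.mpr (by nlinarith)
      linarith
    · rw [abs_of_nonpos h0] at h
      have h1 : Real.exp x ≤ 1 := Real.exp_le_one_iff.mpr h0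
      have h2 := Real.add_one_le_exp (x ^ 2)
      nlinarith

theorem bern_mgf {r : ℝ} (h0 : 0 ≤ r) (h1 : r ≤ 1) (a : ℝ) :
    (r + (1 - r) * Real.exp a) * Real.exp (-(1 - r) * a) ≤ Real.exp (a ^ 2) := by
  have e1 := exp_le_add_exp_sq (-(1 - r) * a)
  have e2 := exp_le_add_exp_sq (r * a)
  have e3 : Real.exp ((-(1 - r) * a) ^ 2) ≤ Real.exp (a ^ 2) := by
    apply Real.exp_le_exp.mpr
    have : (1 - r) ^ 2 ≤ 1 := by nlinarith
    nlinarith [sq_nonneg a]
  have e4 : Real.exp ((r * a) ^ 2) ≤ Real.exp (a ^ 2) := by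
    apply Real.exp_le_exp.mpr
    have : r ^ 2 ≤ 1 := by nlinarith
    nlinarith [sq_nonneg a]
  have e5 : (r + (1 - r) * Real.exp a) * Real.exp (-(1 - r) * a) =
      r * Real.exp (-(1 - r) * a) + (1 - r) * Real.exp (r * a) := by
    rw [add_mul, mul_assoc, ← Real.exp_add]
    congr 3
    ring
  rw [e5]
  have e6 : r * Real.exp (-(1 - r) * a) ≤ r * (-(1 - r) * a + Real.exp (a ^ 2)) :=
    mul_le_mul_of_nonneg_left (by linarith) h0
  have e7 : (1 - r) * Real.exp (r * a) ≤ (1 - r) * (r * a + Real.exp (a ^ 2)) :=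
    mul_le_mul_of_nonneg_left (by linarith) (by linarith)
  nlinarith

/-- Subgaussian bound for centred weighted Bernoulli sums. -/
theorem Ex_mgf {U : Finset ℕ} {r : ℝ} (h0 : 0 ≤ r) (h1 : r ≤ 1) (g : ℕ → ℝ) :
    Ex U r (fun S => Real.exp (∑ k ∈ S, g k - (1 - r) * ∑ k ∈ U, g k)) ≤
      Real.exp (∑ k ∈ U, g k ^ 2) := by
  have e : Ex U r (fun S => Real.exp (∑ k ∈ S, g k - (1 - r) * ∑ k ∈ U, g k)) =
      ∏ k ∈ U, ((r + (1 - r) * Real.exp (g k)) * Real.exp (-(1 - r) * g k)) := by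
    rw [Finset.prod_mul_distrib, ← Ex_exp, ← Real.exp_sum,
      mul_comm _ (Real.exp (∑ x ∈ U, -(1 - r) * g x)), ← Ex_smul]
    refine Ex_congr fun S _ => ?_
    rw [← Real.exp_add, ← Finset.mul_sum]
    congr 1
    ring
  rw [e, Real.exp_sum]
  refine Finset.prod_le_prod (fun k _ => ?_) fun k _ => bern_mgf h0 h1 (g k)
  have := Real.exp_pos (g k)
  have := Real.exp_pos (-(1 - r) * g k)
  have : 0 ≤ r + (1 - r) * Real.exp (g k) := by
    have := mul_nonneg (sub_nonneg.mpr h1) (Real.exp_pos (g k)).le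
    linarith
  positivity

theorem sq_le_two_exp {y : ℝ} (hy : 0 ≤ y) : y ^ 2 ≤ 2 * Real.exp y := by
  have := Real.quadratic_le_exp_of_nonneg hy
  linarith

theorem posPart_sq_le (y : ℝ) : (max y 0) ^ 2 ≤ 2 * Real.exp y := by
  rcases le_total 0 y with h | h
  · rw [max_eq_left h]; exact sq_le_two_exp h
  · rw [max_eq_right h]
    have := Real.exp_pos y
    nlinarith

/-- Truncated second moment of a centred weighted Bernoulli sum above level `L s`. -/
theorem Ex_trunc {U : Finset ℕ} {r : ℝ} (h0 : 0 ≤ r) (h1 : r ≤ 1) (g : ℕ → ℝ) {s L : ℝ}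
    (hs : 0 < s) (hL : 0 < L) (hg : ∑ k ∈ U, g k ^ 2 ≤ s ^ 2) :
    Ex U r (fun S => (max (∑ k ∈ S, g k - (1 - r) * ∑ k ∈ U, g k - L * s) 0) ^ 2) ≤
      8 * s ^ 2 / L ^ 2 * Real.exp (-(L ^ 2 / 4)) := by
  set lam : ℝ := L / (2 * s) with hlam
  have hlam0 : 0 < lam := by positivity
  have hkey : ∀ x : ℝ, (max (x - L * s) 0) ^ 2 ≤
      (2 / lam ^ 2 * Real.exp (-(lam * (L * s)))) * Real.exp (lam * x) := by
    intro x
    have h := posPart_sq_le (lam * (x - L * s))
    have h2 : max (lam * (x - L * s)) 0 = lam * max (x - L * s) 0 := by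
      rw [mul_max_of_nonneg _ _ hlam0.le, mul_zero]
    rw [h2, mul_pow] at h
    have h3 : Real.exp (lam * (x - L * s)) = Real.exp (-(lam * (L * s))) * Real.exp (lam * x) := by
      rw [← Real.exp_add]; congr 1; ring
    rw [h3] at h
    have h4 : (max (x - L * s) 0) ^ 2 = (lam ^ 2 * max (x - L * s) 0 ^ 2) / lam ^ 2 := by
      field_simp
    rw [h4, div_le_iff₀ (by positivity)]
    calc lam ^ 2 * max (x - L * s) 0 ^ 2
        ≤ 2 * (Real.exp (-(lam * (L * s))) * Real.exp (lam * x)) := h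
      _ = 2 / lam ^ 2 * Real.exp (-(lam * (L * s))) * Real.exp (lam * x) * lam ^ 2 := by
          field_simp
  have hm := Ex_mgf (U := U) h0 h1 (fun k => lam * g k)
  have hm2 : Ex U r (fun S => Real.exp (lam * (∑ k ∈ S, g k - (1 - r) * ∑ k ∈ U, g k))) ≤
      Real.exp (lam ^ 2 * s ^ 2) := by
    refine le_trans (le_of_eq ?_) (hm.trans ?_)
    · refine Ex_congr fun S _ => ?_
      congr 1
      rw [← Finset.mul_sum, ← Finset.mul_sum]
      ring
    · apply Real.exp_le_exp.mpr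
      have : ∑ k ∈ U, (lam * g k) ^ 2 = lam ^ 2 * ∑ k ∈ U, g k ^ 2 := by
        rw [Finset.mul_sum]
        exact Finset.sum_congr rfl fun k _ => by ring
      rw [this]
      exact mul_le_mul_of_nonneg_left hg (by positivity)
  calc Ex U r (fun S => (max (∑ k ∈ S, g k - (1 - r) * ∑ k ∈ U, g k - L * s) 0) ^ 2)
      ≤ Ex U r (fun S => (2 / lam ^ 2 * Real.exp (-(lam * (L * s)))) *
          Real.exp (lam * (∑ k ∈ S, g k - (1 - r) * ∑ k ∈ U, g k))) :=
        Ex_mono h0 h1 fun S _ => hkey _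
    _ = (2 / lam ^ 2 * Real.exp (-(lam * (L * s)))) *
          Ex U r (fun S => Real.exp (lam * (∑ k ∈ S, g k - (1 - r) * ∑ k ∈ U, g k))) := by
        rw [Ex_smul]
    _ ≤ (2 / lam ^ 2 * Real.exp (-(lam * (L * s)))) * Real.exp (lam ^ 2 * s ^ 2) :=
        mul_le_mul_of_nonneg_left hm2 (by positivity)
    _ = 8 * s ^ 2 / L ^ 2 * Real.exp (-(L ^ 2 / 4)) := by
        rw [mul_assoc, ← Real.exp_add]
        have h5 : -(lam * (L * s)) + lam ^ 2 * s ^ 2 = -(L ^ 2 / 4) := by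
          rw [hlam]; field_simp; ring
        have h6 : 2 / lam ^ 2 = 8 * s ^ 2 / L ^ 2 := by
          rw [hlam]; field_simp; ring
        rw [h5, h6]

end Pool.Agent.H90.Bern
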