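import Mathlib

set_option autoImplicit false

namespace Pool.Agent.H90.Four

open Finset

variable {N : ℕ}

/-- `cos (2 π x / n)`, `n = N + 1`. -/
noncomputable def co (x : ZMod (N + 1)) : ℝ := (ZMod.stdAddChar x : ℂ).re

/-- `sin (2 π x / n)`, `n = N + 1`. -/
noncomputable def si (x : ZMod (N + 1)) : ℝ := (ZMod.stdAddChar x : ℂ).im

theorem sq_add_sq (x : ZMod (N + 1)) : co x ^ 2 + si x ^ 2 = 1 := by
  have h : ‖(ZMod.stdAddChar x : ℂ)‖ = 1 := by
    simp
  have h2 := Complex.sq_norm (ZMod.stdAddChar x : ℂ)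
  rw [h, Complex.normSq_apply] at h2
  unfold co si
  nlinarith

theorem co_zero : co (0 : ZMod (N + 1)) = 1 := by
  unfold co; simp

theorem char_neg (x : ZMod (N + 1)) :
    (ZMod.stdAddChar (-x) : ℂ) = (starRingEnd ℂ) (ZMod.stdAddChar x : ℂ) := by
  rw [AddChar.map_neg_eq_inv]
  rw [Complex.inv_def]
  have h : Complex.normSq (ZMod.stdAddChar x : ℂ) = 1 := by
    have h : ‖(ZMod.stdAddChar x : ℂ)‖ = 1 := by simp
    rw [Complex.normSq_eq_norm_sq, h]; norm_num
  rw [h]; simp

theorem co_neg (x : ZMod (N + 1)) : co (-x) = co x := by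
  unfold co; rw [char_neg]; simp

theorem si_neg (x : ZMod (N + 1)) : si (-x) = - si x := by
  unfold si; rw [char_neg]; simp

theorem co_add (x y : ZMod (N + 1)) : co (x + y) = co x * co y - si x * si y := by
  unfold co si; rw [AddChar.map_add_eq_mul, Complex.mul_re]

theorem co_sub (x y : ZMod (N + 1)) : co (x - y) = co x * co y + si x * si y := by
  rw [sub_eq_add_neg, co_add, co_neg, si_neg]; ring

theorem co_mul_co (x y : ZMod (N + 1)) : co x * co y = (co (x + y) + co (x - y)) / 2 := by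
  rw [co_add, co_sub]; ring

theorem abs_co_le (x : ZMod (N + 1)) : |co x| ≤ 1 := by
  have := sq_add_sq x
  rw [abs_le]
  constructor <;> nlinarith [sq_nonneg (co x), sq_nonneg (si x)]

theorem co_sq_le (x : ZMod (N + 1)) : co x ^ 2 ≤ 1 := by
  have := sq_add_sq x
  nlinarith [sq_nonneg (si x)]

theorem sum_co (j : ZMod (N + 1)) :
    ∑ k : ZMod (N + 1), co (j * k) = if j = 0 then ((N : ℝ) + 1) else 0 := by
  unfold co
  rw [← Complex.re_sum]
  split_ifs with h
  · subst h
    simp [ZMod.card]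
  · have hp : (ZMod.stdAddChar : AddChar (ZMod (N + 1)) ℂ).IsPrimitive :=
      ZMod.isPrimitive_stdAddChar _
    have := AddChar.sum_mulShift j hp
    rw [if_neg h] at this
    have h2 : ∑ k : ZMod (N + 1), (ZMod.stdAddChar (j * k) : ℂ) = 0 := by
      rw [Nat.cast_zero] at this
      rw [← this]
      exact Finset.sum_congr rfl fun k _ => by rw [mul_comm]
    rw [h2]; simp

theorem sum_co_co (j l : ZMod (N + 1)) :
    ∑ k : ZMod (N + 1), co (j * k) * co (l * k) =
      ((N : ℝ) + 1) / 2 * ((if j + l = 0 then 1 else 0) + (if j - l = 0 then 1 else 0)) := by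
  have : ∀ k, co (j * k) * co (l * k) = (co ((j + l) * k) + co ((j - l) * k)) / 2 := by
    intro k
    rw [co_mul_co, add_mul, sub_mul]
  simp only [this]
  rw [← Finset.sum_div, Finset.sum_add_distrib, sum_co, sum_co]
  split_ifs <;> ring

/-- Inverse transform. -/
noncomputable def inv (v : ZMod (N + 1) → ℝ) (k : ZMod (N + 1)) : ℝ :=
  (∑ j, v j * co (j * k)) / ((N : ℝ) + 1)

/-- Transform. -/
noncomputable def tr (c : ZMod (N + 1) → ℝ) (j : ZMod (N + 1)) : ℝ :=
  ∑ k, c k * co (j * k)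

theorem inv_neg (v : ZMod (N + 1) → ℝ) (k : ZMod (N + 1)) : inv v (-k) = inv v k := by
  unfold inv
  congr 1
  refine Finset.sum_congr rfl fun j _ => ?_
  rw [mul_neg, co_neg]

theorem tr_neg (c : ZMod (N + 1) → ℝ) (j : ZMod (N + 1)) : tr c (-j) = tr c j := by
  unfold tr
  refine Finset.sum_congr rfl fun k _ => ?_
  rw [neg_mul, co_neg]

theorem tr_inv {v : ZMod (N + 1) → ℝ} (hv : ∀ j, v (-j) = v j) (j : ZMod (N + 1)) :
    tr (inv v) j = v j := by
  unfold tr inv
  have hn : ((N : ℝ) + 1) ≠ 0 := by positivity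
  have h1 : ∀ k, (∑ l, v l * co (l * k)) / ((N : ℝ) + 1) * co (j * k) =
      ∑ l, v l / ((N : ℝ) + 1) * (co (j * k) * co (l * k)) := by
    intro k
    rw [Finset.sum_div, Finset.sum_mul]
    exact Finset.sum_congr rfl fun l _ => by ring
  simp only [h1]
  rw [Finset.sum_comm]
  simp only [← Finset.mul_sum, sum_co_co]
  have h2 : ∀ l, v l / ((N : ℝ) + 1) * (((N : ℝ) + 1) / 2 *
      ((if j + l = 0 then 1 else 0) + (if j - l = 0 then 1 else 0))) =
      (if l = -j then v l / 2 else 0) + (if l = j then v l / 2 else 0) := by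
    intro l
    have e1 : (j + l = 0) ↔ (l = -j) := by
      constructor
      · intro h; exact (neg_eq_of_add_eq_zero_right h).symm
      · intro h; rw [h]; ring
    have e2 : (j - l = 0) ↔ (l = j) := by
      rw [sub_eq_zero]; exact eq_comm
    simp only [e1, e2]
    split_ifs <;> field_simp <;> ring
  simp only [h2]
  rw [Finset.sum_add_distrib, Finset.sum_ite_eq', Finset.sum_ite_eq']
  simp [hv]

theorem sum_inv_sq {v : ZMod (N + 1) → ℝ} (hv : ∀ j, v (-j) = v j) :
    ∑ k, inv v k ^ 2 = (∑ j, v j ^ 2) / ((N : ℝ) + 1) := by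
  have h1 : ∀ k, inv v k ^ 2 = ∑ j, (v j / ((N : ℝ) + 1)) * (inv v k * co (j * k)) := by
    intro k
    rw [sq]
    nth_rewrite 2 [inv]
    rw [Finset.sum_div, Finset.mul_sum]
    exact Finset.sum_congr rfl fun l _ => by ring
  simp only [h1]
  rw [Finset.sum_comm]
  simp only [← Finset.mul_sum]
  have h2 : ∀ j, ∑ k, inv v k * co (j * k) = v j := fun j => tr_inv hv j
  simp only [h2]
  rw [Finset.sum_div]
  exact Finset.sum_congr rfl fun j _ => by ring

/-- Inversion the other way. -/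
theorem inv_tr {c : ZMod (N + 1) → ℝ} (hc : ∀ k, c (-k) = c k) (k : ZMod (N + 1)) :
    inv (tr c) k = c k := by
  have h := tr_inv hc k
  unfold tr inv at *
  rw [← h, Finset.sum_div]
  refine Finset.sum_congr rfl fun j _ => ?_
  rw [mul_comm k j]
  have h3 : ∑ l, c l * co (j * l) = ∑ l, c l * co (l * j) :=
    Finset.sum_congr rfl fun l _ => by rw [mul_comm l j]
  simp only [h3]; ring

end Pool.Agent.H90.Four
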