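import Mathlib
import Pool.Agent.H90.Bern
import Pool.Agent.H90.Four

set_option autoImplicit false

namespace Pool.Agent.H90.Round

open Finset Pool.Agent.H90.Bern Pool.Agent.H90.Four

variable {N : ℕ}

/-- Cyclic distance to `0`. -/
def ds (k : ZMod (N + 1)) : ℕ := min k.val (-k).val

/-- The set of all nonzero cyclic distances. -/
def Ud (N : ℕ) : Finset ℕ := Finset.Icc 1 ((N + 1) / 2)

theorem ds_neg (k : ZMod (N + 1)) : ds (-k) = ds k := by
  unfold ds; rw [neg_neg, min_comm]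

theorem ds_zero : ds (0 : ZMod (N + 1)) = 0 := by
  unfold ds; simp

theorem ds_mem {k : ZMod (N + 1)} (hk : k ≠ 0) : ds k ∈ Ud N := by
  unfold ds Ud
  have : NeZero k := ⟨hk⟩
  have h1 : (-k).val = (N + 1) - k.val := ZMod.val_neg_of_ne_zero k
  have h2 : k.val < N + 1 := ZMod.val_lt k
  have h3 : k.val ≠ 0 := by
    intro h; exact hk ((ZMod.val_eq_zero k).mp h)
  rw [Finset.mem_Icc, h1]
  omega

/-- Feasible levels. -/
def TS (v : ZMod (N + 1) → ℝ) (S : Finset ℕ) : Set ℝ :=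
  {t : ℝ | ∃ c : ZMod (N + 1) → ℝ, (∀ k, c (-k) = c k) ∧ (∀ k, c k ≠ 0 → ds k ∈ S) ∧
    ∀ j, v j ≤ tr c j + t}

noncomputable def T (v : ZMod (N + 1) → ℝ) (S : Finset ℕ) : ℝ := sInf (TS v S)

theorem sum_tr (c : ZMod (N + 1) → ℝ) : ∑ j, tr c j = ((N : ℝ) + 1) * c 0 := by
  unfold tr
  rw [Finset.sum_comm]
  have : ∀ k, ∑ j, c k * co (j * k) = if k = 0 then ((N : ℝ) + 1) * c k else 0 := by
    intro k
    rw [← Finset.mul_sum]
    have := sum_co k
    simp only [mul_comm k] at this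
    rw [this]
    split_ifs <;> ring
  simp only [this]
  rw [Finset.sum_ite_eq' Finset.univ (0 : ZMod (N + 1))]
  simp

theorem TS_lower {v : ZMod (N + 1) → ℝ} {S : Finset ℕ} (hS : S ⊆ Ud N) {t : ℝ}
    (ht : t ∈ TS v S) : (∑ j, v j) / ((N : ℝ) + 1) ≤ t := by
  obtain ⟨c, _, hc2, hc3⟩ := ht
  have hc0 : c 0 = 0 := by
    by_contra h
    have h1 := hS (hc2 0 h)
    rw [ds_zero] at h1
    simp [Ud] at h1
  have h1 : ∑ j, v j ≤ ∑ j : ZMod (N + 1), (tr c j + t) := Finset.sum_le_sum fun j _ => hc3 j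
  rw [Finset.sum_add_distrib, sum_tr, hc0, Finset.sum_const, Finset.card_univ, ZMod.card] at h1
  rw [div_le_iff₀ (by positivity)]
  simp only [nsmul_eq_mul] at h1
  push_cast at h1
  linarith

theorem T_le {v : ZMod (N + 1) → ℝ} {S : Finset ℕ} (hS : S ⊆ Ud N) {t : ℝ}
    (ht : t ∈ TS v S) : T v S ≤ t :=
  csInf_le ⟨_, fun _ h => TS_lower hS h⟩ ht

/-- Energy of `v`. -/
noncomputable def En (v : ZMod (N + 1) → ℝ) : ℝ := (∑ j, v j ^ 2) / ((N : ℝ) + 1)

theorem En_nonneg (v : ZMod (N + 1) → ℝ) : 0 ≤ En v := by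
  unfold En; positivity

theorem le_sqrt_En (v : ZMod (N + 1) → ℝ) (j : ZMod (N + 1)) :
    v j ≤ Real.sqrt ((N : ℝ) + 1) * Real.sqrt (En v) := by
  rw [← Real.sqrt_mul (by positivity)]
  apply Real.le_sqrt_of_sq_le
  unfold En
  rw [mul_div_cancel₀ _ (by positivity : ((N : ℝ) + 1) ≠ 0)]
  exact Finset.single_le_sum (f := fun j => v j ^ 2) (fun i _ => sq_nonneg _) (Finset.mem_univ j)

theorem TS_triv (v : ZMod (N + 1) → ℝ) (S : Finset ℕ) :
    Real.sqrt ((N : ℝ) + 1) * Real.sqrt (En v) ∈ TS v S := by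
  refine ⟨fun _ => 0, fun _ => rfl, fun k h => absurd rfl h, fun j => ?_⟩
  have : tr (fun _ : ZMod (N + 1) => (0 : ℝ)) j = 0 := by simp [tr]
  rw [this, zero_add]
  exact le_sqrt_En v j

theorem inv_zero_le (v : ZMod (N + 1) → ℝ) : inv v 0 ≤ Real.sqrt (En v) := by
  apply Real.le_sqrt_of_sq_le
  unfold inv En
  have h1 : ∑ j : ZMod (N + 1), v j * co (j * 0) = ∑ j, v j := by
    refine Finset.sum_congr rfl fun j _ => ?_
    rw [mul_zero, co_zero, mul_one]
  rw [h1, div_pow]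
  have h2 : (∑ j, v j) ^ 2 ≤ ((N : ℝ) + 1) * ∑ j, v j ^ 2 := by
    have := sq_sum_le_card_mul_sum_sq (s := (Finset.univ : Finset (ZMod (N + 1)))) (f := v)
    rw [Finset.card_univ, ZMod.card] at this
    push_cast at this
    exact this
  rw [div_le_div_iff₀ (by positivity) (by positivity)]
  have h3 : (0 : ℝ) < (N : ℝ) + 1 := by positivity
  nlinarith

/-- One thinned correction. -/
noncomputable def cc (v : ZMod (N + 1) → ℝ) (p : ℝ) (S : Finset ℕ) (k : ZMod (N + 1)) : ℝ :=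
  if ds k ∈ S then inv v k / p else 0

/-- The residual after the correction. -/
noncomputable def res (v : ZMod (N + 1) → ℝ) (p K : ℝ) (S : Finset ℕ) (j : ZMod (N + 1)) : ℝ :=
  max (v j - inv v 0 - tr (cc v p S) j - K) 0

/-- Coefficient of distance `d` at frequency `j`. -/
noncomputable def ga (v : ZMod (N + 1) → ℝ) (p : ℝ) (j : ZMod (N + 1)) (d : ℕ) : ℝ :=
  -(∑ k ∈ Finset.univ.filter (fun k : ZMod (N + 1) => ds k = d), inv v k * co (j * k)) / p

theorem card_fiber (d : ℕ) :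
    (Finset.univ.filter (fun k : ZMod (N + 1) => ds k = d)).card ≤ 2 := by
  have : Finset.univ.filter (fun k : ZMod (N + 1) => ds k = d) ⊆
      {(d : ZMod (N + 1)), -(d : ZMod (N + 1))} := by
    intro k hk
    rw [Finset.mem_filter] at hk
    rw [Finset.mem_insert, Finset.mem_singleton]
    have h := hk.2
    unfold ds at h
    rcases min_choice k.val (-k).val with h1 | h1
    · left; rw [h1] at h; rw [← h, ZMod.natCast_val, ZMod.cast_id]
    · right; rw [h1] at h; rw [← h, ZMod.natCast_val, ZMod.cast_id, neg_neg]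
  exact (Finset.card_le_card this).trans Finset.card_le_two

theorem sum_fiber (U : Finset ℕ) (f : ZMod (N + 1) → ℝ) :
    ∑ d ∈ U, ∑ k ∈ Finset.univ.filter (fun k : ZMod (N + 1) => ds k = d), f k =
      ∑ k ∈ Finset.univ.filter (fun k : ZMod (N + 1) => ds k ∈ U), f k := by
  rw [← Finset.sum_fiberwise_of_maps_to (s := Finset.univ.filter
    (fun k : ZMod (N + 1) => ds k ∈ U)) (t := U) (g := ds)]
  · refine Finset.sum_congr rfl fun d hd => ?_
    refine Finset.sum_congr ?_ fun _ _ => rfl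
    ext k
    simp only [Finset.mem_filter, Finset.mem_univ, true_and]
    constructor
    · intro h; exact ⟨h ▸ hd, h⟩
    · intro h; exact h.2
  · intro k hk
    exact (Finset.mem_filter.mp hk).2

theorem sum_ga (v : ZMod (N + 1) → ℝ) (p : ℝ) (S : Finset ℕ) (j : ZMod (N + 1)) :
    ∑ d ∈ S, ga v p j d = - tr (cc v p S) j := by
  unfold ga tr cc
  rw [← Finset.sum_div, Finset.sum_neg_distrib, sum_fiber, Finset.sum_filter, neg_div,
    Finset.sum_div]
  congr 1
  refine Finset.sum_congr rfl fun k _ => ?_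
  split_ifs <;> ring

theorem sum_ga_U {v : ZMod (N + 1) → ℝ} (hv : ∀ j, v (-j) = v j) (p : ℝ) (j : ZMod (N + 1)) :
    ∑ d ∈ Ud N, ga v p j d = - (v j - inv v 0) / p := by
  unfold ga
  rw [← Finset.sum_div, Finset.sum_neg_distrib, sum_fiber]
  congr 2
  have h1 : Finset.univ.filter (fun k : ZMod (N + 1) => ds k ∈ Ud N) = Finset.univ.erase 0 := by
    ext k
    simp only [Finset.mem_filter, Finset.mem_univ, true_and, Finset.mem_erase, and_true]
    constructor
    · intro h h0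
      rw [h0, ds_zero] at h
      simp [Ud] at h
    · exact ds_mem
  rw [h1]
  have h2 := Finset.add_sum_erase Finset.univ (fun k => inv v k * co (j * k))
    (Finset.mem_univ (0 : ZMod (N + 1)))
  have h3 : ∑ k, inv v k * co (j * k) = v j := tr_inv hv j
  rw [h3] at h2
  simp only [mul_zero, co_zero, mul_one] at h2
  linarith

theorem sum_ga_sq {v : ZMod (N + 1) → ℝ} (hv : ∀ j, v (-j) = v j) {p : ℝ} (hp : 0 < p)
    (j : ZMod (N + 1)) :
    ∑ d ∈ Ud N, ga v p j d ^ 2 ≤ (Real.sqrt 2 * Real.sqrt (En v) / p) ^ 2 := by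
  have h1 : ∀ d ∈ Ud N, ga v p j d ^ 2 ≤
      (2 * ∑ k ∈ Finset.univ.filter (fun k : ZMod (N + 1) => ds k = d), inv v k ^ 2) / p ^ 2 := by
    intro d _
    unfold ga
    rw [div_pow, neg_sq]
    refine div_le_div_of_nonneg_right ?_ (by positivity)
    have h2 := sq_sum_le_card_mul_sum_sq
      (s := Finset.univ.filter (fun k : ZMod (N + 1) => ds k = d))
      (f := fun k => inv v k * co (j * k))
    refine h2.trans ?_
    have h3 : ((Finset.univ.filter (fun k : ZMod (N + 1) => ds k = d)).card : ℝ) ≤ 2 := by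
      exact_mod_cast card_fiber d
    refine mul_le_mul h3 ?_ (Finset.sum_nonneg fun _ _ => sq_nonneg _) (by norm_num)
    refine Finset.sum_le_sum fun k _ => ?_
    rw [mul_pow]
    have := co_sq_le (j * k)
    nlinarith [sq_nonneg (inv v k)]
  refine (Finset.sum_le_sum h1).trans ?_
  rw [← Finset.sum_div, ← Finset.mul_sum, sum_fiber]
  have h4 : ∑ k ∈ Finset.univ.filter (fun k : ZMod (N + 1) => ds k ∈ Ud N), inv v k ^ 2 ≤
      ∑ k, inv v k ^ 2 :=
    Finset.sum_le_sum_of_subset_of_nonneg (Finset.filter_subset _ _) fun _ _ _ => sq_nonneg _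
  rw [sum_inv_sq hv] at h4
  rw [div_pow, mul_pow, Real.sq_sqrt (by norm_num), Real.sq_sqrt (En_nonneg v)]
  refine div_le_div_of_nonneg_right ?_ (by positivity)
  unfold En
  linarith

theorem res_eq {v : ZMod (N + 1) → ℝ} (hv : ∀ j, v (-j) = v j) {r : ℝ} (hr : r < 1) (K : ℝ)
    (S : Finset ℕ) (j : ZMod (N + 1)) :
    res v (1 - r) K S j =
      max (∑ d ∈ S, ga v (1 - r) j d - (1 - r) * ∑ d ∈ Ud N, ga v (1 - r) j d - K) 0 := by
  unfold res
  rw [sum_ga, sum_ga_U hv]
  have : (1 - r) ≠ 0 := by linarith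
  congr 2
  field_simp
  ring

theorem res_neg {v : ZMod (N + 1) → ℝ} (hv : ∀ j, v (-j) = v j) (p K : ℝ)
    (S : Finset ℕ) (j : ZMod (N + 1)) : res v p K S (-j) = res v p K S j := by
  unfold res
  rw [hv, tr_neg]

theorem res_nonneg (v : ZMod (N + 1) → ℝ) (p K : ℝ)
    (S : Finset ℕ) (j : ZMod (N + 1)) : 0 ≤ res v p K S j := le_max_right _ _

theorem Ex_En_res {v : ZMod (N + 1) → ℝ} (hv : ∀ j, v (-j) = v j) {r : ℝ} (h0 : 0 ≤ r)
    (hr : r < 1) (hE : 0 < En v) {L : ℝ} (hL : 0 < L) :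
    Ex (Ud N) r (fun S => En (res v (1 - r) (L * (Real.sqrt 2 * Real.sqrt (En v) / (1 - r))) S)) ≤
      16 * En v / ((1 - r) ^ 2 * L ^ 2) * Real.exp (-(L ^ 2 / 4)) := by
  have hp : 0 < 1 - r := by linarith
  set s : ℝ := Real.sqrt 2 * Real.sqrt (En v) / (1 - r) with hs
  have hs0 : 0 < s := by positivity
  have h1 : ∀ j, Ex (Ud N) r (fun S => (res v (1 - r) (L * s) S j) ^ 2) ≤
      8 * s ^ 2 / L ^ 2 * Real.exp (-(L ^ 2 / 4)) := by
    intro j
    have := Ex_trunc (U := Ud N) h0 hr.le (ga v (1 - r) j) hs0 hL (sum_ga_sq hv hp j)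
    refine le_trans (le_of_eq ?_) this
    refine Ex_congr fun S _ => ?_
    rw [res_eq hv hr]
  have h2 : Ex (Ud N) r (fun S => En (res v (1 - r) (L * s) S)) =
      (∑ j, Ex (Ud N) r (fun S => (res v (1 - r) (L * s) S j) ^ 2)) / ((N : ℝ) + 1) := by
    rw [← Ex_sum, div_eq_inv_mul, ← Ex_smul]
    refine Ex_congr fun S _ => ?_
    unfold En
    rw [div_eq_inv_mul]
  rw [h2, div_le_iff₀ (by positivity)]
  refine (Finset.sum_le_sum fun j _ => h1 j).trans ?_
  rw [Finset.sum_const, Finset.card_univ, ZMod.card, nsmul_eq_mul]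
  push_cast
  have h3 : s ^ 2 = 2 * En v / (1 - r) ^ 2 := by
    rw [hs, div_pow, mul_pow, Real.sq_sqrt (by norm_num), Real.sq_sqrt hE.le]
  rw [h3]
  apply le_of_eq
  field_simp
  ring

theorem T_round {v : ZMod (N + 1) → ℝ} (p K : ℝ)
    {S S' : Finset ℕ} (hS : S ⊆ Ud N) (hS' : S' ⊆ Ud N) :
    T v (S ∪ S') ≤ inv v 0 + K + T (res v p K S) S' := by
  have hne : (TS (res v p K S) S').Nonempty := ⟨_, TS_triv _ _⟩
  rw [← sub_le_iff_le_add']
  refine le_csInf hne fun t ht => ?_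
  rw [sub_le_iff_le_add']
  refine T_le (Finset.union_subset hS hS') ?_
  obtain ⟨c, hc1, hc2, hc3⟩ := ht
  refine ⟨fun k => cc v p S k + c k, fun k => ?_, fun k hk => ?_, fun j => ?_⟩
  · show cc v p S (-k) + c (-k) = cc v p S k + c k
    rw [hc1]
    unfold cc
    rw [ds_neg, inv_neg]
  · rw [Finset.mem_union]
    by_contra h
    push Not at h
    apply hk
    have h1 : c k = 0 := by
      by_contra h2
      exact h.2 (hc2 k h2)
    have h2 : cc v p S k = 0 := by
      unfold cc; rw [if_neg h.1]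
    simp [h1, h2]
  · have h1 := hc3 j
    have h2 : tr (fun k => cc v p S k + c k) j = tr (cc v p S) j + tr c j := by
      unfold tr
      rw [← Finset.sum_add_distrib]
      exact Finset.sum_congr rfl fun k _ => by ring
    rw [h2]
    have h3 : v j - inv v 0 - tr (cc v p S) j - K ≤ res v p K S j := le_max_left _ _
    linarith

theorem T_zero_le {v : ZMod (N + 1) → ℝ} (h : En v = 0) {S : Finset ℕ} (hS : S ⊆ Ud N) :
    T v S ≤ 0 := by
  have := T_le hS (TS_triv v S)
  rw [h] at this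
  simpa using this

theorem exp_key {q : ℝ} (hq : 0 < q) (hq1 : q ≤ 1) :
    4 / (q ^ 3 * Real.sqrt (24 / q)) * Real.exp (-(24 / q / 8)) ≤ 1 / (8 * q ^ 2) := by
  set x : ℝ := 1 / q with hx
  have hx1 : 1 ≤ x := by rw [hx, le_div_iff₀ hq]; linarith
  have hqx : q = 1 / x := by rw [hx]; field_simp
  have h24 : 24 / q = 24 * x := by rw [hx]; ring
  rw [h24]
  have hsq : Real.sqrt (24 * x) = Real.sqrt 24 * Real.sqrt x := Real.sqrt_mul (by norm_num) x
  have hs24 : 4.8 ≤ Real.sqrt 24 := by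
    apply Real.le_sqrt_of_sq_le; norm_num
  have hsx : 1 ≤ Real.sqrt x := by
    rw [show (1 : ℝ) = Real.sqrt 1 by simp]
    exact Real.sqrt_le_sqrt hx1
  have hsx2 : Real.sqrt x ^ 2 = x := Real.sq_sqrt (by linarith)
  set y : ℝ := Real.sqrt x with hy
  have hexp : 1 + 3 * x + (3 * x) ^ 2 / 2 ≤ Real.exp (3 * x) :=
    Real.quadratic_le_exp_of_nonneg (by linarith)
  have he : Real.exp (-(24 * x / 8)) = 1 / Real.exp (3 * x) := by
    rw [show -(24 * x / 8) = -(3 * x) by ring, Real.exp_neg, one_div]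
  have hpos : 0 < Real.exp (3 * x) := Real.exp_pos _
  have hx0 : 0 < x := by linarith
  have hy0 : 0 < y := by linarith
  have h240 : 0 < Real.sqrt 24 := by linarith
  rw [he, hsq, hqx]
  have e1 : 4 / ((1 / x) ^ 3 * (Real.sqrt 24 * y)) * (1 / Real.exp (3 * x)) =
      4 * x ^ 3 / (Real.sqrt 24 * y * Real.exp (3 * x)) := by
    field_simp
  have e2 : 1 / (8 * (1 / x) ^ 2) = x ^ 2 / 8 := by
    field_simp
  rw [e1, e2, div_le_div_iff₀ (by positivity) (by norm_num)]
  have e3 : 32 * x ≤ Real.sqrt 24 * y * Real.exp (3 * x) := by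
    have e4 : 4.8 * 1 ≤ Real.sqrt 24 * y := mul_le_mul hs24 hsx (by norm_num) h240.le
    have e5 : 4.8 * (1 + 3 * x + (3 * x) ^ 2 / 2) ≤ Real.sqrt 24 * y * Real.exp (3 * x) := by
      refine mul_le_mul (by linarith) hexp (by positivity) (by positivity)
    refine le_trans ?_ e5
    nlinarith [sq_nonneg (x - 1)]
  have e6 : 0 ≤ x ^ 2 := sq_nonneg x
  nlinarith [mul_le_mul_of_nonneg_left e3 e6]

/-- The main recursion: `R` rounds of sprinkling. -/
theorem Ex_T_le (R : ℕ) : ∀ {r : ℝ}, 0 ≤ r → r < 1 → ∀ {v : ZMod (N + 1) → ℝ},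
    (∀ j, v (-j) = v j) → (∀ j, 0 ≤ v j) →
    Ex (Ud N) r (T v) ≤
      Real.sqrt (En v) * ((58 + Real.sqrt ((N : ℝ) + 1) / 2 ^ R) / (1 - r) ^ 2) := by
  induction R with
  | zero =>
    intro r h0 hr v hv hv0
    have hp : 0 < 1 - r := by linarith
    have h1 : Ex (Ud N) r (T v) ≤ Ex (Ud N) r (fun _ => Real.sqrt ((N : ℝ) + 1) *
        Real.sqrt (En v)) := Ex_mono h0 hr.le fun S hS => T_le hS (TS_triv v S)
    rw [Ex_const] at h1
    refine h1.trans ?_
    rw [mul_comm]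
    refine mul_le_mul_of_nonneg_left ?_ (Real.sqrt_nonneg _)
    rw [le_div_iff₀ (by positivity)]
    have h2 : (1 - r) ^ 2 ≤ 1 := by nlinarith
    have h3 := Real.sqrt_nonneg ((N : ℝ) + 1)
    simp only [pow_zero, div_one]
    nlinarith
  | succ R ih =>
    intro r h0 hr v hv hv0
    have hp : 0 < 1 - r := by linarith
    have hsN := Real.sqrt_nonneg ((N : ℝ) + 1)
    rcases (En_nonneg v).lt_or_eq with hE | hE
    swap
    · have h1 : Ex (Ud N) r (T v) ≤ Ex (Ud N) r (fun _ => 0) :=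
        Ex_mono h0 hr.le fun S hS => T_zero_le hE.symm hS
      rw [Ex_const] at h1
      refine h1.trans ?_
      rw [← hE]; simp
    set ρ : ℝ := Real.sqrt r with hρ
    have hρ2 : ρ * ρ = r := Real.mul_self_sqrt h0
    have hρ0 : 0 ≤ ρ := Real.sqrt_nonneg r
    have hρ1 : ρ < 1 := by nlinarith
    set q : ℝ := 1 - ρ with hq
    have hq0 : 0 < q := by linarith
    have hq1 : q ≤ 1 := by linarith
    have hpq : 1 - r ≤ 2 * q := by rw [← hρ2]; nlinarith
    set L : ℝ := Real.sqrt (24 / q) with hL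
    have hL0 : 0 < L := Real.sqrt_pos.mpr (by positivity)
    have hL2 : L ^ 2 = 24 / q := Real.sq_sqrt (by positivity)
    set K : ℝ := L * (Real.sqrt 2 * Real.sqrt (En v) / q) with hK
    set A : ℝ := (58 + Real.sqrt ((N : ℝ) + 1) / 2 ^ R) with hA
    have hA0 : 0 ≤ A := by positivity
    have hE0 : 0 < Real.sqrt (En v) := Real.sqrt_pos.mpr hE
    -- one round
    have h1 : Ex (Ud N) r (T v) ≤ Ex (Ud N) ρ (fun S =>
        (inv v 0 + K) + (A / q ^ 2) * Real.sqrt (En (res v q K S))) := by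
      rw [← hρ2, Ex_union]
      refine Ex_mono hρ0 hρ1.le fun S hS => ?_
      have h2 : Ex (Ud N) ρ (fun S' => T v (S ∪ S')) ≤
          Ex (Ud N) ρ (fun S' => (inv v 0 + K) + T (res v q K S) S') :=
        Ex_mono hρ0 hρ1.le fun S' hS' => T_round q K hS hS'
      refine h2.trans ?_
      rw [Ex_add, Ex_const]
      have h3 := ih hρ0 hρ1 (v := res v q K S) (fun j => res_neg hv q K S j)
        (fun j => res_nonneg v q K S j)
      have h4 : Real.sqrt (En (res v q K S)) * (A / q ^ 2) =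
        (A / q ^ 2) * Real.sqrt (En (res v q K S)) := mul_comm _ _
      rw [← h4]
      linarith
    refine h1.trans ?_
    rw [Ex_add, Ex_const, Ex_smul]
    have h5 : Ex (Ud N) ρ (fun S => Real.sqrt (En (res v q K S))) ≤
        Real.sqrt (En v) * (4 / (q * L) * Real.exp (-(24 / q / 8))) := by
      refine (Ex_sqrt_le hρ0 hρ1.le fun S _ => En_nonneg _).trans ?_
      rw [Real.sqrt_le_left (by positivity)]
      refine (Ex_En_res hv hρ0 hρ1 hE hL0).trans (le_of_eq ?_)
      rw [← hq, mul_pow, mul_pow, Real.sq_sqrt hE.le, ← Real.exp_nat_mul, hL2]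
      have : ((2 : ℕ) : ℝ) * -(24 / q / 8) = -(24 / q / 4) := by push_cast; ring
      rw [this, div_pow, mul_pow, ← hL2]
      field_simp
      ring
    have h6 : (A / q ^ 2) * Ex (Ud N) ρ (fun S => Real.sqrt (En (res v q K S))) ≤
        (A / q ^ 2) * (Real.sqrt (En v) * (4 / (q * L) * Real.exp (-(24 / q / 8)))) :=
      mul_le_mul_of_nonneg_left h5 (by positivity)
    have h7 := exp_key hq0 hq1
    have h8 : (A / q ^ 2) * (Real.sqrt (En v) * (4 / (q * L) * Real.exp (-(24 / q / 8)))) =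
        Real.sqrt (En v) * A * (4 / (q ^ 3 * L) * Real.exp (-(24 / q / 8))) := by
      field_simp
    rw [h8] at h6
    have h9 : Real.sqrt (En v) * A * (4 / (q ^ 3 * L) * Real.exp (-(24 / q / 8))) ≤
        Real.sqrt (En v) * A * (1 / (8 * q ^ 2)) :=
      mul_le_mul_of_nonneg_left h7 (by positivity)
    have h10 : (1 : ℝ) / (8 * q ^ 2) ≤ 1 / (2 * (1 - r) ^ 2) := by
      apply one_div_le_one_div_of_le (by positivity)
      have a8 : (1 - r) ^ 2 ≤ (2 * q) ^ 2 := pow_le_pow_left₀ hp.le hpq 2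
      linarith [a8, mul_pow 2 q 2]
    have h11 : Real.sqrt (En v) * A * (1 / (8 * q ^ 2)) ≤
        Real.sqrt (En v) * A * (1 / (2 * (1 - r) ^ 2)) :=
      mul_le_mul_of_nonneg_left h10 (by positivity)
    have h12 := inv_zero_le v
    have h13 : 1 + L * Real.sqrt 2 / q ≤ 29 / (1 - r) ^ 2 := by
      have a1 : L * Real.sqrt 2 = Real.sqrt (48 / q) := by
        rw [hL, ← Real.sqrt_mul (by positivity)]
        congr 1; ring
      have a2 : Real.sqrt (48 / q) ≤ 7 / q := by
        rw [Real.sqrt_le_left (by positivity), div_pow, div_le_div_iff₀ hq0 (by positivity)]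
        have a7 : q ^ 2 ≤ q := by nlinarith
        linarith
      have a3 : L * Real.sqrt 2 / q ≤ 7 / q / q := by
        rw [a1]
        exact div_le_div_of_nonneg_right a2 hq0.le
      have a4 : 7 / q / q ≤ 28 / (1 - r) ^ 2 := by
        rw [div_div, div_le_div_iff₀ (by positivity) (by positivity)]
        have a8 : (1 - r) ^ 2 ≤ (2 * q) ^ 2 := pow_le_pow_left₀ hp.le hpq 2
        linarith [a8, mul_pow 2 q 2, sq q]
      have a5 : 1 ≤ 1 / (1 - r) ^ 2 := by
        rw [le_div_iff₀ (by positivity), one_mul]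
        exact pow_le_one₀ hp.le (by linarith)
      have a6 : 29 / (1 - r) ^ 2 = 1 / (1 - r) ^ 2 + 28 / (1 - r) ^ 2 := by ring
      rw [a6]
      linarith
    have h14 : Real.sqrt (En v) * (1 + L * Real.sqrt 2 / q) ≤
        Real.sqrt (En v) * (29 / (1 - r) ^ 2) := mul_le_mul_of_nonneg_left h13 hE0.le
    have h15 : K = Real.sqrt (En v) * (L * Real.sqrt 2 / q) := by
      rw [hK]; ring
    have h16 : Real.sqrt (En v) * ((58 + Real.sqrt ((N : ℝ) + 1) / 2 ^ (R + 1)) / (1 - r) ^ 2) =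
        Real.sqrt (En v) * (29 / (1 - r) ^ 2) + Real.sqrt (En v) * A * (1 / (2 * (1 - r) ^ 2)) := by
      rw [hA, pow_succ]
      field_simp
      ring
    rw [h16]
    have h17 : Real.sqrt (En v) * (1 + L * Real.sqrt 2 / q) = Real.sqrt (En v) + K := by
      rw [h15]; ring
    linarith

end Pool.Agent.H90.Round
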