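import Mathlib
import Pool.Agent.H90.Round

set_option autoImplicit false

namespace Pool.Agent.H90.Dual

open Finset Pool.Agent.H90.Bern Pool.Agent.H90.Four Pool.Agent.H90.Round

variable {N : ℕ}

/-- The function `n` times the indicator of `0`. -/
noncomputable def dl (N : ℕ) : ZMod (N + 1) → ℝ := fun j => if j = 0 then (N : ℝ) + 1 else 0

theorem dl_neg (j : ZMod (N + 1)) : dl N (-j) = dl N j := by
  unfold dl; simp only [neg_eq_zero]

theorem dl_nonneg (j : ZMod (N + 1)) : 0 ≤ dl N j := by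
  unfold dl; split_ifs <;> positivity

theorem En_dl : En (dl N) = (N : ℝ) + 1 := by
  unfold En dl
  have h : ∀ j : ZMod (N + 1), (if j = 0 then (N : ℝ) + 1 else 0) ^ 2 =
      if j = 0 then ((N : ℝ) + 1) ^ 2 else 0 := by
    intro j; split_ifs <;> simp
  simp only [h]
  rw [Finset.sum_ite_eq' Finset.univ (0 : ZMod (N + 1))]
  simp only [Finset.mem_univ, if_true]
  field_simp

theorem quad_co {B : Matrix (ZMod (N + 1)) (ZMod (N + 1)) ℝ} (hB : B.PosSemidef)
    (j : ZMod (N + 1)) : 0 ≤ ∑ a, ∑ b, B a b * co (j * (a - b)) := by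
  have h1 := hB.dotProduct_mulVec_nonneg (fun a => co (j * a))
  have h2 := hB.dotProduct_mulVec_nonneg (fun a => si (j * a))
  have h3 : ∑ a, ∑ b, B a b * co (j * (a - b)) =
      (star (fun a => co (j * a)) ⬝ᵥ B.mulVec (fun a => co (j * a))) +
      (star (fun a => si (j * a)) ⬝ᵥ B.mulVec (fun a => si (j * a))) := by
    simp only [dotProduct, Matrix.mulVec, Pi.star_apply, star_trivial]
    rw [← Finset.sum_add_distrib]
    refine Finset.sum_congr rfl fun a _ => ?_
    rw [Finset.mul_sum, Finset.mul_sum, ← Finset.sum_add_distrib]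
    refine Finset.sum_congr rfl fun b _ => ?_
    rw [mul_sub, co_sub]
    ring
  rw [h3]
  exact add_nonneg h1 h2

/-- Weak duality for circulant certificates. -/
theorem weak_dual {B : Matrix (ZMod (N + 1)) (ZMod (N + 1)) ℝ} (hB : B.PosSemidef)
    (htr : B.trace = 1) {S : Finset ℕ} (hS : S ⊆ Ud N)
    (hz : ∀ a b, a ≠ b → ds (a - b) ∈ S → B a b = 0) {t : ℝ} (ht : t ∈ TS (dl N) S) :
    ∑ a, ∑ b, B a b ≤ t := by
  obtain ⟨c, hc1, hc2, hc3⟩ := ht
  have hn : (0 : ℝ) < (N : ℝ) + 1 := by positivity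
  have hc0 : c 0 = 0 := by
    by_contra h
    have h1 := hS (hc2 0 h)
    rw [ds_zero] at h1
    simp [Ud] at h1
  -- the kernel
  have hker : ∀ x : ZMod (N + 1),
      (∑ j, (tr c j + t - dl N j) * co (j * x)) / ((N : ℝ) + 1) =
        c x + (if x = 0 then t else 0) - 1 := by
    intro x
    have e1 : ∑ j, (tr c j + t - dl N j) * co (j * x) =
        (∑ j, tr c j * co (j * x)) + t * (∑ j, co (j * x)) - ∑ j, dl N j * co (j * x) := by
      rw [Finset.mul_sum, ← Finset.sum_add_distrib, ← Finset.sum_sub_distrib]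
      exact Finset.sum_congr rfl fun j _ => by ring
    have e2 : ∑ j : ZMod (N + 1), co (j * x) = if x = 0 then ((N : ℝ) + 1) else 0 := by
      rw [← sum_co x]
      exact Finset.sum_congr rfl fun j _ => by rw [mul_comm]
    have e3 : ∑ j, dl N j * co (j * x) = (N : ℝ) + 1 := by
      unfold dl
      simp only [ite_mul, zero_mul]
      rw [Finset.sum_ite_eq' Finset.univ (0 : ZMod (N + 1))]
      simp [co_zero]
    have e4 : (∑ j, tr c j * co (j * x)) / ((N : ℝ) + 1) = c x := inv_tr hc1 x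
    rw [e1, e2, e3, sub_div, add_div, e4, div_self hn.ne']
    split_ifs
    · field_simp
    · simp
  have h1 : 0 ≤ ∑ j, (tr c j + t - dl N j) / ((N : ℝ) + 1) *
      ∑ a, ∑ b, B a b * co (j * (a - b)) := by
    refine Finset.sum_nonneg fun j _ => mul_nonneg ?_ (quad_co hB j)
    exact div_nonneg (by linarith [hc3 j]) hn.le
  have h2 : ∑ j, (tr c j + t - dl N j) / ((N : ℝ) + 1) *
      ∑ a, ∑ b, B a b * co (j * (a - b)) =
      ∑ a, ∑ b, B a b * (c (a - b) + (if a - b = 0 then t else 0) - 1) := by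
    have e1 : ∀ a b, B a b * (c (a - b) + (if a - b = 0 then t else 0) - 1) =
        ∑ j, (tr c j + t - dl N j) / ((N : ℝ) + 1) * (B a b * co (j * (a - b))) := by
      intro a b
      rw [← hker (a - b), Finset.sum_div, Finset.mul_sum]
      exact Finset.sum_congr rfl fun j _ => by ring
    simp only [e1]
    simp only [Finset.mul_sum]
    rw [Finset.sum_comm]
    refine Finset.sum_congr rfl fun a _ => ?_
    rw [Finset.sum_comm]
  rw [h2] at h1
  have h3 : ∀ a b, B a b * (c (a - b) + (if a - b = 0 then t else 0) - 1) =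
      (if b = a then t * B a a else 0) - B a b := by
    intro a b
    by_cases hab : a = b
    · subst hab
      simp [hc0]
      ring
    · have hba : ¬ (b = a) := fun h => hab h.symm
      have hs : ¬ (a - b = 0) := sub_ne_zero.mpr hab
      rw [if_neg hba, if_neg hs]
      by_cases hcc : c (a - b) = 0
      · rw [hcc]; ring
      · rw [hz a b hab (hc2 _ hcc)]; ring
  simp only [h3] at h1
  have h4 : ∑ a, ∑ b, ((if b = a then t * B a a else 0) - B a b) =
      t * B.trace - ∑ a, ∑ b, B a b := by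
    rw [Matrix.trace, Finset.mul_sum, ← Finset.sum_sub_distrib]
    refine Finset.sum_congr rfl fun a _ => ?_
    rw [Finset.sum_sub_distrib, Finset.sum_ite_eq']
    simp [Matrix.diag]
  rw [h4, htr] at h1
  linarith

/-- The quantity in the frozen statement. -/
noncomputable def theta (n : ℕ) (S : Finset ℕ) : ℝ :=
  sSup {r : ℝ | ∃ B : Matrix (Fin n) (Fin n) ℝ,
    B.PosSemidef ∧ B.trace = 1 ∧
    (∀ i j : Fin n,
      (SimpleGraph.fromRel
        (fun a b : Fin n => min (b - a).val (a - b).val ∈ S)).Adj i j →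
        B i j = 0) ∧
    r = ∑ i, ∑ j, B i j}

theorem mean_dl : (∑ j, dl N j) / ((N : ℝ) + 1) = 1 := by
  unfold dl
  rw [Finset.sum_ite_eq' Finset.univ (0 : ZMod (N + 1))]
  simp only [Finset.mem_univ, if_true]
  have : (0 : ℝ) < (N : ℝ) + 1 := by positivity
  exact div_self this.ne'

theorem theta_le_T {S : Finset ℕ} (hS : S ⊆ Ud N) : theta (N + 1) S ≤ T (dl N) S := by
  have hne : (TS (dl N) S).Nonempty := ⟨_, TS_triv _ _⟩
  have h0 : 0 ≤ T (dl N) S := by
    refine le_csInf hne fun t ht => ?_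
    have := TS_lower hS ht
    rw [mean_dl] at this
    linarith
  refine Real.sSup_le ?_ h0
  rintro x ⟨B, hB, htr, hz, rfl⟩
  refine le_csInf hne fun t ht => ?_
  refine weak_dual (N := N) (B := B) hB htr hS ?_ ht
  intro a b hab hd
  have key : ∀ (a b : Fin (N + 1)), a ≠ b → min (a - b).val (b - a).val ∈ S →
      (SimpleGraph.fromRel
        (fun a b : Fin (N + 1) => min (b - a).val (a - b).val ∈ S)).Adj a b := by
    intro a b hab h
    rw [SimpleGraph.fromRel_adj]
    exact ⟨hab, Or.inr h⟩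
  refine hz a b (key a b hab ?_)
  have e' : (-(a - b) : ZMod (N + 1)) = b - a := by ring
  unfold ds at hd
  rw [e'] at hd
  exact hd

theorem theta_zero (S : Finset ℕ) : theta 0 S ≤ 0 := by
  refine Real.sSup_le ?_ le_rfl
  rintro x ⟨B, hB, htr, hz, rfl⟩
  simp

/-- The average of the Lovasz number. -/
theorem avg_le (n : ℕ) :
    (∑ S ∈ (Finset.Icc 1 (n / 2)).powerset, theta n S) / (2 : ℝ) ^ (n / 2) ≤
      232 * Real.sqrt (n : ℝ) := by
  rcases n with _ | N
  · simp only [Nat.zero_div]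
    have := theta_zero ∅
    simpa using this
  · have h1 : (∑ S ∈ (Finset.Icc 1 ((N + 1) / 2)).powerset, theta (N + 1) S) /
        (2 : ℝ) ^ ((N + 1) / 2) = Ex (Ud N) (1 / 2) (theta (N + 1)) := by
      rw [Ex_half]
      unfold Ud
      rw [Nat.card_Icc, Nat.add_sub_cancel]
    rw [h1]
    have h2 : Ex (Ud N) (1 / 2) (theta (N + 1)) ≤ Ex (Ud N) (1 / 2) (T (dl N)) :=
      Ex_mono (by norm_num) (by norm_num) fun S hS => theta_le_T hS
    refine h2.trans ?_
    have h3 : ∀ R : ℕ, Ex (Ud N) (1 / 2) (T (dl N)) ≤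
        Real.sqrt ((N : ℝ) + 1) * ((58 + Real.sqrt ((N : ℝ) + 1) / 2 ^ R) * 4) := by
      intro R
      have := Ex_T_le R (r := 1 / 2) (by norm_num) (by norm_num) (v := dl N) dl_neg dl_nonneg
      rw [En_dl] at this
      refine this.trans (le_of_eq ?_)
      have h7 : (1 - 1 / 2 : ℝ) ^ 2 = 1 / 4 := by norm_num
      rw [h7]
      ring
    have h4 : Filter.Tendsto (fun R : ℕ =>
        Real.sqrt ((N : ℝ) + 1) * ((58 + Real.sqrt ((N : ℝ) + 1) / 2 ^ R) * 4)) Filter.atTop
        (nhds (Real.sqrt ((N : ℝ) + 1) * ((58 + 0) * 4))) := by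
      refine Filter.Tendsto.const_mul _ (Filter.Tendsto.mul_const _
        (Filter.Tendsto.const_add _ ?_))
      have h5 := (tendsto_pow_atTop_nhds_zero_of_lt_one (r := (1 / 2 : ℝ)) (by norm_num)
        (by norm_num)).const_mul (Real.sqrt ((N : ℝ) + 1))
      rw [mul_zero] at h5
      refine h5.congr fun R => ?_
      rw [div_pow, one_pow]; ring
    have h6 := ge_of_tendsto' h4 h3
    push_cast
    linarith

end Pool.Agent.H90.Dual
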