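import Mathlib
import Pool.Agent.H90.Round

set_option autoImplicit false

namespace Pool.Agent.H90.TF

open Finset Pool.Agent.H90.Round

/-- A shape of a tree: leaves `A`, nodes `V`, every node carries the set of leaves below it. -/
structure Sys : Type 1 where
  A : Type
  V : Type
  [fA : Fintype A]
  [dA : DecidableEq A]
  [fV : Fintype V]
  [dV : DecidableEq V]
  supp : V → Finset A
  leaf : A → V
  root : V
  supp_leaf : ∀ a, supp (leaf a) = {a}
  supp_root : supp root = Finset.univ
  supp_ne : ∀ v, (supp v).Nonempty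

attribute [instance] Sys.fA Sys.dA Sys.fV Sys.dV

/-- Value of a node under a labelling of the leaves. -/
def Sys.val (T : Sys) {M : Type} [AddCommMonoid M] (k : T.A → M) (v : T.V) : M :=
  ∑ a ∈ T.supp v, k a

/-- Leaves in a set of nodes. -/
def Sys.lf (T : Sys) (P : Finset T.V) : Finset T.A := univ.filter fun a => T.leaf a ∈ P

/-- A lower bound for the number of leaves determined by the values of the nodes in `P`. -/
def Sys.dt (T : Sys) (P : Finset T.V) : ℕ :=
  (T.lf P).card + (if ∃ v ∈ P, ¬ T.supp v ⊆ T.lf P then 1 else 0)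

theorem Sys.val_leaf (T : Sys) {M : Type} [AddCommMonoid M] (k : T.A → M) (a : T.A) :
    T.val k (T.leaf a) = k a := by
  unfold Sys.val; rw [T.supp_leaf, Finset.sum_singleton]

theorem Sys.val_root (T : Sys) {M : Type} [AddCommMonoid M] (k : T.A → M) :
    T.val k T.root = ∑ a, k a := by
  unfold Sys.val; rw [T.supp_root]

theorem Sys.lf_add (T : Sys) {P Q : Finset T.V} (h : ∀ v, v ∈ P ∨ v ∈ Q) :
    Fintype.card T.A ≤ (T.lf P).card + (T.lf Q).card := by
  have h1 : (Finset.univ : Finset T.A) ⊆ T.lf P ∪ T.lf Q := by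
    intro a _
    rw [Finset.mem_union]
    rcases h (T.leaf a) with h2 | h2
    · left; exact Finset.mem_filter.mpr ⟨Finset.mem_univ _, h2⟩
    · right; exact Finset.mem_filter.mpr ⟨Finset.mem_univ _, h2⟩
  have h2 := Finset.card_le_card h1
  rw [Finset.card_univ] at h2
  exact h2.trans (Finset.card_union_le _ _)

theorem Sys.dt_add (T : Sys) {P Q : Finset T.V} (h : ∀ v, v ∈ P ∨ v ∈ Q) :
    Fintype.card T.A ≤ T.dt P + T.dt Q := by
  have := T.lf_add h
  unfold Sys.dt
  omega

theorem Sys.dt_add' (T : Sys) {P Q : Finset T.V} (h : ∀ v, v ∈ P ∨ v ∈ Q)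
    (hP : P.Nonempty) (hQ : Q.Nonempty) :
    Fintype.card T.A + 1 ≤ T.dt P + T.dt Q := by
  by_cases h1 : ∃ v ∈ P, ¬ T.supp v ⊆ T.lf P
  · have := T.lf_add h
    unfold Sys.dt
    rw [if_pos h1]
    omega
  by_cases h2 : ∃ v ∈ Q, ¬ T.supp v ⊆ T.lf Q
  · have := T.lf_add h
    unfold Sys.dt
    rw [if_pos h2]
    omega
  push Not at h1 h2
  -- the root lies in `P` or `Q`
  have key : ∀ {P Q : Finset T.V}, (∀ v ∈ P, T.supp v ⊆ T.lf P) →
      (∀ v ∈ Q, T.supp v ⊆ T.lf Q) → Q.Nonempty → T.root ∈ P →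
      Fintype.card T.A + 1 ≤ (T.lf P).card + (T.lf Q).card := by
    intro P Q h1 h2 hQ hr
    have h3 := h1 _ hr
    rw [T.supp_root] at h3
    have h4 := Finset.card_le_card h3
    rw [Finset.card_univ] at h4
    obtain ⟨v, hv⟩ := hQ
    obtain ⟨a, ha⟩ := T.supp_ne v
    have h5 : 0 < (T.lf Q).card := Finset.card_pos.mpr ⟨a, h2 v hv ha⟩
    omega
  unfold Sys.dt
  rcases h T.root with hr | hr
  · have := key h1 h2 hQ hr
    omega
  · have := key h2 h1 hP hr
    omega

/-- Free leaves for a set `P` of nodes with prescribed values. -/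
theorem Sys.free (T : Sys) (P : Finset T.V) : ∃ F : Finset T.A,
    F.card + T.dt P = Fintype.card T.A ∧
    ∀ (M : Type) [AddCommGroup M] (k k' : T.A → M), (∀ v ∈ P, T.val k v = T.val k' v) →
      (∀ a ∈ F, k a = k' a) → k = k' := by
  have hc : (univ \ T.lf P).card + (T.lf P).card = Fintype.card T.A := by
    rw [Finset.card_sdiff_add_card_eq_card (Finset.subset_univ _), Finset.card_univ]
  by_cases h1 : ∃ v ∈ P, ¬ T.supp v ⊆ T.lf P
  · obtain ⟨v, hv, hv2⟩ := h1
    rw [Finset.not_subset] at hv2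
    obtain ⟨a0, ha0, ha1⟩ := hv2
    refine ⟨(univ \ T.lf P).erase a0, ?_, ?_⟩
    · have h2 : a0 ∈ univ \ T.lf P := Finset.mem_sdiff.mpr ⟨Finset.mem_univ _, ha1⟩
      have h3 := Finset.card_erase_add_one h2
      unfold Sys.dt
      rw [if_pos ⟨v, hv, Finset.not_subset.mpr ⟨a0, ha0, ha1⟩⟩]
      omega
    · intro M _ k k' hk hF
      have h2 : ∀ a, a ≠ a0 → k a = k' a := by
        intro a ha
        by_cases h3 : a ∈ T.lf P
        · have h4 := hk _ (Finset.mem_filter.mp h3).2
          rwa [T.val_leaf, T.val_leaf] at h4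
        · exact hF a (Finset.mem_erase.mpr ⟨ha, Finset.mem_sdiff.mpr ⟨Finset.mem_univ _, h3⟩⟩)
      funext a
      by_cases ha : a = a0
      · rw [ha]
        have h3 := hk v hv
        unfold Sys.val at h3
        rw [← Finset.add_sum_erase _ _ ha0, ← Finset.add_sum_erase _ k' ha0] at h3
        have h4 : ∑ x ∈ (T.supp v).erase a0, k x = ∑ x ∈ (T.supp v).erase a0, k' x :=
          Finset.sum_congr rfl fun x hx => h2 x (Finset.mem_erase.mp hx).1
        rw [h4] at h3
        exact add_right_cancel h3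
      · exact h2 a ha
  · refine ⟨univ \ T.lf P, ?_, ?_⟩
    · unfold Sys.dt
      rw [if_neg h1]
      omega
    · intro M _ k k' hk hF
      funext a
      by_cases h3 : a ∈ T.lf P
      · have h4 := hk _ (Finset.mem_filter.mp h3).2
        rwa [T.val_leaf, T.val_leaf] at h4
      · exact hF a (Finset.mem_sdiff.mpr ⟨Finset.mem_univ _, h3⟩)

end Pool.Agent.H90.TF
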