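import Mathlib
import Pool.Agent.H90.TFSys

set_option autoImplicit false

namespace Pool.Agent.H90.TF

open Finset Pool.Agent.H90.Round

variable {ι : Type} [Fintype ι] [DecidableEq ι]

/-- Nodes of a family of trees. -/
abbrev Nd (T : ι → Sys) : Type := Σ l : ι, (T l).V

/-- Labellings of a family of trees. -/
abbrev Lb (T : ι → Sys) (N : ℕ) : Type := (l : ι) → (T l).A → ZMod (N + 1)

/-- Value of a node. -/
def vl {T : ι → Sys} {N : ℕ} (x : Lb T N) (ν : Nd T) : ZMod (N + 1) := (T ν.1).val (x ν.1) ν.2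

/-- Sign. -/
def sg {N : ℕ} (b : Bool) (z : ZMod (N + 1)) : ZMod (N + 1) := if b then z else -z

theorem ds_eq {N : ℕ} {a b : ZMod (N + 1)} (h : ds a = ds b) : ∃ s : Bool, a = sg s b := by
  have h1 : ∀ c : ZMod (N + 1), c = (ds c : ZMod (N + 1)) ∨ c = -(ds c : ZMod (N + 1)) := by
    intro c
    unfold ds
    rcases min_choice c.val (-c).val with h1 | h1
    · left; rw [h1, ZMod.natCast_val, ZMod.cast_id]
    · right; rw [h1, ZMod.natCast_val, ZMod.cast_id, neg_neg]
  rcases h1 a with ha | ha <;> rcases h1 b with hb | hb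
  · exact ⟨true, by rw [ha, h, ← hb]; rfl⟩
  · refine ⟨false, ?_⟩
    rw [ha, h]
    unfold sg
    rw [if_neg (by simp)]
    rw [hb, neg_neg, ← hb]
  · refine ⟨false, ?_⟩
    rw [ha, h, ← hb]; rfl
  · exact ⟨true, by rw [ha, h, ← hb]; rfl⟩

theorem ds_sg {N : ℕ} (s : Bool) (b : ZMod (N + 1)) : ds (sg s b) = ds b := by
  unfold sg; split_ifs
  · rfl
  · exact ds_neg b

/-- A code of coincidences. -/
abbrev Code (T : ι → Sys) : Type := Nd T → Option (Nd T × Bool)

/-- `x` realises the coincidences of the code, which point to smaller trees. -/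
def Comp {T : ι → Sys} {N : ℕ} (e : ι → ℕ) (c : Code T) (x : Lb T N) : Prop :=
  ∀ ν ν' b, c ν = some (ν', b) → e ν'.1 < e ν.1 ∧ vl x ν = sg b (vl x ν')

/-- Nodes with a coincidence. -/
def pat {T : ι → Sys} (c : Code T) (l : ι) : Finset (T l).V :=
  univ.filter fun v => (c ⟨l, v⟩).isSome

open Classical in
theorem card_comp (T : ι → Sys) (e : ι → ℕ) (c : Code T) (N : ℕ) (F : (l : ι) → Finset (T l).A)
    (hF : ∀ l, ∀ (k k' : (T l).A → ZMod (N + 1)),
      (∀ v ∈ pat c l, (T l).val k v = (T l).val k' v) → (∀ a ∈ F l, k a = k' a) → k = k') :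
    (univ.filter fun x : Lb T N => Comp e c x).card ≤ (N + 1) ^ (∑ l, (F l).card) := by
  have h1 : Fintype.card ((l : ι) → (F l) → ZMod (N + 1)) = (N + 1) ^ (∑ l, (F l).card) := by
    rw [Fintype.card_pi]
    have : ∀ l, Fintype.card ((F l) → ZMod (N + 1)) = (N + 1) ^ (F l).card := by
      intro l
      rw [Fintype.card_fun, ZMod.card, Fintype.card_coe]
    simp only [this]
    rw [Finset.prod_pow_eq_pow_sum]
  rw [← h1, ← Finset.card_univ]
  refine Finset.card_le_card_of_injOn (fun x l a => x l a.1) (fun _ _ => Finset.mem_univ _) ?_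
  intro x hx y hy hxy
  have hx' : Comp e c x := (Finset.mem_filter.mp hx).2
  have hy' : Comp e c y := (Finset.mem_filter.mp hy).2
  have key : ∀ m : ℕ, ∀ l, e l = m → x l = y l := by
    intro m
    induction m using Nat.strong_induction_on with
    | _ m ih =>
      intro l hl
      refine hF l _ _ (fun v hv => ?_) fun a ha => ?_
      · have hv2 := (Finset.mem_filter.mp hv).2
        rw [Option.isSome_iff_exists] at hv2
        obtain ⟨⟨ν', b⟩, hb⟩ := hv2
        have h2 := hx' _ _ _ hb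
        have h3 := hy' _ _ _ hb
        have h4 : x ν'.1 = y ν'.1 := ih (e ν'.1) (hl ▸ h2.1) ν'.1 rfl
        have h5 : vl x ν' = vl y ν' := by unfold vl; rw [h4]
        have h6 : vl x ⟨l, v⟩ = vl y ⟨l, v⟩ := by rw [h2.2, h3.2, h5]
        exact h6
      · have := congrFun (congrFun hxy l) ⟨a, ha⟩
        exact this
  funext l
  exact key (e l) l rfl

/-- The node `ν` coincides in class with a node of a smaller tree. -/
def Early {T : ι → Sys} {N : ℕ} (e : ι → ℕ) (x : Lb T N) (ν : Nd T) : Prop :=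
  ∃ ν' : Nd T, e ν'.1 < e ν.1 ∧ ds (vl x ν) = ds (vl x ν')

open Classical in
theorem exists_code {T : ι → Sys} {N : ℕ} (e : ι → ℕ) (x : Lb T N) :
    ∃ c : Code T, Comp e c x ∧ ∀ ν : Nd T, ν.2 ∈ pat c ν.1 ↔ Early e x ν := by
  refine ⟨fun ν => if h : Early e x ν then
    some (h.choose, (ds_eq h.choose_spec.2).choose) else none, ?_, ?_⟩
  · intro ν ν' b h
    by_cases h1 : Early e x ν
    · simp only [dif_pos h1] at h
      have h2 := Option.some.inj h
      have h3 : h1.choose = ν' := congrArg Prod.fst h2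
      have h4 : (ds_eq h1.choose_spec.2).choose = b := congrArg Prod.snd h2
      have h5 := (ds_eq h1.choose_spec.2).choose_spec
      rw [h4] at h5
      rw [h3] at h5
      have h6 := h1.choose_spec.1
      rw [h3] at h6
      exact ⟨h6, h5⟩
    · simp only [dif_neg h1] at h
      exact absurd h (by simp)
  · intro ν
    unfold pat
    rw [Finset.mem_filter]
    by_cases h1 : Early e x ν
    · simp [h1]
    · simp [h1]


/-- Reversed rank. -/
def rev (e : ι → ℕ) (l : ι) : ℕ := (∑ m, e m) - e l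

theorem rev_lt (e : ι → ℕ) (l l' : ι) : rev e l < rev e l' ↔ e l' < e l := by
  unfold rev
  have h1 : e l ≤ ∑ m, e m := Finset.single_le_sum (fun _ _ => Nat.zero_le _) (Finset.mem_univ l)
  have h2 : e l' ≤ ∑ m, e m := Finset.single_le_sum (fun _ _ => Nat.zero_le _) (Finset.mem_univ l')
  omega

open Classical in
/-- The main counting lemma. -/
theorem EL (T : ι → Sys) (e : ι → ℕ) (M : Finset ι) : ∃ C : ℝ, 0 ≤ C ∧
    ∀ (N : ℕ) (X : Finset (Lb T N)),
      (∀ x ∈ X, (∀ ν : Nd T, Early e x ν ∨ Early (rev e) x ν) ∧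
        ∀ l ∈ M, (∃ v, Early e x ⟨l, v⟩) ∧ (∃ v, Early (rev e) x ⟨l, v⟩)) →
      (X.card : ℝ) * Real.sqrt ((N : ℝ) + 1) ^ M.card ≤
        C * Real.sqrt ((N : ℝ) + 1) ^ (∑ l, Fintype.card (T l).A) := by
  refine ⟨((univ : Finset (Code T × Code T)).card : ℝ), by positivity, fun N X hX => ?_⟩
  set s : ℝ := Real.sqrt ((N : ℝ) + 1) with hs
  have hs2 : s ^ 2 = (N : ℝ) + 1 := Real.sq_sqrt (by positivity)
  have hs0 : 0 ≤ s := Real.sqrt_nonneg _
  have hN1 : (1 : ℝ) ≤ (N : ℝ) + 1 := by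
    have : (0 : ℝ) ≤ N := Nat.cast_nonneg N
    linarith
  -- valid codes
  set W : Finset (Code T × Code T) := univ.filter fun cc =>
    (∀ l v, v ∈ pat cc.1 l ∨ v ∈ pat cc.2 l) ∧
      ∀ l ∈ M, (pat cc.1 l).Nonempty ∧ (pat cc.2 l).Nonempty with hW
  set Y : Code T × Code T → Finset (Lb T N) := fun cc =>
    univ.filter fun x => Comp e cc.1 x ∧ Comp (rev e) cc.2 x with hY
  have hsub : X ⊆ W.biUnion Y := by
    intro x hx
    obtain ⟨h1, h2⟩ := hX x hx
    obtain ⟨c, hc1, hc2⟩ := exists_code e x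
    obtain ⟨c', hc1', hc2'⟩ := exists_code (rev e) x
    rw [Finset.mem_biUnion]
    refine ⟨(c, c'), ?_, ?_⟩
    · rw [hW, Finset.mem_filter]
      refine ⟨Finset.mem_univ _, fun l v => ?_, fun l hl => ?_⟩
      · rcases h1 ⟨l, v⟩ with h | h
        · left; exact (hc2 ⟨l, v⟩).mpr h
        · right; exact (hc2' ⟨l, v⟩).mpr h
      · obtain ⟨⟨v, hv⟩, ⟨v', hv'⟩⟩ := h2 l hl
        exact ⟨⟨v, (hc2 ⟨l, v⟩).mpr hv⟩, ⟨v', (hc2' ⟨l, v'⟩).mpr hv'⟩⟩
    · rw [hY, Finset.mem_filter]
      exact ⟨Finset.mem_univ _, hc1, hc1'⟩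
  have hbound : ∀ cc ∈ W, ((Y cc).card : ℝ) * s ^ M.card ≤
      s ^ (∑ l, Fintype.card (T l).A) := by
    intro cc hcc
    obtain ⟨_, h1, h2⟩ := Finset.mem_filter.mp hcc
    choose F hF1 hF2 using fun l => (T l).free (pat cc.1 l)
    choose F' hF1' hF2' using fun l => (T l).free (pat cc.2 l)
    have c1 : (Y cc).card ≤ (N + 1) ^ (∑ l, (F l).card) := by
      refine le_trans (Finset.card_le_card ?_) (card_comp T e cc.1 N F fun l k k' => hF2 l _ k k')
      intro x hx
      rw [Finset.mem_filter]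
      exact ⟨Finset.mem_univ _, (Finset.mem_filter.mp hx).2.1⟩
    have c2 : (Y cc).card ≤ (N + 1) ^ (∑ l, (F' l).card) := by
      refine le_trans (Finset.card_le_card ?_)
        (card_comp T (rev e) cc.2 N F' fun l k k' => hF2' l _ k k')
      intro x hx
      rw [Finset.mem_filter]
      exact ⟨Finset.mem_univ _, (Finset.mem_filter.mp hx).2.2⟩
    have c3 : (∑ l, (F l).card) + (∑ l, (F' l).card) + M.card ≤
        ∑ l, Fintype.card (T l).A := by
      have e1 : M.card = ∑ l : ι, if l ∈ M then 1 else 0 := by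
        rw [Finset.sum_ite_mem, Finset.univ_inter, Finset.card_eq_sum_ones]
      rw [e1, ← Finset.sum_add_distrib, ← Finset.sum_add_distrib]
      refine Finset.sum_le_sum fun l _ => ?_
      have e2 := hF1 l
      have e3 := hF1' l
      split_ifs with hl
      · have := (T l).dt_add' (h1 l) (h2 l hl).1 (h2 l hl).2
        omega
      · have := (T l).dt_add (h1 l)
        omega
    have hcard1 : ((Y cc).card : ℝ) ≤ ((N : ℝ) + 1) ^ (∑ l, (F l).card) := by exact_mod_cast c1
    have hcard2 : ((Y cc).card : ℝ) ≤ ((N : ℝ) + 1) ^ (∑ l, (F' l).card) := by exact_mod_cast c2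
    have hsq : (((Y cc).card : ℝ) * s ^ M.card) ^ 2 ≤ (s ^ (∑ l, Fintype.card (T l).A)) ^ 2 := by
      rw [mul_pow, ← pow_mul, ← pow_mul, mul_comm M.card 2, mul_comm _ 2, pow_mul, pow_mul, hs2]
      calc ((Y cc).card : ℝ) ^ 2 * ((N : ℝ) + 1) ^ M.card
          = ((Y cc).card : ℝ) * ((Y cc).card : ℝ) * ((N : ℝ) + 1) ^ M.card := by ring
        _ ≤ ((N : ℝ) + 1) ^ (∑ l, (F l).card) * ((N : ℝ) + 1) ^ (∑ l, (F' l).card) *
            ((N : ℝ) + 1) ^ M.card := by
              refine mul_le_mul_of_nonneg_right ?_ (by positivity)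
              exact mul_le_mul hcard1 hcard2 (by positivity) (by positivity)
        _ = ((N : ℝ) + 1) ^ ((∑ l, (F l).card) + (∑ l, (F' l).card) + M.card) := by
              rw [pow_add, pow_add]
        _ ≤ ((N : ℝ) + 1) ^ (∑ l, Fintype.card (T l).A) := pow_le_pow_right₀ hN1 c3
    exact (pow_le_pow_iff_left₀ (by positivity) (by positivity) (by norm_num)).mp hsq
  have h5 : (X.card : ℝ) ≤ ∑ cc ∈ W, ((Y cc).card : ℝ) := by
    have := (Finset.card_le_card hsub).trans Finset.card_biUnion_le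
    exact_mod_cast this
  calc (X.card : ℝ) * s ^ M.card ≤ (∑ cc ∈ W, ((Y cc).card : ℝ)) * s ^ M.card :=
        mul_le_mul_of_nonneg_right h5 (by positivity)
    _ = ∑ cc ∈ W, ((Y cc).card : ℝ) * s ^ M.card := by rw [Finset.sum_mul]
    _ ≤ ∑ cc ∈ W, s ^ (∑ l, Fintype.card (T l).A) := Finset.sum_le_sum hbound
    _ = (W.card : ℝ) * s ^ (∑ l, Fintype.card (T l).A) := by
        rw [Finset.sum_const, nsmul_eq_mul]
    _ ≤ ((univ : Finset (Code T × Code T)).card : ℝ) *
          s ^ (∑ l, Fintype.card (T l).A) := by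
        refine mul_le_mul_of_nonneg_right ?_ (by positivity)
        exact_mod_cast Finset.card_le_card (Finset.filter_subset _ _)

end Pool.Agent.H90.TF
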