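import Mathlib
import Pool.Agent.H90.TFCount

set_option autoImplicit false

namespace Pool.Agent.H90.TF

open Finset Pool.Agent.H90.Round

theorem sg_inj {N : ℕ} (b : Bool) {x y : ZMod (N + 1)} (h : sg b x = sg b y) : x = y := by
  unfold sg at h
  split_ifs at h
  · exact h
  · exact neg_injective h

open Classical in
/-- Counting pairs of labellings with the same classes and one linear constraint. -/
theorem LC (T T' : Sys) : ∃ C : ℝ, 0 ≤ C ∧ ∀ (N : ℕ) (D : Finset (ZMod (N + 1))), D.card ≤ 3 →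
    ∀ X : Finset ((T.A → ZMod (N + 1)) × (T'.A → ZMod (N + 1))),
      (∀ p ∈ X, (∀ a', ∃ v, ds (p.2 a') = ds (T.val p.1 v)) ∧
        ∃ (B : Finset T.A) (b : Bool), B ≠ univ ∧
          (∑ a, p.1 a) + sg b (∑ a ∈ B, p.1 a) ∈ D) →
      (X.card : ℝ) * ((N : ℝ) + 1) ≤ C * ((N : ℝ) + 1) ^ (Fintype.card T.A) := by
  refine ⟨(Fintype.card ((T'.A → T.V × Bool) × Finset T.A × Bool) : ℝ) * 3, by positivity,
    fun N D hD X hX => ?_⟩
  have hN1 : (0 : ℝ) < (N : ℝ) + 1 := by positivity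
  set W : Finset (((T'.A → T.V × Bool) × Finset T.A × Bool) × ZMod (N + 1)) := univ ×ˢ D with hW
  set Y : (((T'.A → T.V × Bool) × Finset T.A × Bool) × ZMod (N + 1)) →
      Finset ((T.A → ZMod (N + 1)) × (T'.A → ZMod (N + 1))) := fun c =>
    X.filter fun p => (∀ a', p.2 a' = sg (c.1.1 a').2 (T.val p.1 (c.1.1 a').1)) ∧
      c.1.2.1 ≠ univ ∧ (∑ a, p.1 a) + sg c.1.2.2 (∑ a ∈ c.1.2.1, p.1 a) = c.2 with hY
  have hsub : X ⊆ W.biUnion Y := by
    intro p hp
    obtain ⟨h1, B, b, hB, hD⟩ := hX p hp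
    choose φ hφ using h1
    choose ψ hψ using fun a' => ds_eq (hφ a')
    rw [Finset.mem_biUnion]
    refine ⟨(((fun a' => (φ a', ψ a')), B, b), (∑ a, p.1 a) + sg b (∑ a ∈ B, p.1 a)), ?_, ?_⟩
    · rw [hW, Finset.mem_product]
      exact ⟨Finset.mem_univ _, hD⟩
    · rw [hY, Finset.mem_filter]
      exact ⟨hp, hψ, hB, rfl⟩
  have hb : ∀ c ∈ W, ((Y c).card : ℝ) * ((N : ℝ) + 1) ≤ ((N : ℝ) + 1) ^ (Fintype.card T.A) := by
    rintro ⟨⟨φ, B, b⟩, d⟩ _
    by_cases hB : B = univ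
    · have : Y ⟨⟨φ, B, b⟩, d⟩ = ∅ := by
        rw [hY, Finset.filter_eq_empty_iff]
        intro p _ h
        exact h.2.1 hB
      rw [this]
      simp only [Finset.card_empty, Nat.cast_zero, zero_mul]
      positivity
    · obtain ⟨a0, ha0⟩ : ∃ a0, a0 ∉ B := by
        by_contra h
        push Not at h
        exact hB (Finset.eq_univ_iff_forall.mpr h)
      have h1 : (Y ⟨⟨φ, B, b⟩, d⟩).card ≤
          Fintype.card (((univ : Finset T.A).erase a0) → ZMod (N + 1)) := by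
        rw [← Finset.card_univ]
        refine Finset.card_le_card_of_injOn (fun p a => p.1 a.1) (fun _ _ => Finset.mem_univ _) ?_
        intro p hp q hq hpq
        obtain ⟨_, p1, _, p2⟩ := Finset.mem_filter.mp hp
        obtain ⟨_, q1, _, q2⟩ := Finset.mem_filter.mp hq
        have e1 : ∀ a, a ≠ a0 → p.1 a = q.1 a := by
          intro a ha
          exact congrFun hpq ⟨a, Finset.mem_erase.mpr ⟨ha, Finset.mem_univ _⟩⟩
        have e2 : ∑ a ∈ B, p.1 a = ∑ a ∈ B, q.1 a :=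
          Finset.sum_congr rfl fun a ha => e1 a fun h => ha0 (h ▸ ha)
        have e3 : ∑ a ∈ univ.erase a0, p.1 a = ∑ a ∈ univ.erase a0, q.1 a :=
          Finset.sum_congr rfl fun a ha => e1 a (Finset.mem_erase.mp ha).1
        have e4 : p.1 a0 = q.1 a0 := by
          have e5 : (∑ a, p.1 a) + sg b (∑ a ∈ B, p.1 a) =
              (∑ a, q.1 a) + sg b (∑ a ∈ B, q.1 a) := by rw [p2, q2]
          rw [e2, ← Finset.add_sum_erase _ _ (Finset.mem_univ a0),
            ← Finset.add_sum_erase _ q.1 (Finset.mem_univ a0), e3] at e5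
          exact add_right_cancel (add_right_cancel e5)
        have e6 : p.1 = q.1 := by
          funext a
          by_cases ha : a = a0
          · rw [ha]; exact e4
          · exact e1 a ha
        have e7 : p.2 = q.2 := by
          funext a'
          rw [p1 a', q1 a', e6]
        exact Prod.ext e6 e7
      have h2 : Fintype.card (((univ : Finset T.A).erase a0) → ZMod (N + 1)) =
          (N + 1) ^ (((univ : Finset T.A).erase a0).card) := by
        rw [Fintype.card_fun, ZMod.card, Fintype.card_coe]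
      have h3 : ((univ : Finset T.A).erase a0).card + 1 = Fintype.card T.A := by
        rw [Finset.card_erase_add_one (Finset.mem_univ a0), Finset.card_univ]
      rw [h2] at h1
      have h4 : ((Y ⟨⟨φ, B, b⟩, d⟩).card : ℝ) ≤
          ((N : ℝ) + 1) ^ (((univ : Finset T.A).erase a0).card) := by exact_mod_cast h1
      calc ((Y ⟨⟨φ, B, b⟩, d⟩).card : ℝ) * ((N : ℝ) + 1)
          ≤ ((N : ℝ) + 1) ^ (((univ : Finset T.A).erase a0).card) * ((N : ℝ) + 1) :=
            mul_le_mul_of_nonneg_right h4 hN1.le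
        _ = ((N : ℝ) + 1) ^ (Fintype.card T.A) := by rw [← pow_succ, h3]
  have h5 : (X.card : ℝ) ≤ ∑ c ∈ W, ((Y c).card : ℝ) := by
    have := (Finset.card_le_card hsub).trans Finset.card_biUnion_le
    exact_mod_cast this
  calc (X.card : ℝ) * ((N : ℝ) + 1) ≤ (∑ c ∈ W, ((Y c).card : ℝ)) * ((N : ℝ) + 1) :=
        mul_le_mul_of_nonneg_right h5 hN1.le
    _ = ∑ c ∈ W, ((Y c).card : ℝ) * ((N : ℝ) + 1) := by rw [Finset.sum_mul]
    _ ≤ ∑ c ∈ W, ((N : ℝ) + 1) ^ (Fintype.card T.A) := Finset.sum_le_sum hb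
    _ = (W.card : ℝ) * ((N : ℝ) + 1) ^ (Fintype.card T.A) := by
        rw [Finset.sum_const, nsmul_eq_mul]
    _ ≤ (Fintype.card ((T'.A → T.V × Bool) × Finset T.A × Bool) : ℝ) * 3 *
          ((N : ℝ) + 1) ^ (Fintype.card T.A) := by
        refine mul_le_mul_of_nonneg_right ?_ (by positivity)
        rw [hW, Finset.card_product, Finset.card_univ]
        push_cast
        have : (D.card : ℝ) ≤ 3 := by exact_mod_cast hD
        exact mul_le_mul_of_nonneg_left this (by positivity)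

/-- At most two solutions of `2 y = c`. -/
theorem card_two_mul {N : ℕ} (c : ZMod (N + 1)) :
    (univ.filter fun y : ZMod (N + 1) => y + y = c).card ≤ 2 := by
  rcases (univ.filter fun y : ZMod (N + 1) => y + y = c).eq_empty_or_nonempty with h | ⟨y0, h0⟩
  · rw [h]; simp
  · have h1 : (univ.filter fun y : ZMod (N + 1) => y + y = c) ⊆
        {y0, y0 + (((N + 1) / 2 : ℕ) : ZMod (N + 1))} := by
      intro y hy
      have hy1 := (Finset.mem_filter.mp hy).2
      have hy0 := (Finset.mem_filter.mp h0).2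
      have h2 : -(y - y0) = y - y0 := by
        have : (y + y) - (y0 + y0) = 0 := by rw [hy1, hy0, sub_self]
        linear_combination (-1 : ZMod (N + 1)) * this
      rw [ZMod.neg_eq_self_iff] at h2
      rw [Finset.mem_insert, Finset.mem_singleton]
      rcases h2 with h2 | h2
      · left; exact sub_eq_zero.mp h2
      · right
        have h3 : (y - y0).val = (N + 1) / 2 := by omega
        have h4 : y - y0 = (((N + 1) / 2 : ℕ) : ZMod (N + 1)) := by
          rw [← h3, ZMod.natCast_val, ZMod.cast_id]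
        rw [← h4]; ring
    exact (Finset.card_le_card h1).trans Finset.card_le_two


/-- Two sided version. -/
theorem LC2 (T T' : Sys) : ∃ C : ℝ, 0 ≤ C ∧ ∀ (N : ℕ) (D : Finset (ZMod (N + 1))), D.card ≤ 3 →
    ∀ X : Finset ((T.A → ZMod (N + 1)) × (T'.A → ZMod (N + 1))),
      (∀ p ∈ X, ((∀ a', ∃ v, ds (p.2 a') = ds (T.val p.1 v)) ∧
        ∃ (B : Finset T.A) (b : Bool), B ≠ univ ∧
          (∑ a, p.1 a) + sg b (∑ a ∈ B, p.1 a) ∈ D) ∧
        ((∀ a', ∃ v, ds (p.1 a') = ds (T'.val p.2 v)) ∧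
        ∃ (B : Finset T'.A) (b : Bool), B ≠ univ ∧
          (∑ a, p.2 a) + sg b (∑ a ∈ B, p.2 a) ∈ D)) →
      (X.card : ℝ) * ((N : ℝ) + 1) ≤
        C * Real.sqrt ((N : ℝ) + 1) ^ (Fintype.card T.A + Fintype.card T'.A) := by
  obtain ⟨C, hC, h⟩ := LC T T'
  obtain ⟨C', hC', h'⟩ := LC T' T
  refine ⟨Real.sqrt C * Real.sqrt C', by positivity, fun N D hD X hX => ?_⟩
  have hN1 : (0 : ℝ) < (N : ℝ) + 1 := by positivity
  have h1 := h N D hD X fun p hp => (hX p hp).1
  have h2 := h' N D hD (X.map ⟨Prod.swap, Prod.swap_injective⟩) (by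
    intro p hp
    rw [Finset.mem_map] at hp
    obtain ⟨q, hq, rfl⟩ := hp
    exact (hX q hq).2)
  rw [Finset.card_map] at h2
  set s : ℝ := Real.sqrt ((N : ℝ) + 1) with hs
  have hs2 : s ^ 2 = (N : ℝ) + 1 := Real.sq_sqrt (by positivity)
  have hsq : ((X.card : ℝ) * ((N : ℝ) + 1)) ^ 2 ≤ (Real.sqrt C * Real.sqrt C' *
      s ^ (Fintype.card T.A + Fintype.card T'.A)) ^ 2 := by
    rw [mul_pow (Real.sqrt C * Real.sqrt C'), mul_pow (Real.sqrt C), Real.sq_sqrt hC,
      Real.sq_sqrt hC', ← pow_mul, mul_comm _ 2, pow_mul, hs2, pow_add, sq]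
    calc (X.card : ℝ) * ((N : ℝ) + 1) * ((X.card : ℝ) * ((N : ℝ) + 1))
        ≤ (C * ((N : ℝ) + 1) ^ Fintype.card T.A) * (C' * ((N : ℝ) + 1) ^ Fintype.card T'.A) :=
          mul_le_mul h1 h2 (by positivity) (by positivity)
      _ = C * C' * (((N : ℝ) + 1) ^ Fintype.card T.A * ((N : ℝ) + 1) ^ Fintype.card T'.A) := by
          ring
  exact (pow_le_pow_iff_left₀ (by positivity) (by positivity) (by norm_num)).mp hsq

/-! ### Formal sums of trees -/

/-- Classes of a labelling. -/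
def clk (T : Sys) {N : ℕ} (k : T.A → ZMod (N + 1)) : Finset ℕ := univ.image fun v => ds (T.val k v)

/-- All classes of the labelling are nonzero and distinct. -/
def Int (T : Sys) {N : ℕ} (k : T.A → ZMod (N + 1)) : Prop :=
  (∀ v, T.val k v ≠ 0) ∧ Function.Injective fun v => ds (T.val k v)

/-- A formal sum of shapes. -/
structure FS : Type 1 where
  R : Type
  [fR : Fintype R]
  [dR : DecidableEq R]
  w : R → ℝ
  T : R → Sys

attribute [instance] FS.fR FS.dR

/-- Labelled trees. -/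
abbrev Lam (F : FS) (N : ℕ) : Type := Σ r : F.R, (F.T r).A → ZMod (N + 1)

/-- Classes of a labelled tree. -/
def cls {F : FS} {N : ℕ} (x : Lam F N) : Finset ℕ := clk (F.T x.1) x.2

/-- Root value. -/
def rt {F : FS} {N : ℕ} (x : Lam F N) : ZMod (N + 1) := ∑ a, x.2 a

open Classical in
/-- Weight of a labelled tree. -/
noncomputable def wt {F : FS} {N : ℕ} (x : Lam F N) : ℝ :=
  if Int (F.T x.1) x.2 then F.w x.1 / Real.sqrt ((N : ℝ) + 1) ^ (Fintype.card (F.T x.1).A) else 0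

theorem abs_wt_le {F : FS} {N : ℕ} (x : Lam F N) :
    |wt x| ≤ |F.w x.1| / Real.sqrt ((N : ℝ) + 1) ^ (Fintype.card (F.T x.1).A) := by
  unfold wt
  split_ifs with h
  · rw [abs_div, abs_of_pos (a := Real.sqrt ((N : ℝ) + 1) ^ _)]
    have : (0 : ℝ) < (N : ℝ) + 1 := by positivity
    have := Real.sqrt_pos.mpr this
    positivity
  · simp only [abs_zero]; positivity

theorem Int_of_wt {F : FS} {N : ℕ} {x : Lam F N} (h : wt x ≠ 0) : Int (F.T x.1) x.2 := by
  by_contra h1
  apply h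
  unfold wt
  rw [if_neg h1]

theorem cls_nonempty {F : FS} {N : ℕ} (x : Lam F N) : (cls x).Nonempty :=
  ⟨_, Finset.mem_image.mpr ⟨(F.T x.1).root, Finset.mem_univ _, rfl⟩⟩

theorem mem_cls {F : FS} {N : ℕ} {x : Lam F N} {d : ℕ} :
    d ∈ cls x ↔ ∃ v, ds ((F.T x.1).val x.2 v) = d := by
  unfold cls clk; simp

theorem rt_eq {F : FS} {N : ℕ} (x : Lam F N) : rt x = (F.T x.1).val x.2 (F.T x.1).root := by
  rw [Sys.val_root]; rfl

theorem rt_ne {F : FS} {N : ℕ} {x : Lam F N} (h : wt x ≠ 0) : rt x ≠ 0 := by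
  rw [rt_eq]; exact (Int_of_wt h).1 _

theorem ds_rt_mem {F : FS} {N : ℕ} (x : Lam F N) : ds (rt x) ∈ cls x := by
  rw [mem_cls]; exact ⟨_, by rw [← rt_eq]⟩

/-- Distribution of products over sigma types. -/
def piSig {ι R : Type} (B : R → Type) : (ι → Σ r, B r) ≃ Σ ρ : ι → R, ∀ i, B (ρ i) where
  toFun x := ⟨fun i => (x i).1, fun i => (x i).2⟩
  invFun y := fun i => ⟨y.1 i, y.2 i⟩
  left_inv _ := rfl
  right_inv _ := rfl

end Pool.Agent.H90.TF
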