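import Mathlib
import Pool.Agent.H90.TFLin

set_option autoImplicit false

namespace Pool.Agent.H90.TF

open Finset Pool.Agent.H90.Round

/-- No class belongs to exactly one member. -/
def NS {ι : Type} (c : ι → Finset ℕ) : Prop := ∀ i, ∀ d ∈ c i, ∃ i', i' ≠ i ∧ d ∈ c i'

/-- Some member meets two other members. -/
def Mid {ι : Type} (c : ι → Finset ℕ) : Prop :=
  ∃ i i' i'', i' ≠ i ∧ i'' ≠ i ∧ i' ≠ i'' ∧ ¬ Disjoint (c i) (c i') ∧ ¬ Disjoint (c i) (c i'')

/-- Members of `M` meet a smaller and a larger member. -/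
def PM {ι : Type} (e : ι → ℕ) (M : Finset ι) (c : ι → Finset ℕ) : Prop :=
  NS c ∧ ∀ l ∈ M, (∃ i', e i' < e l ∧ ¬ Disjoint (c l) (c i')) ∧
    (∃ i', e l < e i' ∧ ¬ Disjoint (c l) (c i'))

theorem rev_lt' {ι : Type} [Fintype ι] (e : ι → ℕ) {l l' : ι} (h : e l' < e l) :
    rev e l < rev e l' := by
  classical
  exact (rev_lt e l l').mpr h

open Classical in
theorem Hgen (F : FS) (K : ℕ) (e : Fin K → ℕ) (he : Function.Injective e) (M : Finset (Fin K)) :
    ∃ C : ℝ, 0 ≤ C ∧ ∀ N : ℕ,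
      (∑ x : Fin K → Lam F N, (∏ i, |wt (x i)|) * (if PM e M (fun i => cls (x i)) then 1 else 0)) *
        Real.sqrt ((N : ℝ) + 1) ^ M.card ≤ C := by
  choose C hC hEL using fun ρ : Fin K → F.R => EL (fun i => F.T (ρ i)) e M
  refine ⟨∑ ρ : Fin K → F.R, (∏ i, |F.w (ρ i)|) * C ρ,
    Finset.sum_nonneg fun ρ _ => mul_nonneg (Finset.prod_nonneg fun _ _ => abs_nonneg _) (hC ρ),
    fun N => ?_⟩
  set s : ℝ := Real.sqrt ((N : ℝ) + 1) with hs
  have hs0 : 0 < s := Real.sqrt_pos.mpr (by positivity)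
  have e1 : (∑ x : Fin K → Lam F N, (∏ i, |wt (x i)|) *
      (if PM e M (fun i => cls (x i)) then (1 : ℝ) else 0)) =
      ∑ ρ : Fin K → F.R, ∑ k : (∀ i, (F.T (ρ i)).A → ZMod (N + 1)),
        (∏ i, |wt (F := F) (N := N) ⟨ρ i, k i⟩|) *
          (if PM e M (fun i => cls (F := F) (N := N) ⟨ρ i, k i⟩) then 1 else 0) := by
    rw [← (piSig (ι := Fin K) (fun r : F.R => (F.T r).A → ZMod (N + 1))).symm.sum_comp,
      Fintype.sum_sigma]
    rfl
  rw [e1, Finset.sum_mul]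
  refine Finset.sum_le_sum fun ρ _ => ?_
  set X : Finset (Lb (fun i => F.T (ρ i)) N) :=
    univ.filter fun k => PM e M (fun i => cls (F := F) (N := N) ⟨ρ i, k i⟩) with hX
  have h1 := hEL ρ N X (by
    intro k hk
    obtain ⟨_, hNS, hM⟩ := Finset.mem_filter.mp hk
    constructor
    · rintro ⟨l, v⟩
      obtain ⟨i', hi', hd⟩ := hNS l (ds ((F.T (ρ l)).val (k l) v)) (mem_cls.mpr ⟨v, rfl⟩)
      obtain ⟨v', hv'⟩ := mem_cls.mp hd
      have h2 : e i' ≠ e l := fun h => hi' (he h)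
      rcases lt_or_gt_of_ne h2 with h3 | h3
      · left; exact ⟨⟨i', v'⟩, h3, hv'.symm⟩
      · right; exact ⟨⟨i', v'⟩, rev_lt' e h3, hv'.symm⟩
    · intro l hl
      obtain ⟨⟨i', hi', hd⟩, ⟨i'', hi'', hd'⟩⟩ := hM l hl
      rw [Finset.not_disjoint_iff] at hd hd'
      obtain ⟨d, hd1, hd2⟩ := hd
      obtain ⟨d', hd1', hd2'⟩ := hd'
      obtain ⟨v, hv⟩ := mem_cls.mp hd1
      obtain ⟨u, hu⟩ := mem_cls.mp hd2
      obtain ⟨v', hv'⟩ := mem_cls.mp hd1'
      obtain ⟨u', hu'⟩ := mem_cls.mp hd2'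
      exact ⟨⟨v, ⟨i', u⟩, hi', hv.trans hu.symm⟩, ⟨v', ⟨i'', u'⟩, rev_lt' e hi'',
        hv'.trans hu'.symm⟩⟩)
  set W : ℝ := ∏ i, |F.w (ρ i)| with hW
  have hW0 : 0 ≤ W := Finset.prod_nonneg fun _ _ => abs_nonneg _
  set L : ℕ := ∑ l, Fintype.card (F.T (ρ l)).A with hL
  have h2 : ∀ k : (∀ i, (F.T (ρ i)).A → ZMod (N + 1)),
      (∏ i, |wt (F := F) (N := N) ⟨ρ i, k i⟩|) ≤ W / s ^ L := by
    intro k
    rw [hW, hL, ← Finset.prod_pow_eq_pow_sum, ← Finset.prod_div_distrib]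
    exact Finset.prod_le_prod (fun _ _ => abs_nonneg _) fun i _ => abs_wt_le _
  have h3 : (∑ k : (∀ i, (F.T (ρ i)).A → ZMod (N + 1)),
        (∏ i, |wt (F := F) (N := N) ⟨ρ i, k i⟩|) *
          (if PM e M (fun i => cls (F := F) (N := N) ⟨ρ i, k i⟩) then (1 : ℝ) else 0)) ≤
      (W / s ^ L) * X.card := by
    have h4 : (W / s ^ L) * X.card = ∑ k : (∀ i, (F.T (ρ i)).A → ZMod (N + 1)),
        (W / s ^ L) * (if PM e M (fun i => cls (F := F) (N := N) ⟨ρ i, k i⟩) then (1 : ℝ) else 0)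
        := by
      rw [← Finset.mul_sum, Finset.sum_boole]
    rw [h4]
    refine Finset.sum_le_sum fun k _ => mul_le_mul_of_nonneg_right (h2 k) ?_
    split_ifs <;> norm_num
  calc _ ≤ (W / s ^ L) * X.card * s ^ M.card := mul_le_mul_of_nonneg_right h3 (by positivity)
    _ = (W / s ^ L) * (X.card * s ^ M.card) := by ring
    _ ≤ (W / s ^ L) * (C ρ * s ^ L) := mul_le_mul_of_nonneg_left h1 (by positivity)
    _ = W * C ρ := by field_simp

open Classical in
theorem H1 (F : FS) (K : ℕ) : ∃ C : ℝ, 0 ≤ C ∧ ∀ N : ℕ,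
    (∑ x : Fin K → Lam F N, (∏ i, |wt (x i)|) * (if NS (fun i => cls (x i)) then 1 else 0)) ≤ C
    := by
  obtain ⟨C, hC, h⟩ := Hgen F K (fun i => i.val) Fin.val_injective ∅
  refine ⟨C, hC, fun N => ?_⟩
  have h1 := h N
  rw [Finset.card_empty, pow_zero, mul_one] at h1
  refine le_trans (le_of_eq ?_) h1
  refine Finset.sum_congr rfl fun x _ => ?_
  congr 2
  unfold PM
  simp

open Classical in
theorem H2 (F : FS) (K : ℕ) : ∃ C : ℝ, 0 ≤ C ∧ ∀ N : ℕ,
    (∑ x : Fin K → Lam F N, (∏ i, |wt (x i)|) *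
      (if NS (fun i => cls (x i)) ∧ Mid (fun i => cls (x i)) then 1 else 0)) *
        Real.sqrt ((N : ℝ) + 1) ≤ C := by
  set e : Fin K × Fin K → Fin K → ℕ := fun t i =>
    if i = t.1 then 0 else if i = t.2 then 1 else i.val + 2 with he
  have hinj : ∀ t, Function.Injective (e t) := by
    intro t i j hij
    simp only [he] at hij
    split_ifs at hij with h1 h2 h3 h4 h5 h6 h7 h8
    all_goals exact Fin.ext (by omega)
  choose C hC hH using fun t : Fin K × Fin K => Hgen F K (e t) (hinj t) {t.2}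
  refine ⟨∑ t, C t, Finset.sum_nonneg fun t _ => hC t, fun N => ?_⟩
  set s : ℝ := Real.sqrt ((N : ℝ) + 1) with hs
  have hs0 : 0 < s := Real.sqrt_pos.mpr (by positivity)
  have h1 : ∀ x : Fin K → Lam F N,
      (∏ i, |wt (x i)|) * (if NS (fun i => cls (x i)) ∧ Mid (fun i => cls (x i)) then (1 : ℝ)
        else 0) ≤
      ∑ t : Fin K × Fin K, (∏ i, |wt (x i)|) *
        (if PM (e t) {t.2} (fun i => cls (x i)) then 1 else 0) := by
    intro x
    rw [← Finset.mul_sum]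
    refine mul_le_mul_of_nonneg_left ?_ (Finset.prod_nonneg fun _ _ => abs_nonneg _)
    have hnn : ∀ t : Fin K × Fin K, (0 : ℝ) ≤
        (if PM (e t) {t.2} (fun i => cls (x i)) then 1 else 0) := by
      intro t; split_ifs <;> norm_num
    split_ifs with h
    · obtain ⟨hNS, i, i', i'', hi', hi'', hii, hd, hd'⟩ := h
      have h2 : PM (e (i', i)) {i} (fun i => cls (x i)) := by
        refine ⟨hNS, fun l hl => ?_⟩
        rw [Finset.mem_singleton] at hl
        subst hl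
        refine ⟨⟨i', ?_, hd⟩, ⟨i'', ?_, hd'⟩⟩
        · simp [he, Ne.symm hi']
        · simp [he, Ne.symm hi', hi'', Ne.symm hii]
      refine le_trans ?_ (Finset.single_le_sum (fun t _ => hnn t) (Finset.mem_univ (i', i)))
      rw [if_pos h2]
    · exact Finset.sum_nonneg fun t _ => hnn t
  calc _ ≤ (∑ x : Fin K → Lam F N, ∑ t : Fin K × Fin K, (∏ i, |wt (x i)|) *
        (if PM (e t) {t.2} (fun i => cls (x i)) then 1 else 0)) * s :=
        mul_le_mul_of_nonneg_right (Finset.sum_le_sum fun x _ => h1 x) hs0.le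
    _ = ∑ t : Fin K × Fin K, (∑ x : Fin K → Lam F N, (∏ i, |wt (x i)|) *
        (if PM (e t) {t.2} (fun i => cls (x i)) then 1 else 0)) * s := by
        rw [Finset.sum_comm, Finset.sum_mul]
    _ ≤ ∑ t, C t := by
        refine Finset.sum_le_sum fun t _ => ?_
        have := hH t N
        rw [Finset.card_singleton, pow_one] at this
        exact this

open Classical in
/-- Pairs with equal classes and prescribed nonzero sum of the roots. -/
theorem H3 (F : FS) : ∃ C : ℝ, 0 ≤ C ∧ ∀ (N : ℕ) (c : ZMod (N + 1)), c ≠ 0 →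
    (∑ x : Lam F N, ∑ y : Lam F N, |wt x| * |wt y| *
      (if cls x = cls y ∧ rt x + rt y = c then 1 else 0)) * ((N : ℝ) + 1) ≤ C := by
  choose C hC hLC using fun t : F.R × F.R => LC2 (F.T t.1) (F.T t.2)
  refine ⟨∑ t : F.R × F.R, |F.w t.1| * |F.w t.2| * C t,
    Finset.sum_nonneg fun t _ => mul_nonneg (by positivity) (hC t), fun N c hc => ?_⟩
  set s : ℝ := Real.sqrt ((N : ℝ) + 1) with hs
  have hs0 : 0 < s := Real.sqrt_pos.mpr (by positivity)
  have e1 : (∑ x : Lam F N, ∑ y : Lam F N, |wt x| * |wt y| *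
      (if cls x = cls y ∧ rt x + rt y = c then (1 : ℝ) else 0)) =
      ∑ t : F.R × F.R, ∑ p : ((F.T t.1).A → ZMod (N + 1)) × ((F.T t.2).A → ZMod (N + 1)),
        |wt (F := F) (N := N) ⟨t.1, p.1⟩| * |wt (F := F) (N := N) ⟨t.2, p.2⟩| *
        (if cls (F := F) (N := N) ⟨t.1, p.1⟩ = cls (F := F) (N := N) ⟨t.2, p.2⟩ ∧
          rt (F := F) (N := N) ⟨t.1, p.1⟩ + rt (F := F) (N := N) ⟨t.2, p.2⟩ = c
          then 1 else 0) := by
    rw [Fintype.sum_sigma, Fintype.sum_prod_type]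
    refine Finset.sum_congr rfl fun r _ => ?_
    simp only [Fintype.sum_sigma, Fintype.sum_prod_type]
    rw [Finset.sum_comm]
  rw [e1, Finset.sum_mul]
  refine Finset.sum_le_sum fun t _ => ?_
  set X : Finset (((F.T t.1).A → ZMod (N + 1)) × ((F.T t.2).A → ZMod (N + 1))) :=
    univ.filter fun p => cls (F := F) (N := N) ⟨t.1, p.1⟩ = cls (F := F) (N := N) ⟨t.2, p.2⟩ ∧
          rt (F := F) (N := N) ⟨t.1, p.1⟩ + rt (F := F) (N := N) ⟨t.2, p.2⟩ = c with hX
  set D : Finset (ZMod (N + 1)) := insert c (univ.filter fun y => y + y = c) with hD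
  have hDc : D.card ≤ 3 := (Finset.card_insert_le _ _).trans
    (Nat.succ_le_succ (card_two_mul c))
  -- one side
  have key : ∀ (r r' : F.R) (k : (F.T r).A → ZMod (N + 1)) (k' : (F.T r').A → ZMod (N + 1)),
      cls (F := F) (N := N) ⟨r, k⟩ = cls (F := F) (N := N) ⟨r', k'⟩ →
      (∑ a, k a) + (∑ a, k' a) = c →
      (∀ a', ∃ v, ds (k' a') = ds ((F.T r).val k v)) ∧
        ∃ (B : Finset (F.T r).A) (b : Bool), B ≠ univ ∧
          (∑ a, k a) + sg b (∑ a ∈ B, k a) ∈ D := by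
    intro r r' k k' h1 h2
    constructor
    · intro a'
      have h3 : ds (k' a') ∈ cls (F := F) (N := N) ⟨r', k'⟩ :=
        mem_cls.mpr ⟨(F.T r').leaf a', by rw [Sys.val_leaf]⟩
      rw [← h1] at h3
      obtain ⟨v, hv⟩ := mem_cls.mp h3
      exact ⟨v, hv.symm⟩
    · have h3 : ds (∑ a, k' a) ∈ cls (F := F) (N := N) ⟨r', k'⟩ :=
        ds_rt_mem (F := F) (N := N) ⟨r', k'⟩
      rw [← h1] at h3
      obtain ⟨v, hv⟩ := mem_cls.mp h3
      obtain ⟨b, hb⟩ := ds_eq hv.symm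
      by_cases hu : (F.T r).supp v = univ
      · have h4 : (F.T r).val k v = ∑ a, k a := by unfold Sys.val; rw [hu]
        have hne : (∅ : Finset (F.T r).A) ≠ univ := by
          intro h
          obtain ⟨a, _⟩ := (F.T r).supp_ne (F.T r).root
          have := Finset.mem_univ a
          rw [← h] at this
          simp at this
        refine ⟨∅, true, hne, ?_⟩
        rw [Finset.sum_empty]
        change (∑ a, k a) + 0 ∈ D
        rw [add_zero, hD, Finset.mem_insert]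
        right
        rw [Finset.mem_filter]
        refine ⟨Finset.mem_univ _, ?_⟩
        change (∑ a, k' a) = _ at hb
        rw [h4] at hb
        unfold sg at hb
        split_ifs at hb with hb2
        · rw [← h2, hb]
        · exfalso
          apply hc
          rw [← h2, hb]; ring
      · refine ⟨(F.T r).supp v, b, hu, ?_⟩
        rw [hD, Finset.mem_insert]
        left
        change (∑ a, k' a) = _ at hb
        rw [← h2, hb]
        rfl
  have h1 := hLC t N D hDc X (by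
    rintro ⟨k, k'⟩ hp
    obtain ⟨_, h1, h2⟩ := Finset.mem_filter.mp hp
    exact ⟨key t.1 t.2 k k' h1 h2, key t.2 t.1 k' k h1.symm ((add_comm _ _).trans h2)⟩)
  set W : ℝ := |F.w t.1| * |F.w t.2| with hW
  have hW0 : 0 ≤ W := by positivity
  set L : ℕ := Fintype.card (F.T t.1).A + Fintype.card (F.T t.2).A with hL
  have h2 : ∀ p : ((F.T t.1).A → ZMod (N + 1)) × ((F.T t.2).A → ZMod (N + 1)),
      |wt (F := F) (N := N) ⟨t.1, p.1⟩| * |wt (F := F) (N := N) ⟨t.2, p.2⟩| ≤ W / s ^ L := by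
    intro p
    rw [hW, hL, pow_add, mul_div_mul_comm]
    exact mul_le_mul (abs_wt_le _) (abs_wt_le _) (abs_nonneg _) (by positivity)
  have h3 : (∑ p : ((F.T t.1).A → ZMod (N + 1)) × ((F.T t.2).A → ZMod (N + 1)),
        |wt (F := F) (N := N) ⟨t.1, p.1⟩| * |wt (F := F) (N := N) ⟨t.2, p.2⟩| *
        (if cls (F := F) (N := N) ⟨t.1, p.1⟩ = cls (F := F) (N := N) ⟨t.2, p.2⟩ ∧
          rt (F := F) (N := N) ⟨t.1, p.1⟩ + rt (F := F) (N := N) ⟨t.2, p.2⟩ = c
          then (1 : ℝ) else 0)) ≤ (W / s ^ L) * X.card := by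
    have h4 : (W / s ^ L) * X.card =
        ∑ p : ((F.T t.1).A → ZMod (N + 1)) × ((F.T t.2).A → ZMod (N + 1)), (W / s ^ L) *
        (if cls (F := F) (N := N) ⟨t.1, p.1⟩ = cls (F := F) (N := N) ⟨t.2, p.2⟩ ∧
          rt (F := F) (N := N) ⟨t.1, p.1⟩ + rt (F := F) (N := N) ⟨t.2, p.2⟩ = c
          then (1 : ℝ) else 0) := by
      rw [← Finset.mul_sum, Finset.sum_boole]
    rw [h4]
    refine Finset.sum_le_sum fun k _ => mul_le_mul_of_nonneg_right (h2 k) ?_
    split_ifs <;> norm_num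
  calc _ ≤ (W / s ^ L) * X.card * ((N : ℝ) + 1) := mul_le_mul_of_nonneg_right h3 (by positivity)
    _ = (W / s ^ L) * (X.card * ((N : ℝ) + 1)) := by ring
    _ ≤ (W / s ^ L) * (C t * s ^ L) := mul_le_mul_of_nonneg_left h1 (by positivity)
    _ = W * C t := by field_simp

/-! ### Rooted forests -/

/-- Join trees at a new root. -/
@[reducible] def rootSys {q : ℕ} (T : Fin (q + 2) → Sys) : Sys where
  A := Σ i, (T i).A
  V := Option (Σ i, (T i).V)
  supp := fun v => match v with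
    | none => univ
    | some u => ((T u.1).supp u.2).map (Function.Embedding.sigmaMk u.1)
  leaf := fun a => some ⟨a.1, (T a.1).leaf a.2⟩
  root := none
  supp_leaf := by
    rintro ⟨i, a⟩
    simp [(T i).supp_leaf]
  supp_root := rfl
  supp_ne := by
    rintro (_ | ⟨i, v⟩)
    · obtain ⟨a, _⟩ := (T 0).supp_ne (T 0).root
      exact ⟨⟨0, a⟩, Finset.mem_univ _⟩
    · simpa using (T i).supp_ne v

theorem val_some {q : ℕ} (T : Fin (q + 2) → Sys) {M : Type} [AddCommMonoid M]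
    (k : (rootSys T).A → M) (i : Fin (q + 2)) (v : (T i).V) :
    (rootSys T).val k (some ⟨i, v⟩) = (T i).val (fun a => k ⟨i, a⟩) v := by
  unfold Sys.val rootSys
  simp

theorem val_none {q : ℕ} (T : Fin (q + 2) → Sys) {M : Type} [AddCommMonoid M]
    (k : (rootSys T).A → M) :
    (rootSys T).val k none = ∑ i, ∑ a, k ⟨i, a⟩ := by
  unfold Sys.val rootSys
  exact Fintype.sum_sigma _

/-- Tuples of labelled trees as labelled forests. -/
def forEq (F : FS) (N : ℕ) (q : ℕ) : (Fin q → Lam F N) ≃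
    Σ f : Fin q → F.R, (Σ i, (F.T (f i)).A) → ZMod (N + 1) where
  toFun x := ⟨fun i => (x i).1, fun p => (x p.1).2 p.2⟩
  invFun y := fun i => ⟨y.1 i, fun a => y.2 ⟨i, a⟩⟩
  left_inv _ := rfl
  right_inv _ := rfl

/-- Classes of a forest. -/
def fcls {F : FS} {N q : ℕ} (x : Fin q → Lam F N) : Finset ℕ := univ.biUnion fun i => cls (x i)

/-- Sum of the roots of a forest. -/
def frt {F : FS} {N q : ℕ} (x : Fin q → Lam F N) : ZMod (N + 1) := ∑ i, rt (x i)

theorem mem_fcls {F : FS} {N q : ℕ} {x : Fin q → Lam F N} {d : ℕ} :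
    d ∈ fcls x ↔ ∃ i, ∃ v, ds ((F.T (x i).1).val (x i).2 v) = d := by
  unfold fcls
  rw [Finset.mem_biUnion]
  constructor
  · rintro ⟨i, _, h⟩; exact ⟨i, mem_cls.mp h⟩
  · rintro ⟨i, h⟩; exact ⟨i, Finset.mem_univ _, mem_cls.mpr h⟩

theorem prod_abs_wt_le {F : FS} {N q : ℕ} (x : Fin q → Lam F N) :
    (∏ i, |wt (x i)|) ≤ (∏ i, |F.w (x i).1|) /
      Real.sqrt ((N : ℝ) + 1) ^ (∑ i, Fintype.card (F.T (x i).1).A) := by
  rw [← Finset.prod_pow_eq_pow_sum, ← Finset.prod_div_distrib]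
  exact Finset.prod_le_prod (fun _ _ => abs_nonneg _) fun i _ => abs_wt_le _

open Classical in
/-- Root coincidences are rare. -/
theorem RCb (F : FS) (q : ℕ) : ∃ C : ℝ, 0 ≤ C ∧ ∀ N : ℕ,
    (∑ x : Fin (q + 2) → Lam F N, ∑ y : Fin (q + 2) → Lam F N,
      (∏ i, |wt (x i)|) * (∏ i, |wt (y i)|) *
      (if fcls x = fcls y ∧ frt x + frt y = 0 ∧ (frt x = 0 ∨ ds (frt x) ∈ fcls x)
        then 1 else 0)) * ((N : ℝ) + 1) ≤ C := by
  choose C hC hLC using fun t : (Fin (q + 2) → F.R) × (Fin (q + 2) → F.R) =>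
    LC2 (rootSys fun i => F.T (t.1 i)) (rootSys fun i => F.T (t.2 i))
  refine ⟨∑ t : (Fin (q + 2) → F.R) × (Fin (q + 2) → F.R),
    (∏ i, |F.w (t.1 i)|) * (∏ i, |F.w (t.2 i)|) * C t,
    Finset.sum_nonneg fun t _ => mul_nonneg (mul_nonneg (Finset.prod_nonneg fun _ _ =>
      abs_nonneg _) (Finset.prod_nonneg fun _ _ => abs_nonneg _)) (hC t), fun N => ?_⟩
  set s : ℝ := Real.sqrt ((N : ℝ) + 1) with hs
  have hs0 : 0 < s := Real.sqrt_pos.mpr (by positivity)
  set fo : (f : Fin (q + 2) → F.R) → ((Σ i, (F.T (f i)).A) → ZMod (N + 1)) →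
      (Fin (q + 2) → Lam F N) := fun f k i => ⟨f i, fun a => k ⟨i, a⟩⟩ with hfo
  set P : (Fin (q + 2) → Lam F N) → (Fin (q + 2) → Lam F N) → Prop := fun x y =>
    fcls x = fcls y ∧ frt x + frt y = 0 ∧ (frt x = 0 ∨ ds (frt x) ∈ fcls x) with hP
  have e1 : (∑ x : Fin (q + 2) → Lam F N, ∑ y : Fin (q + 2) → Lam F N,
      (∏ i, |wt (x i)|) * (∏ i, |wt (y i)|) * (if P x y then (1 : ℝ) else 0)) =
      ∑ t : (Fin (q + 2) → F.R) × (Fin (q + 2) → F.R),
        ∑ p : ((Σ i, (F.T (t.1 i)).A) → ZMod (N + 1)) × ((Σ i, (F.T (t.2 i)).A) → ZMod (N + 1)),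
        (∏ i, |wt (fo t.1 p.1 i)|) * (∏ i, |wt (fo t.2 p.2 i)|) *
          (if P (fo t.1 p.1) (fo t.2 p.2) then 1 else 0) := by
    rw [← (forEq F N (q + 2)).symm.sum_comp, Fintype.sum_sigma, Fintype.sum_prod_type]
    refine Finset.sum_congr rfl fun r _ => ?_
    have e2 : ∀ k : (Σ i, (F.T (r i)).A) → ZMod (N + 1),
        (∑ y : Fin (q + 2) → Lam F N,
          (∏ i, |wt ((forEq F N (q + 2)).symm ⟨r, k⟩ i)|) * (∏ i, |wt (y i)|) *
          (if P ((forEq F N (q + 2)).symm ⟨r, k⟩) y then (1 : ℝ) else 0)) =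
        ∑ r' : Fin (q + 2) → F.R, ∑ k' : (Σ i, (F.T (r' i)).A) → ZMod (N + 1),
          (∏ i, |wt (fo r k i)|) * (∏ i, |wt (fo r' k' i)|) *
          (if P (fo r k) (fo r' k') then 1 else 0) := by
      intro k
      rw [← (forEq F N (q + 2)).symm.sum_comp, Fintype.sum_sigma]
      rfl
    simp only [e2, Fintype.sum_prod_type]
    rw [Finset.sum_comm]
  rw [e1, Finset.sum_mul]
  refine Finset.sum_le_sum fun t _ => ?_
  set X : Finset (((Σ i, (F.T (t.1 i)).A) → ZMod (N + 1)) ×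
      ((Σ i, (F.T (t.2 i)).A) → ZMod (N + 1))) :=
    univ.filter fun p => P (fo t.1 p.1) (fo t.2 p.2) with hX
  have hfrt : ∀ (f : Fin (q + 2) → F.R) (k : (Σ i, (F.T (f i)).A) → ZMod (N + 1)),
      frt (fo f k) = ∑ a, k a := by
    intro f k
    unfold frt rt
    rw [Fintype.sum_sigma]
  -- one side
  have key : ∀ (f g : Fin (q + 2) → F.R) (k : (Σ i, (F.T (f i)).A) → ZMod (N + 1))
      (k' : (Σ i, (F.T (g i)).A) → ZMod (N + 1)),
      fcls (fo f k) = fcls (fo g k') → (frt (fo f k) = 0 ∨ ds (frt (fo f k)) ∈ fcls (fo f k)) →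
      (∀ a', ∃ v, ds (k' a') = ds ((rootSys fun i => F.T (f i)).val k v)) ∧
        ∃ (B : Finset (rootSys fun i => F.T (f i)).A) (b : Bool), B ≠ univ ∧
          (∑ a, k a) + sg b (∑ a ∈ B, k a) ∈ ({0} : Finset (ZMod (N + 1))) := by
    intro f g k k' h1 h2
    constructor
    · rintro ⟨i, a⟩
      have h3 : ds (k' ⟨i, a⟩) ∈ fcls (fo g k') :=
        mem_fcls.mpr ⟨i, (F.T (g i)).leaf a, by rw [Sys.val_leaf]⟩
      rw [← h1] at h3
      obtain ⟨j, v, hv⟩ := mem_fcls.mp h3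
      refine ⟨some ⟨j, v⟩, ?_⟩
      rw [val_some, ← hv]
    · rcases h2 with h2 | h2
      · have hne : (∅ : Finset (rootSys fun i => F.T (f i)).A) ≠ univ := by
          intro h
          obtain ⟨a, _⟩ := (rootSys fun i => F.T (f i)).supp_ne (rootSys fun i => F.T (f i)).root
          have := Finset.mem_univ a
          rw [← h] at this
          simp at this
        refine ⟨∅, true, hne, ?_⟩
        rw [hfrt] at h2
        rw [Finset.sum_empty, Finset.mem_singleton]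
        change (∑ a, k a) + 0 = 0
        rw [add_zero]; exact h2
      · obtain ⟨j, v, hv⟩ := mem_fcls.mp h2
        obtain ⟨b, hb⟩ := ds_eq hv.symm
        refine ⟨(rootSys fun i => F.T (f i)).supp (some ⟨j, v⟩), !b, ?_, ?_⟩
        · intro h
          obtain ⟨j', hj'⟩ : ∃ j' : Fin (q + 2), j' ≠ j := exists_ne j
          obtain ⟨a, _⟩ := (F.T (f j')).supp_ne (F.T (f j')).root
          have h3 := Finset.mem_univ (⟨j', a⟩ : Σ i, (F.T (f i)).A)
          rw [← h] at h3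
          have h4 : (⟨j', a⟩ : Σ i, (F.T (f i)).A) ∈
              ((F.T (f j)).supp v).map (Function.Embedding.sigmaMk j) := h3
          rw [Finset.mem_map] at h4
          obtain ⟨a', _, ha'⟩ := h4
          exact hj' (congrArg Sigma.fst ha').symm
        · rw [hfrt] at hb
          rw [Finset.mem_singleton, hb]
          have h5 : (∑ a ∈ (rootSys fun i => F.T (f i)).supp (some ⟨j, v⟩), k a) =
              (F.T (f j)).val (fun a => k ⟨j, a⟩) v := by
            rw [← val_some (fun i => F.T (f i)) k j v]; rfl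
          rw [h5]
          cases b
          · change -_ + _ = 0
            exact neg_add_cancel _
          · change _ + -_ = 0
            exact add_neg_cancel _
  have h1 := hLC t N {0} (by simp) X (by
    rintro ⟨k, k'⟩ hp
    obtain ⟨_, h1, h2, h3⟩ := Finset.mem_filter.mp hp
    refine ⟨key t.1 t.2 k k' h1 h3, key t.2 t.1 k' k h1.symm ?_⟩
    have h4 : frt (fo t.2 k') = -frt (fo t.1 k) := (neg_eq_of_add_eq_zero_right h2).symm
    rcases h3 with h3 | h3
    · left; rw [h4, h3, neg_zero]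
    · right; rw [h4, ds_neg, ← h1]; exact h3)
  set W : ℝ := (∏ i, |F.w (t.1 i)|) * (∏ i, |F.w (t.2 i)|) with hW
  have hW0 : 0 ≤ W := mul_nonneg (Finset.prod_nonneg fun _ _ =>
      abs_nonneg _) (Finset.prod_nonneg fun _ _ => abs_nonneg _)
  set L : ℕ := Fintype.card (rootSys fun i => F.T (t.1 i)).A +
    Fintype.card (rootSys fun i => F.T (t.2 i)).A with hL
  have hcard : ∀ f : Fin (q + 2) → F.R, Fintype.card (rootSys fun i => F.T (f i)).A =
      ∑ i, Fintype.card (F.T (f i)).A := fun f => Fintype.card_sigma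
  have h2 : ∀ p : ((Σ i, (F.T (t.1 i)).A) → ZMod (N + 1)) ×
      ((Σ i, (F.T (t.2 i)).A) → ZMod (N + 1)),
      (∏ i, |wt (fo t.1 p.1 i)|) * (∏ i, |wt (fo t.2 p.2 i)|) ≤ W / s ^ L := by
    intro p
    rw [hW, hL, pow_add, mul_div_mul_comm, hcard, hcard]
    exact mul_le_mul (prod_abs_wt_le (fo t.1 p.1)) (prod_abs_wt_le (fo t.2 p.2))
      (Finset.prod_nonneg fun _ _ => abs_nonneg _)
      (div_nonneg (Finset.prod_nonneg fun _ _ => abs_nonneg _) (by positivity))
  have h3 : (∑ p : ((Σ i, (F.T (t.1 i)).A) → ZMod (N + 1)) ×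
        ((Σ i, (F.T (t.2 i)).A) → ZMod (N + 1)),
        (∏ i, |wt (fo t.1 p.1 i)|) * (∏ i, |wt (fo t.2 p.2 i)|) *
          (if P (fo t.1 p.1) (fo t.2 p.2) then (1 : ℝ) else 0)) ≤ (W / s ^ L) * X.card := by
    have h4 : (W / s ^ L) * X.card =
        ∑ p : ((Σ i, (F.T (t.1 i)).A) → ZMod (N + 1)) ×
        ((Σ i, (F.T (t.2 i)).A) → ZMod (N + 1)), (W / s ^ L) *
          (if P (fo t.1 p.1) (fo t.2 p.2) then (1 : ℝ) else 0) := by
      rw [← Finset.mul_sum, Finset.sum_boole]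
    rw [h4]
    refine Finset.sum_le_sum fun k _ => mul_le_mul_of_nonneg_right (h2 k) ?_
    split_ifs <;> norm_num
  calc _ ≤ (W / s ^ L) * X.card * ((N : ℝ) + 1) := mul_le_mul_of_nonneg_right h3 (by positivity)
    _ = (W / s ^ L) * (X.card * ((N : ℝ) + 1)) := by ring
    _ ≤ (W / s ^ L) * (C t * s ^ L) := mul_le_mul_of_nonneg_left h1 (by positivity)
    _ = W * C t := by field_simp

end Pool.Agent.H90.TF
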