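import Mathlib
import Pool.Agent.H90.Bern
import Pool.Agent.H90.TFBound

set_option autoImplicit false

namespace Pool.Agent.H90.TF

open Finset Pool.Agent.H90.Round Pool.Agent.H90.Bern

/-- Normalised biased sign of `d`. -/
noncomputable def xi (g : ℝ) (S : Finset ℕ) (d : ℕ) : ℝ := if d ∈ S then g else -(1 / g)

/-- Probability of not being in the random set. -/
noncomputable def pr (g : ℝ) : ℝ := g ^ 2 / (1 + g ^ 2)

/-- Moments of the biased sign. -/
noncomputable def mo (g : ℝ) (k : ℕ) : ℝ := (1 - pr g) * g ^ k + pr g * (-(1 / g)) ^ k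

theorem pr_nonneg (g : ℝ) : 0 ≤ pr g := by unfold pr; positivity

theorem one_sub_pr (g : ℝ) : 1 - pr g = 1 / (1 + g ^ 2) := by
  unfold pr
  have : (0 : ℝ) < 1 + g ^ 2 := by positivity
  field_simp
  ring

theorem pr_le (g : ℝ) : pr g ≤ 1 := by
  have : 0 ≤ 1 - pr g := by rw [one_sub_pr]; positivity
  linarith

theorem mo_zero (g : ℝ) : mo g 0 = 1 := by unfold mo; ring

theorem mo_one {g : ℝ} (hg : 0 < g) : mo g 1 = 0 := by
  unfold mo
  rw [one_sub_pr]
  unfold pr
  have : (0 : ℝ) < 1 + g ^ 2 := by positivity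
  field_simp
  ring

theorem mo_two {g : ℝ} (hg : 0 < g) : mo g 2 = 1 := by
  unfold mo
  rw [one_sub_pr]
  unfold pr
  have : (0 : ℝ) < 1 + g ^ 2 := by positivity
  field_simp
  ring

theorem abs_mo_le {g : ℝ} (hg : 1 ≤ g) (k : ℕ) : |mo g k| ≤ g ^ k := by
  unfold mo
  have h0 := pr_nonneg g
  have h1 := pr_le g
  have hg0 : 0 < g := by linarith
  have e1 : |(1 - pr g) * g ^ k| = (1 - pr g) * g ^ k :=
    abs_of_nonneg (mul_nonneg (by linarith) (by positivity))
  have e2 : |pr g * (-(1 / g)) ^ k| ≤ pr g * g ^ k := by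
    rw [abs_mul, abs_of_nonneg h0, abs_pow, abs_neg, abs_of_pos (by positivity : 0 < 1 / g)]
    refine mul_le_mul_of_nonneg_left (pow_le_pow_left₀ (by positivity) ?_ k) h0
    rw [div_le_iff₀ hg0]
    nlinarith
  calc |(1 - pr g) * g ^ k + pr g * (-(1 / g)) ^ k|
      ≤ |(1 - pr g) * g ^ k| + |pr g * (-(1 / g)) ^ k| := abs_add_le _ _
    _ ≤ (1 - pr g) * g ^ k + pr g * g ^ k := by rw [e1]; linarith
    _ = g ^ k := by ring

theorem Ex_prod (U : Finset ℕ) (r : ℝ) (a b : ℕ → ℝ) :
    Ex U r (fun S => ∏ d ∈ U, (if d ∈ S then a d else b d)) =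
      ∏ d ∈ U, ((1 - r) * a d + r * b d) := by
  induction U using Finset.induction_on with
  | empty => simp [Ex_empty]
  | insert c U hc ih =>
    rw [Ex_insert hc, Finset.prod_insert hc, ← ih]
    have h1 : Ex U r (fun S => ∏ d ∈ insert c U, (if d ∈ S then a d else b d)) =
        Ex U r (fun S => b c * ∏ d ∈ U, (if d ∈ S then a d else b d)) := by
      refine Ex_congr fun S hS => ?_
      have hcS : c ∉ S := fun h => hc (hS h)
      rw [Finset.prod_insert hc, if_neg hcS]
    have h2 : Ex U r (fun S => ∏ d ∈ insert c U, (if d ∈ insert c S then a d else b d)) =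
        Ex U r (fun S => a c * ∏ d ∈ U, (if d ∈ S then a d else b d)) := by
      refine Ex_congr fun S hS => ?_
      rw [Finset.prod_insert hc, if_pos (Finset.mem_insert_self c S)]
      congr 1
      refine Finset.prod_congr rfl fun d hd => ?_
      have hdc : d ≠ c := fun h => hc (h ▸ hd)
      simp [Finset.mem_insert, hdc]
    rw [h1, h2, Ex_smul, Ex_smul]
    ring

/-- Product formula for general powers. -/
theorem Ex_xi (U : Finset ℕ) (g : ℝ) (m : ℕ → ℕ) :
    Ex U (pr g) (fun S => ∏ d ∈ U, xi g S d ^ m d) = ∏ d ∈ U, mo g (m d) := by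
  rw [show (fun S => ∏ d ∈ U, xi g S d ^ m d) =
      fun S => ∏ d ∈ U, (if d ∈ S then g ^ m d else (-(1 / g)) ^ m d) from ?_, Ex_prod]
  · rfl
  · funext S
    refine Finset.prod_congr rfl fun d _ => ?_
    unfold xi
    split_ifs <;> rfl

/-- Multiplicity. -/
def mult {ι : Type} [Fintype ι] (c : ι → Finset ℕ) (d : ℕ) : ℕ := ∑ i, if d ∈ c i then 1 else 0

/-- Moment of a family of sets. -/
noncomputable def mom {ι : Type} [Fintype ι] (U : Finset ℕ) (g : ℝ) (c : ι → Finset ℕ) : ℝ :=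
  ∏ d ∈ U, mo g (mult c d)

theorem prod_xi {ι : Type} [Fintype ι] {U : Finset ℕ} (g : ℝ) {c : ι → Finset ℕ}
    (hc : ∀ i, c i ⊆ U) (S : Finset ℕ) :
    (∏ i, ∏ d ∈ c i, xi g S d) = ∏ d ∈ U, xi g S d ^ mult c d := by
  have h1 : ∀ i, (∏ d ∈ c i, xi g S d) = ∏ d ∈ U, (if d ∈ c i then xi g S d else 1) := by
    intro i
    rw [Finset.prod_ite_mem, Finset.inter_eq_right.mpr (hc i)]
  simp only [h1]
  rw [Finset.prod_comm]
  refine Finset.prod_congr rfl fun d _ => ?_
  unfold mult
  rw [← Finset.prod_pow_eq_pow_sum]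
  refine Finset.prod_congr rfl fun i _ => ?_
  split_ifs <;> simp

theorem Ex_mom {ι : Type} [Fintype ι] {U : Finset ℕ} (g : ℝ) {c : ι → Finset ℕ}
    (hc : ∀ i, c i ⊆ U) :
    Ex U (pr g) (fun S => ∏ i, ∏ d ∈ c i, xi g S d) = mom U g c := by
  rw [mom, ← Ex_xi]
  exact Ex_congr fun S _ => prod_xi g hc S

theorem mom_zero {ι : Type} [Fintype ι] {U : Finset ℕ} {g : ℝ} (hg : 0 < g)
    {c : ι → Finset ℕ} (hc : ∀ i, c i ⊆ U) (h : ¬ NS c) : mom U g c = 0 := by
  classical
  unfold NS at h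
  push Not at h
  obtain ⟨i, d, hd, h2⟩ := h
  unfold mom
  apply Finset.prod_eq_zero (hc i hd)
  have : mult c d = 1 := by
    unfold mult
    rw [Finset.sum_eq_single i]
    · rw [if_pos hd]
    · intro b _ hb; rw [if_neg (h2 b hb)]
    · intro hi; exact absurd (Finset.mem_univ i) hi
  rw [this, mo_one hg]

theorem abs_mom_le {ι : Type} [Fintype ι] {U : Finset ℕ} {g : ℝ} (hg : 1 ≤ g)
    (c : ι → Finset ℕ) : |mom U g c| ≤ g ^ (∑ i, (c i).card) := by
  unfold mom
  rw [Finset.abs_prod]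
  calc ∏ d ∈ U, |mo g (mult c d)| ≤ ∏ d ∈ U, g ^ mult c d :=
        Finset.prod_le_prod (fun _ _ => abs_nonneg _) fun d _ => abs_mo_le hg _
    _ = g ^ (∑ d ∈ U, mult c d) := Finset.prod_pow_eq_pow_sum _ _ _
    _ ≤ g ^ (∑ i, (c i).card) := by
        refine pow_le_pow_right₀ hg ?_
        unfold mult
        rw [Finset.sum_comm]
        refine Finset.sum_le_sum fun i _ => ?_
        rw [Finset.sum_ite_mem, ← Finset.card_eq_sum_ones]
        exact Finset.card_le_card Finset.inter_subset_right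

theorem mom_pair {K : ℕ} {U : Finset ℕ} {g : ℝ} (hg : 0 < g) {c : Fin (K + 2) → Finset ℕ}
    (l : Fin (K + 1)) (h1 : c 0 = c l.succ)
    (h2 : ∀ i, Disjoint (c 0) (c (l.succAbove i).succ)) :
    mom U g c = mom U g (fun i => c (l.succAbove i).succ) := by
  unfold mom
  refine Finset.prod_congr rfl fun d _ => ?_
  have h3 : mult c d = (if d ∈ c 0 then 1 else 0) + ((if d ∈ c l.succ then 1 else 0) +
      mult (fun i => c (l.succAbove i).succ) d) := by
    unfold mult
    rw [Fin.sum_univ_succ, Fin.sum_univ_succAbove _ l]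
  rw [h3, ← h1]
  split_ifs with h
  · have h4 : mult (fun i => c (l.succAbove i).succ) d = 0 := by
      unfold mult
      refine Finset.sum_eq_zero fun i _ => ?_
      rw [if_neg]
      exact fun h5 => (Finset.disjoint_left.mp (h2 i)) h h5
    rw [h4, mo_zero]
    exact mo_two hg
  · rw [zero_add, zero_add]

theorem mult_append {p q : ℕ} (c : Fin p → Finset ℕ) (c' : Fin q → Finset ℕ) (d : ℕ) :
    mult (Fin.append c c') d = mult c d + mult c' d := by
  unfold mult
  rw [Fin.sum_univ_add]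
  simp

theorem mult_disj {ι : Type} [Fintype ι] [DecidableEq ι] {c : ι → Finset ℕ}
    (h : ∀ i j, i ≠ j → Disjoint (c i) (c j)) (d : ℕ) :
    mult c d = if d ∈ univ.biUnion c then 1 else 0 := by
  unfold mult
  by_cases hd : d ∈ univ.biUnion c
  · rw [if_pos hd]
    obtain ⟨i, _, hi⟩ := Finset.mem_biUnion.mp hd
    rw [Finset.sum_eq_single i, if_pos hi]
    · intro b _ hb
      rw [if_neg fun h5 => (Finset.disjoint_left.mp (h b i hb)) h5 hi]
    · intro h5; exact absurd (Finset.mem_univ i) h5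
  · rw [if_neg hd]
    refine Finset.sum_eq_zero fun i _ => ?_
    rw [if_neg fun h5 => hd (Finset.mem_biUnion.mpr ⟨i, Finset.mem_univ _, h5⟩)]

theorem mom_two {p q : ℕ} {U : Finset ℕ} {g : ℝ} (hg : 0 < g)
    {c : Fin p → Finset ℕ} {c' : Fin q → Finset ℕ} (hc : ∀ i, c i ⊆ U) (hc' : ∀ i, c' i ⊆ U)
    (h : ∀ i j, i ≠ j → Disjoint (c i) (c j)) (h' : ∀ i j, i ≠ j → Disjoint (c' i) (c' j)) :
    mom U g (Fin.append c c') = if univ.biUnion c = univ.biUnion c' then 1 else 0 := by
  unfold mom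
  simp only [mult_append, mult_disj h, mult_disj h']
  split_ifs with he
  · refine Finset.prod_eq_one fun d _ => ?_
    rw [he]
    split_ifs
    · exact mo_two hg
    · exact mo_zero g
  · have hne : ∃ d, ¬ (d ∈ univ.biUnion c ↔ d ∈ univ.biUnion c') := by
      by_contra hcon
      push Not at hcon
      exact he (Finset.ext hcon)
    obtain ⟨d, hd⟩ := hne
    have hdU : d ∈ U := by
      by_contra hdU
      apply hd
      constructor
      · intro h5
        obtain ⟨i, _, hi⟩ := Finset.mem_biUnion.mp h5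
        exact absurd (hc i hi) hdU
      · intro h5
        obtain ⟨i, _, hi⟩ := Finset.mem_biUnion.mp h5
        exact absurd (hc' i hi) hdU
    apply Finset.prod_eq_zero hdU
    by_cases h1 : d ∈ univ.biUnion c
    · have h2 : d ∉ univ.biUnion c' := fun h2 => hd ⟨fun _ => h2, fun _ => h1⟩
      rw [if_pos h1, if_neg h2, mo_one hg]
    · have h2 : d ∈ univ.biUnion c' := by
        by_contra h2
        exact hd ⟨fun h3 => absurd h3 h1, fun h3 => absurd h3 h2⟩
      rw [if_neg h1, if_pos h2, mo_one hg]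

end Pool.Agent.H90.TF
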