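import Mathlib
import Pool.Agent.H90.TFMom

set_option autoImplicit false

namespace Pool.Agent.H90.TF

open Finset Pool.Agent.H90.Round Pool.Agent.H90.Bern

/-- Disjointness requirements. -/
def GD {ι : Type} (G : ι → ι → Prop) (c : ι → Finset ℕ) : Prop :=
  ∀ i j, i ≠ j → G i j → Disjoint (c i) (c j)

open Classical in
/-- Weighted sum over tuples of trees. -/
noncomputable def Wg (g : ℝ) (F : FS) (N K : ℕ) (G : Fin K → Fin K → Prop) : ℝ :=
  ∑ x : Fin K → Lam F N, (∏ i, wt (x i)) *
    (if GD G (fun i => cls (x i)) ∧ frt x = 0 then mom (Ud N) g (fun i => cls (x i)) else 0)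

open Classical in
/-- Second moment. -/
noncomputable def cN (F : FS) (N : ℕ) : ℝ :=
  ∑ x : Lam F N, ∑ y : Lam F N, wt x * wt y * (if cls x = cls y ∧ rt x + rt y = 0 then 1 else 0)

/-- Bound for the number of classes. -/
def bF (F : FS) : ℕ := ∑ r, Fintype.card (F.T r).V

theorem card_cls_le {F : FS} {N : ℕ} (x : Lam F N) : (cls x).card ≤ bF F := by
  unfold cls clk bF
  refine Finset.card_image_le.trans ?_
  rw [Finset.card_univ]
  exact Finset.single_le_sum (f := fun r => Fintype.card (F.T r).V)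
    (fun _ _ => Nat.zero_le _) (Finset.mem_univ x.1)

theorem cls_sub {F : FS} {N : ℕ} {x : Lam F N} (h : wt x ≠ 0) : cls x ⊆ Ud N := by
  intro d hd
  obtain ⟨v, rfl⟩ := mem_cls.mp hd
  exact ds_mem ((Int_of_wt h).1 v)

theorem abs_mom_cls {F : FS} {N K : ℕ} {g : ℝ} (hg : 1 ≤ g) (x : Fin K → Lam F N) :
    |mom (Ud N) g (fun i => cls (x i))| ≤ g ^ (K * bF F) := by
  refine (abs_mom_le hg _).trans (pow_le_pow_right₀ hg ?_)
  calc ∑ i, (cls (x i)).card ≤ ∑ _i : Fin K, bF F := Finset.sum_le_sum fun i _ => card_cls_le _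
    _ = K * bF F := by simp

theorem idx {K : ℕ} (l : Fin (K + 1)) (i : Fin (K + 2)) :
    i = 0 ∨ i = l.succ ∨ ∃ i0 : Fin K, i = (l.succAbove i0).succ := by
  rcases Fin.eq_zero_or_eq_succ i with h | ⟨j, rfl⟩
  · left; exact h
  · right
    rcases Fin.eq_self_or_eq_succAbove l j with h | ⟨i0, h⟩
    · left; rw [h]
    · right; exact ⟨i0, by rw [h]⟩

theorem sum_split {Λ : Type} [Fintype Λ] {K : ℕ} (l : Fin (K + 1))
    (f : (Fin (K + 2) → Λ) → ℝ) :
    ∑ x, f x = ∑ x0 : Λ, ∑ y : Λ, ∑ z : Fin K → Λ,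
      f (Fin.cons (α := fun _ => Λ) x0 (l.insertNth (α := fun _ => Λ) y z)) := by
  rw [← (Fin.consEquiv (fun _ : Fin (K + 2) => Λ)).sum_comp, Fintype.sum_prod_type]
  refine Finset.sum_congr rfl fun x0 _ => ?_
  rw [← (Fin.insertNthEquiv (fun _ : Fin (K + 1) => Λ) l).sum_comp, Fintype.sum_prod_type]
  rfl

open Classical in
/-- Pointwise form of the recursion. -/
theorem point {F : FS} {N K : ℕ} {g : ℝ} (hg : 1 ≤ g) {G : Fin (K + 2) → Fin (K + 2) → Prop}
    (hG : ∀ i j, G i j → G j i) (x : Fin (K + 2) → Lam F N) (hx : ∀ i, wt (x i) ≠ 0) :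
    |(if GD G (fun i => cls (x i)) ∧ frt x = 0 then mom (Ud N) g (fun i => cls (x i)) else 0) -
      ∑ l : Fin (K + 1), (if ¬ G 0 l.succ ∧ cls (x 0) = cls (x l.succ) ∧
        GD (fun i j => G (l.succAbove i).succ (l.succAbove j).succ)
          (fun i => cls (x (l.succAbove i).succ)) ∧ frt x = 0
        then mom (Ud N) g (fun i => cls (x (l.succAbove i).succ)) else 0)| ≤
      ((K : ℝ) + 2) * g ^ ((K + 2) * bF F) *
        (if NS (fun i => cls (x i)) ∧ Mid (fun i => cls (x i)) then 1 else 0) := by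
  have hg0 : 0 < g := by linarith
  have hU : ∀ i, cls (x i) ⊆ Ud N := fun i => cls_sub (hx i)
  have hne : ∀ i, (cls (x i)).Nonempty := fun i => cls_nonempty _
  by_cases hNS : NS (fun i => cls (x i))
  swap
  · have h1 : (if GD G (fun i => cls (x i)) ∧ frt x = 0 then
        mom (Ud N) g (fun i => cls (x i)) else 0) = 0 := by
      rw [mom_zero hg0 hU hNS]; simp
    have h2 : ∀ l : Fin (K + 1), (if ¬ G 0 l.succ ∧ cls (x 0) = cls (x l.succ) ∧
        GD (fun i j => G (l.succAbove i).succ (l.succAbove j).succ)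
          (fun i => cls (x (l.succAbove i).succ)) ∧ frt x = 0
        then mom (Ud N) g (fun i => cls (x (l.succAbove i).succ)) else 0) = 0 := by
      intro l
      split_ifs with h
      · apply mom_zero hg0 (fun i => hU _)
        intro h3
        apply hNS
        intro i d hd
        rcases idx l i with h4 | h4 | ⟨i0, h4⟩
        · subst h4
          refine ⟨l.succ, Fin.succ_ne_zero l, ?_⟩
          change d ∈ cls (x l.succ)
          rw [← h.2.1]; exact hd
        · subst h4
          refine ⟨0, (Fin.succ_ne_zero l).symm, ?_⟩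
          change d ∈ cls (x 0)
          rw [h.2.1]; exact hd
        · subst h4
          obtain ⟨i1, hi1, hd1⟩ := h3 i0 d hd
          refine ⟨(l.succAbove i1).succ, ?_, hd1⟩
          intro h5
          exact hi1 (Fin.succAbove_right_injective (Fin.succ_injective _ h5))
      · rfl
    rw [h1]
    simp only [h2]
    simp only [Finset.sum_const_zero, sub_zero, abs_zero]
    have : (0 : ℝ) ≤ g ^ ((K + 2) * bF F) := by positivity
    split_ifs
    · positivity
    · simp
  by_cases hMid : Mid (fun i => cls (x i))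
  · rw [if_pos (⟨hNS, hMid⟩ : NS (fun i => cls (x i)) ∧ Mid (fun i => cls (x i))), mul_one]
    have hb := abs_mom_cls hg x
    have hb2 : ∀ l : Fin (K + 1), |mom (Ud N) g (fun i => cls (x (l.succAbove i).succ))| ≤
        g ^ ((K + 2) * bF F) := by
      intro l
      refine (abs_mom_cls hg (fun i => x (l.succAbove i).succ)).trans
        (pow_le_pow_right₀ hg ?_)
      exact Nat.mul_le_mul_right _ (by omega)
    have hgp : (0 : ℝ) ≤ g ^ ((K + 2) * bF F) := by positivity
    refine (abs_sub _ _).trans ?_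
    have h1 : |(if GD G (fun i => cls (x i)) ∧ frt x = 0 then
        mom (Ud N) g (fun i => cls (x i)) else 0)| ≤ g ^ ((K + 2) * bF F) := by
      split_ifs
      · exact hb
      · simpa using hgp
    have h2 : |∑ l : Fin (K + 1), (if ¬ G 0 l.succ ∧ cls (x 0) = cls (x l.succ) ∧
        GD (fun i j => G (l.succAbove i).succ (l.succAbove j).succ)
          (fun i => cls (x (l.succAbove i).succ)) ∧ frt x = 0
        then mom (Ud N) g (fun i => cls (x (l.succAbove i).succ)) else 0)| ≤
        ((K : ℝ) + 1) * g ^ ((K + 2) * bF F) := by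
      refine (Finset.abs_sum_le_sum_abs _ _).trans ?_
      calc _ ≤ ∑ _l : Fin (K + 1), g ^ ((K + 2) * bF F) := by
            refine Finset.sum_le_sum fun l _ => ?_
            split_ifs
            · exact hb2 l
            · simpa using hgp
        _ = ((K : ℝ) + 1) * g ^ ((K + 2) * bF F) := by simp
    linarith
  · rw [if_neg (show ¬ (NS (fun i => cls (x i)) ∧ Mid (fun i => cls (x i))) from
      fun h => hMid h.2), mul_zero]
    -- the partner
    obtain ⟨d0, hd0⟩ := hne 0
    obtain ⟨i', hi', hdi'⟩ := hNS 0 d0 hd0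
    obtain ⟨l0, rfl⟩ : ∃ l0 : Fin (K + 1), i' = l0.succ := by
      rcases Fin.eq_zero_or_eq_succ i' with h | ⟨j, h⟩
      · exact absurd h hi'
      · exact ⟨j, h⟩
    have hmeet : ¬ Disjoint (cls (x 0)) (cls (x l0.succ)) :=
      Finset.not_disjoint_iff.mpr ⟨d0, hd0, hdi'⟩
    have hdis0 : ∀ i, i ≠ 0 → i ≠ l0.succ → Disjoint (cls (x 0)) (cls (x i)) := by
      intro i h1 h2
      by_contra h3
      exact hMid ⟨0, l0.succ, i, hi', h1, fun h => h2 h.symm, hmeet, h3⟩
    have hdisl : ∀ i, i ≠ 0 → i ≠ l0.succ → Disjoint (cls (x l0.succ)) (cls (x i)) := by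
      intro i h1 h2
      by_contra h3
      exact hMid ⟨l0.succ, 0, i, hi'.symm, h2, fun h => h1 h.symm,
        fun h => hmeet h.symm, h3⟩
    have heq : cls (x 0) = cls (x l0.succ) := by
      ext d
      constructor
      · intro hd
        obtain ⟨i, hi, hd2⟩ := hNS 0 d hd
        by_cases h : i = l0.succ
        · rw [← h]; exact hd2
        · exact absurd hd2 (Finset.disjoint_left.mp (hdis0 i hi h) hd)
      · intro hd
        obtain ⟨i, hi, hd2⟩ := hNS l0.succ d hd
        by_cases h : i = 0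
        · rw [← h]; exact hd2
        · exact absurd hd2 (Finset.disjoint_left.mp (hdisl i h hi) hd)
    have hout : ∀ i0 : Fin K, (l0.succAbove i0).succ ≠ 0 ∧ (l0.succAbove i0).succ ≠ l0.succ := by
      intro i0
      exact ⟨Fin.succ_ne_zero _, fun h => Fin.succAbove_ne l0 i0 (Fin.succ_injective _ h)⟩
    rw [Finset.sum_eq_single l0]
    · have hiff : (GD G (fun i => cls (x i)) ∧ frt x = 0) ↔
          (¬ G 0 l0.succ ∧ cls (x 0) = cls (x l0.succ) ∧
            GD (fun i j => G (l0.succAbove i).succ (l0.succAbove j).succ)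
              (fun i => cls (x (l0.succAbove i).succ)) ∧ frt x = 0) := by
        constructor
        · rintro ⟨h1, h2⟩
          refine ⟨fun h3 => hmeet (h1 0 l0.succ hi'.symm h3), heq, fun i j hij h3 => ?_, h2⟩
          refine h1 _ _ (fun h => hij ?_) h3
          exact Fin.succAbove_right_injective (Fin.succ_injective _ h)
        · rintro ⟨h1, _, h3, h4⟩
          refine ⟨fun i j hij h5 => ?_, h4⟩
          rcases idx l0 i with hi | hi | ⟨i0, hi⟩
          · subst hi
            rcases idx l0 j with hj | hj | ⟨j0, hj⟩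
            · exact absurd hj.symm hij
            · subst hj; exact absurd h5 h1
            · subst hj; exact hdis0 _ (hout j0).1 (hout j0).2
          · subst hi
            rcases idx l0 j with hj | hj | ⟨j0, hj⟩
            · subst hj; exact absurd (hG _ _ h5) h1
            · exact absurd hj.symm hij
            · subst hj; exact hdisl _ (hout j0).1 (hout j0).2
          · subst hi
            rcases idx l0 j with hj | hj | ⟨j0, hj⟩
            · subst hj; exact (hdis0 _ (hout i0).1 (hout i0).2).symm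
            · subst hj; exact (hdisl _ (hout i0).1 (hout i0).2).symm
            · subst hj
              refine h3 i0 j0 (fun h => hij (by rw [h])) h5
      have hm : mom (Ud N) g (fun i => cls (x i)) =
          mom (Ud N) g (fun i => cls (x (l0.succAbove i).succ)) :=
        mom_pair (c := fun i => cls (x i)) hg0 l0 heq fun i => hdis0 _ (hout i).1 (hout i).2
      by_cases hc : GD G (fun i => cls (x i)) ∧ frt x = 0
      · rw [if_pos hc, if_pos (hiff.mp hc), hm]; simp
      · rw [if_neg hc, if_neg (fun h => hc (hiff.mpr h))]; simp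
    · intro l _ hl
      rw [if_neg]
      rintro ⟨_, h2, _⟩
      have h3 := hdis0 l.succ (Fin.succ_ne_zero l) (fun h => hl (Fin.succ_injective _ h))
      rw [← h2, disjoint_self] at h3
      exact (hne 0).ne_empty h3
    · intro h; exact absurd (Finset.mem_univ l0) h

/-- Insert two trees. -/
def ins {Λ : Type} {K : ℕ} (l : Fin (K + 1)) (x0 y : Λ) (z : Fin K → Λ) : Fin (K + 2) → Λ :=
  Fin.cons (α := fun _ => Λ) x0 (l.insertNth (α := fun _ => Λ) y z)

theorem ins_zero {Λ : Type} {K : ℕ} (l : Fin (K + 1)) (x0 y : Λ) (z : Fin K → Λ) :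
    ins l x0 y z 0 = x0 := rfl

theorem ins_l {Λ : Type} {K : ℕ} (l : Fin (K + 1)) (x0 y : Λ) (z : Fin K → Λ) :
    ins l x0 y z l.succ = y := by
  unfold ins; simp

theorem ins_out {Λ : Type} {K : ℕ} (l : Fin (K + 1)) (x0 y : Λ) (z : Fin K → Λ) (i : Fin K) :
    ins l x0 y z (l.succAbove i).succ = z i := by
  unfold ins; simp

theorem frt_ins {F : FS} {N K : ℕ} (l : Fin (K + 1)) (x0 y : Lam F N) (z : Fin K → Lam F N) :
    frt (ins l x0 y z) = rt x0 + rt y + frt z := by
  unfold frt
  rw [Fin.sum_univ_succ, Fin.sum_univ_succAbove _ l, ins_zero, ins_l]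
  simp only [ins_out]
  rw [add_assoc]

theorem prod_ins {F : FS} {N K : ℕ} (l : Fin (K + 1)) (x0 y : Lam F N) (z : Fin K → Lam F N) :
    (∏ i, wt (ins l x0 y z i)) = wt x0 * wt y * ∏ i, wt (z i) := by
  rw [Fin.prod_univ_succ, Fin.prod_univ_succAbove _ l, ins_zero, ins_l]
  simp only [ins_out]
  rw [mul_assoc]

open Classical in
/-- Pair sum with prescribed root sum. -/
noncomputable def Pc (F : FS) (N : ℕ) (c : ZMod (N + 1)) : ℝ :=
  ∑ x : Lam F N, ∑ y : Lam F N, wt x * wt y * (if cls x = cls y ∧ rt x + rt y = c then 1 else 0)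

theorem cN_eq (F : FS) (N : ℕ) : cN F N = Pc F N 0 := rfl

theorem abs_Pc_le (F : FS) : ∃ C : ℝ, 0 ≤ C ∧ ∀ (N : ℕ) (c : ZMod (N + 1)), c ≠ 0 →
    |Pc F N c| * ((N : ℝ) + 1) ≤ C := by
  obtain ⟨C, hC, h⟩ := H3 F
  refine ⟨C, hC, fun N c hc => le_trans (mul_le_mul_of_nonneg_right ?_ (by positivity)) (h N c hc)⟩
  unfold Pc
  refine (Finset.abs_sum_le_sum_abs _ _).trans (Finset.sum_le_sum fun x _ => ?_)
  refine (Finset.abs_sum_le_sum_abs _ _).trans (Finset.sum_le_sum fun y _ => ?_)
  rw [abs_mul, abs_mul]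
  refine mul_le_mul_of_nonneg_left ?_ (by positivity)
  split_ifs <;> simp

open Classical in
theorem split_B {F : FS} {N K : ℕ} {g : ℝ} {G : Fin (K + 2) → Fin (K + 2) → Prop}
    (l : Fin (K + 1)) (hl : ¬ G 0 l.succ) :
    ∑ x : Fin (K + 2) → Lam F N, (∏ i, wt (x i)) *
      (if ¬ G 0 l.succ ∧ cls (x 0) = cls (x l.succ) ∧
        GD (fun i j => G (l.succAbove i).succ (l.succAbove j).succ)
          (fun i => cls (x (l.succAbove i).succ)) ∧ frt x = 0
        then mom (Ud N) g (fun i => cls (x (l.succAbove i).succ)) else 0) =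
    ∑ z : Fin K → Lam F N, (∏ i, wt (z i)) *
      ((if GD (fun i j => G (l.succAbove i).succ (l.succAbove j).succ) (fun i => cls (z i))
        then mom (Ud N) g (fun i => cls (z i)) else 0) * Pc F N (-frt z)) := by
  rw [sum_split l]
  calc _ = ∑ x0 : Lam F N, ∑ z : Fin K → Lam F N, ∑ y : Lam F N,
        (∏ i, wt (ins l x0 y z i)) *
      (if ¬ G 0 l.succ ∧ cls (ins l x0 y z 0) = cls (ins l x0 y z l.succ) ∧
        GD (fun i j => G (l.succAbove i).succ (l.succAbove j).succ)
          (fun i => cls (ins l x0 y z (l.succAbove i).succ)) ∧ frt (ins l x0 y z) = 0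
        then mom (Ud N) g (fun i => cls (ins l x0 y z (l.succAbove i).succ)) else 0) := by
        refine Finset.sum_congr rfl fun x0 _ => ?_
        rw [Finset.sum_comm]
        rfl
    _ = ∑ z : Fin K → Lam F N, ∑ x0 : Lam F N, ∑ y : Lam F N,
        (∏ i, wt (ins l x0 y z i)) *
      (if ¬ G 0 l.succ ∧ cls (ins l x0 y z 0) = cls (ins l x0 y z l.succ) ∧
        GD (fun i j => G (l.succAbove i).succ (l.succAbove j).succ)
          (fun i => cls (ins l x0 y z (l.succAbove i).succ)) ∧ frt (ins l x0 y z) = 0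
        then mom (Ud N) g (fun i => cls (ins l x0 y z (l.succAbove i).succ)) else 0) := by
        rw [Finset.sum_comm]
    _ = _ := by
        refine Finset.sum_congr rfl fun z _ => ?_
        unfold Pc
        rw [Finset.mul_sum, Finset.mul_sum]
        refine Finset.sum_congr rfl fun x0 _ => ?_
        rw [Finset.mul_sum, Finset.mul_sum]
        refine Finset.sum_congr rfl fun y _ => ?_
        rw [prod_ins, frt_ins]
        simp only [ins_zero, ins_l, ins_out]
        have e1 : (rt x0 + rt y + frt z = 0) ↔ (rt x0 + rt y = -frt z) := by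
          constructor
          · intro h; exact eq_neg_of_add_eq_zero_left h
          · intro h; rw [h]; exact neg_add_cancel _
        simp only [e1]
        generalize GD (fun i j => G (l.succAbove i).succ (l.succAbove j).succ)
            (fun i => cls (z i)) = P
        by_cases h1 : cls x0 = cls y
        · by_cases h2 : P
          · by_cases h3 : rt x0 + rt y = -frt z
            · simp only [hl, h1, h2, h3, not_false_eq_true, and_self, if_true]; ring
            · simp only [h3, and_false, if_false, mul_zero]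
          · simp only [h2, and_false, false_and, if_false, mul_zero, zero_mul]
        · simp only [h1, and_false, false_and, if_false, mul_zero]

open Classical in
theorem abs_term_le {F : FS} {N K : ℕ} {g : ℝ} (hg : 1 ≤ g) (z : Fin K → Lam F N) (P : Prop) :
    |(∏ i, wt (z i)) * (if P then mom (Ud N) g (fun i => cls (z i)) else 0)| ≤
      g ^ (K * bF F) * ((∏ i, |wt (z i)|) * (if NS (fun i => cls (z i)) then 1 else 0)) := by
  have hp : 0 ≤ ∏ i, |wt (z i)| := Finset.prod_nonneg fun _ _ => abs_nonneg _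
  have hgp : (0 : ℝ) ≤ g ^ (K * bF F) := by positivity
  have hR : 0 ≤ g ^ (K * bF F) *
      ((∏ i, |wt (z i)|) * (if NS (fun i => cls (z i)) then (1 : ℝ) else 0)) := by
    split_ifs
    · positivity
    · simp
  by_cases hz : ∀ i, wt (z i) ≠ 0
  · by_cases hNS : NS (fun i => cls (z i))
    · rw [if_pos hNS, mul_one, abs_mul, Finset.abs_prod, mul_comm]
      refine mul_le_mul_of_nonneg_right ?_ hp
      split_ifs
      · exact abs_mom_cls hg z
      · simpa using hgp
    · have : mom (Ud N) g (fun i => cls (z i)) = 0 :=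
        mom_zero (by linarith) (fun i => cls_sub (hz i)) hNS
      rw [this]
      simpa using hR
  · push Not at hz
    obtain ⟨i, hi⟩ := hz
    have : (∏ i, wt (z i)) = 0 := Finset.prod_eq_zero (Finset.mem_univ i) hi
    rw [this, zero_mul, abs_zero]
    exact hR

open Classical in
/-- The recursion for weighted sums. -/
theorem step (F : FS) (K : ℕ) {g : ℝ} (hg : 1 ≤ g) (G : Fin (K + 2) → Fin (K + 2) → Prop)
    (hG : ∀ i j, G i j → G j i) : ∃ C : ℝ, 0 ≤ C ∧ ∀ N : ℕ,
    |Wg g F N (K + 2) G - ∑ l : Fin (K + 1), (if ¬ G 0 l.succ then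
      cN F N * Wg g F N K (fun i j => G (l.succAbove i).succ (l.succAbove j).succ) else 0)| *
      Real.sqrt ((N : ℝ) + 1) ≤ C := by
  obtain ⟨C1, hC1, h1⟩ := H1 F K
  obtain ⟨C2, hC2, h2⟩ := H2 F (K + 2)
  obtain ⟨C3, hC3, h3⟩ := abs_Pc_le F
  have hgp : (0 : ℝ) ≤ g ^ ((K + 2) * bF F) := by positivity
  have hgp' : (0 : ℝ) ≤ g ^ (K * bF F) := by positivity
  refine ⟨((K : ℝ) + 2) * g ^ ((K + 2) * bF F) * C2 +
    ((K : ℝ) + 1) * (g ^ (K * bF F) * C1 * C3), by positivity, fun N => ?_⟩
  set s : ℝ := Real.sqrt ((N : ℝ) + 1) with hs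
  have hs1 : 1 ≤ s := by
    rw [hs]
    apply Real.le_sqrt_of_sq_le
    have : (0 : ℝ) ≤ N := Nat.cast_nonneg N
    linarith
  have hs2 : s * s = (N : ℝ) + 1 := Real.mul_self_sqrt (by positivity)
  have hs0 : 0 < s := by linarith
  set Bl : Fin (K + 1) → (Fin (K + 2) → Lam F N) → ℝ := fun l x =>
    (if ¬ G 0 l.succ ∧ cls (x 0) = cls (x l.succ) ∧
        GD (fun i j => G (l.succAbove i).succ (l.succAbove j).succ)
          (fun i => cls (x (l.succAbove i).succ)) ∧ frt x = 0
        then mom (Ud N) g (fun i => cls (x (l.succAbove i).succ)) else 0) with hBl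
  -- first comparison
  have p1 : |Wg g F N (K + 2) G - ∑ l, ∑ x : Fin (K + 2) → Lam F N, (∏ i, wt (x i)) * Bl l x| * s
      ≤ ((K : ℝ) + 2) * g ^ ((K + 2) * bF F) * C2 := by
    have e1 : Wg g F N (K + 2) G - ∑ l, ∑ x : Fin (K + 2) → Lam F N, (∏ i, wt (x i)) * Bl l x =
        ∑ x : Fin (K + 2) → Lam F N, (∏ i, wt (x i)) *
          ((if GD G (fun i => cls (x i)) ∧ frt x = 0 then mom (Ud N) g (fun i => cls (x i))
            else 0) - ∑ l, Bl l x) := by
      unfold Wg
      rw [Finset.sum_comm, ← Finset.sum_sub_distrib]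
      refine Finset.sum_congr rfl fun x _ => ?_
      rw [mul_sub, Finset.mul_sum]
    rw [e1]
    have e2 : |∑ x : Fin (K + 2) → Lam F N, (∏ i, wt (x i)) *
          ((if GD G (fun i => cls (x i)) ∧ frt x = 0 then mom (Ud N) g (fun i => cls (x i))
            else 0) - ∑ l, Bl l x)| ≤ ((K : ℝ) + 2) * g ^ ((K + 2) * bF F) *
        ∑ x : Fin (K + 2) → Lam F N, (∏ i, |wt (x i)|) *
        (if NS (fun i => cls (x i)) ∧ Mid (fun i => cls (x i)) then 1 else 0) := by
      rw [Finset.mul_sum]
      refine (Finset.abs_sum_le_sum_abs _ _).trans (Finset.sum_le_sum fun x _ => ?_)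
      rw [abs_mul, Finset.abs_prod]
      have hp : 0 ≤ ∏ i, |wt (x i)| := Finset.prod_nonneg fun _ _ => abs_nonneg _
      by_cases hx : ∀ i, wt (x i) ≠ 0
      · have := mul_le_mul_of_nonneg_left (point hg hG x hx) hp
        refine this.trans (le_of_eq ?_)
        ring
      · push Not at hx
        obtain ⟨i, hi⟩ := hx
        have : (∏ i, |wt (x i)|) = 0 := Finset.prod_eq_zero (Finset.mem_univ i) (by simp [hi])
        rw [this]; simp
    calc _ ≤ ((K : ℝ) + 2) * g ^ ((K + 2) * bF F) *
        (∑ x : Fin (K + 2) → Lam F N, (∏ i, |wt (x i)|) *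
        (if NS (fun i => cls (x i)) ∧ Mid (fun i => cls (x i)) then 1 else 0)) * s :=
          mul_le_mul_of_nonneg_right e2 hs0.le
      _ = ((K : ℝ) + 2) * g ^ ((K + 2) * bF F) *
        ((∑ x : Fin (K + 2) → Lam F N, (∏ i, |wt (x i)|) *
        (if NS (fun i => cls (x i)) ∧ Mid (fun i => cls (x i)) then 1 else 0)) * s) := by ring
      _ ≤ _ := mul_le_mul_of_nonneg_left (h2 N) (by positivity)
  -- second comparison
  have p2 : ∀ l : Fin (K + 1), |(∑ x : Fin (K + 2) → Lam F N, (∏ i, wt (x i)) * Bl l x) -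
      (if ¬ G 0 l.succ then
      cN F N * Wg g F N K (fun i j => G (l.succAbove i).succ (l.succAbove j).succ) else 0)| * s
      ≤ g ^ (K * bF F) * C1 * C3 := by
    intro l
    by_cases hl : G 0 l.succ
    · have : ∀ x, Bl l x = 0 := by
        intro x
        rw [hBl]
        simp only
        rw [if_neg (fun h => h.1 hl)]
      simp only [this]
      rw [if_neg (not_not.mpr hl)]
      simp only [mul_zero, Finset.sum_const_zero, sub_zero, abs_zero, zero_mul]
      positivity
    · rw [if_pos hl, hBl]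
      simp only
      rw [split_B l hl]
      set G' : Fin K → Fin K → Prop := fun i j => G (l.succAbove i).succ (l.succAbove j).succ
        with hG'
      have e1 : cN F N * Wg g F N K G' = ∑ z : Fin K → Lam F N, (∏ i, wt (z i)) *
          ((if GD G' (fun i => cls (z i)) then mom (Ud N) g (fun i => cls (z i)) else 0) *
            (if frt z = 0 then Pc F N 0 else 0)) := by
        unfold Wg
        rw [Finset.mul_sum, cN_eq]
        refine Finset.sum_congr rfl fun z _ => ?_
        by_cases a1 : GD G' (fun i => cls (z i))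
        · by_cases a2 : frt z = 0
          · rw [if_pos ⟨a1, a2⟩, if_pos a1, if_pos a2]; ring
          · rw [if_neg (fun h => a2 h.2), if_neg a2]; ring
        · rw [if_neg (fun h => a1 h.1), if_neg a1]; ring
      rw [e1, ← Finset.sum_sub_distrib]
      have e2 : ∀ z : Fin K → Lam F N, |(∏ i, wt (z i)) *
          ((if GD G' (fun i => cls (z i)) then mom (Ud N) g (fun i => cls (z i)) else 0) *
            Pc F N (-frt z)) - (∏ i, wt (z i)) *
          ((if GD G' (fun i => cls (z i)) then mom (Ud N) g (fun i => cls (z i)) else 0) *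
            (if frt z = 0 then Pc F N 0 else 0))| * ((N : ℝ) + 1) ≤
          g ^ (K * bF F) * ((∏ i, |wt (z i)|) * (if NS (fun i => cls (z i)) then 1 else 0)) *
            C3 := by
        intro z
        have e3 : (∏ i, wt (z i)) *
          ((if GD G' (fun i => cls (z i)) then mom (Ud N) g (fun i => cls (z i)) else 0) *
            Pc F N (-frt z)) - (∏ i, wt (z i)) *
          ((if GD G' (fun i => cls (z i)) then mom (Ud N) g (fun i => cls (z i)) else 0) *
            (if frt z = 0 then Pc F N 0 else 0)) = ((∏ i, wt (z i)) *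
          (if GD G' (fun i => cls (z i)) then mom (Ud N) g (fun i => cls (z i)) else 0)) *
            (if frt z = 0 then 0 else Pc F N (-frt z)) := by
          by_cases a2 : frt z = 0
          · rw [if_pos a2, if_pos a2, a2, neg_zero]; ring
          · rw [if_neg a2, if_neg a2]; ring
        rw [e3, abs_mul, mul_assoc]
        have e4 := abs_term_le hg z (GD G' (fun i => cls (z i)))
        refine mul_le_mul e4 ?_ (by positivity) ((abs_nonneg _).trans e4)
        by_cases a2 : frt z = 0
        · rw [if_pos a2]; simpa using hC3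
        · rw [if_neg a2]
          exact h3 N _ (neg_ne_zero.mpr a2)
      calc _ ≤ |∑ z : Fin K → Lam F N, ((∏ i, wt (z i)) *
          ((if GD G' (fun i => cls (z i)) then mom (Ud N) g (fun i => cls (z i)) else 0) *
            Pc F N (-frt z)) - (∏ i, wt (z i)) *
          ((if GD G' (fun i => cls (z i)) then mom (Ud N) g (fun i => cls (z i)) else 0) *
            (if frt z = 0 then Pc F N 0 else 0)))| * ((N : ℝ) + 1) := by
            refine mul_le_mul_of_nonneg_left ?_ (abs_nonneg _)
            rw [← hs2]; nlinarith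
        _ ≤ (∑ z : Fin K → Lam F N, |(∏ i, wt (z i)) *
          ((if GD G' (fun i => cls (z i)) then mom (Ud N) g (fun i => cls (z i)) else 0) *
            Pc F N (-frt z)) - (∏ i, wt (z i)) *
          ((if GD G' (fun i => cls (z i)) then mom (Ud N) g (fun i => cls (z i)) else 0) *
            (if frt z = 0 then Pc F N 0 else 0))|) * ((N : ℝ) + 1) :=
            mul_le_mul_of_nonneg_right (Finset.abs_sum_le_sum_abs _ _) (by positivity)
        _ ≤ ∑ z : Fin K → Lam F N, g ^ (K * bF F) * ((∏ i, |wt (z i)|) *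
            (if NS (fun i => cls (z i)) then 1 else 0)) * C3 := by
            rw [Finset.sum_mul]
            exact Finset.sum_le_sum fun z _ => e2 z
        _ = g ^ (K * bF F) * (∑ z : Fin K → Lam F N, ((∏ i, |wt (z i)|) *
            (if NS (fun i => cls (z i)) then 1 else 0))) * C3 := by
            rw [Finset.mul_sum, Finset.sum_mul]
        _ ≤ g ^ (K * bF F) * C1 * C3 := by
            refine mul_le_mul_of_nonneg_right ?_ hC3
            exact mul_le_mul_of_nonneg_left (h1 N) hgp'
  have p3 : |Wg g F N (K + 2) G - ∑ l : Fin (K + 1), (if ¬ G 0 l.succ then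
      cN F N * Wg g F N K (fun i j => G (l.succAbove i).succ (l.succAbove j).succ) else 0)| ≤
      |Wg g F N (K + 2) G - ∑ l, ∑ x : Fin (K + 2) → Lam F N, (∏ i, wt (x i)) * Bl l x| +
      ∑ l : Fin (K + 1), |(∑ x : Fin (K + 2) → Lam F N, (∏ i, wt (x i)) * Bl l x) -
      (if ¬ G 0 l.succ then
      cN F N * Wg g F N K (fun i j => G (l.succAbove i).succ (l.succAbove j).succ) else 0)| := by
    refine (abs_sub_le _ (∑ l, ∑ x : Fin (K + 2) → Lam F N, (∏ i, wt (x i)) * Bl l x) _).trans ?_
    refine add_le_add le_rfl ?_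
    rw [← Finset.sum_sub_distrib]
    exact Finset.abs_sum_le_sum_abs _ _
  calc _ ≤ (|Wg g F N (K + 2) G - ∑ l, ∑ x : Fin (K + 2) → Lam F N, (∏ i, wt (x i)) * Bl l x| +
      ∑ l : Fin (K + 1), |(∑ x : Fin (K + 2) → Lam F N, (∏ i, wt (x i)) * Bl l x) -
      (if ¬ G 0 l.succ then
      cN F N * Wg g F N K (fun i j => G (l.succAbove i).succ (l.succAbove j).succ) else 0)|) * s
        := mul_le_mul_of_nonneg_right p3 hs0.le
    _ ≤ ((K : ℝ) + 2) * g ^ ((K + 2) * bF F) * C2 +
        ∑ _l : Fin (K + 1), g ^ (K * bF F) * C1 * C3 := by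
        rw [add_mul, Finset.sum_mul]
        exact add_le_add p1 (Finset.sum_le_sum fun l _ => p2 l)
    _ = _ := by simp

end Pool.Agent.H90.TF
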