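import Mathlib
import Pool.Agent.H90.TFRec

set_option autoImplicit false

namespace Pool.Agent.H90.TF

open Finset Pool.Agent.H90.Round Pool.Agent.H90.Bern Filter Topology

/-- The two kinds of disjointness requirements: the first `p` members form a group, the others
form a second group (`b = true`) or are unrestricted (`b = false`). -/
def Gf (b : Bool) (p K : ℕ) (i j : Fin K) : Prop :=
  if b then (i.val < p ↔ j.val < p) else (i.val < p ∧ j.val < p)

theorem Gf_symm (b : Bool) (p K : ℕ) (i j : Fin K) (h : Gf b p K i j) : Gf b p K j i := by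
  unfold Gf at *
  split_ifs at * with hb
  · exact h.symm
  · exact h.symm

/-- Limits of the weighted sums. -/
def Lf (b : Bool) : ℕ → ℕ → ℝ
  | 0, 0 => 1
  | 0, 1 => 0
  | 0, (q + 2) => if b then 0 else ((q : ℝ) + 1) * Lf b 0 q
  | (_ + 1), 0 => 0
  | (p + 1), (q + 1) => ((q : ℝ) + 1) * Lf b p q

theorem Wg_zero (g : ℝ) (F : FS) (N : ℕ) (G : Fin 0 → Fin 0 → Prop) : Wg g F N 0 G = 1 := by
  unfold Wg
  rw [Fintype.sum_unique]
  have h1 : GD G (fun i => cls ((default : Fin 0 → Lam F N) i)) := fun i => i.elim0
  have h2 : frt (default : Fin 0 → Lam F N) = 0 := by unfold frt; simp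
  rw [if_pos ⟨h1, h2⟩]
  unfold mom mult
  simp [mo_zero]

theorem Wg_one {g : ℝ} (hg : 1 ≤ g) (F : FS) (N : ℕ) (G : Fin 1 → Fin 1 → Prop) :
    Wg g F N 1 G = 0 := by
  unfold Wg
  refine Finset.sum_eq_zero fun x _ => ?_
  by_cases hx : ∀ i, wt (x i) ≠ 0
  · have : mom (Ud N) g (fun i => cls (x i)) = 0 := by
      apply mom_zero (by linarith) (fun i => cls_sub (hx i))
      intro h
      obtain ⟨d, hd⟩ := cls_nonempty (x 0)
      obtain ⟨i', hi', _⟩ := h 0 d hd
      exact hi' (Subsingleton.elim _ _)
    rw [this]; simp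
  · push Not at hx
    obtain ⟨i, hi⟩ := hx
    rw [Finset.prod_eq_zero (Finset.mem_univ i) hi, zero_mul]

theorem tendsto_inv_sqrt : Tendsto (fun N : ℕ => 1 / Real.sqrt ((N : ℝ) + 1)) atTop (𝓝 0) := by
  have h1 : Tendsto (fun N : ℕ => Real.sqrt ((N : ℝ) + 1)) atTop atTop := by
    refine Real.tendsto_sqrt_atTop.comp ?_
    exact tendsto_atTop_add_const_right _ _ tendsto_natCast_atTop_atTop
  exact h1.inv_tendsto_atTop.congr fun N => by simp [one_div]

theorem tendsto_sub_zero {a b : ℕ → ℝ} {C : ℝ}
    (h : ∀ N : ℕ, |a N - b N| * Real.sqrt ((N : ℝ) + 1) ≤ C) :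
    Tendsto (fun N => a N - b N) atTop (𝓝 0) := by
  have h1 : Tendsto (fun N : ℕ => C * (1 / Real.sqrt ((N : ℝ) + 1))) atTop (𝓝 0) := by
    have := tendsto_inv_sqrt.const_mul C
    rwa [mul_zero] at this
  refine squeeze_zero_norm (fun N => ?_) h1
  have hs : 0 < Real.sqrt ((N : ℝ) + 1) := Real.sqrt_pos.mpr (by positivity)
  rw [Real.norm_eq_abs, mul_one_div, le_div_iff₀ hs]
  exact h N

theorem succAbove_lt {K : ℕ} {p : ℕ} (l : Fin (K + 1)) (hl : p ≤ l.val) (i : Fin K) :
    ((l.succAbove i).succ.val < p + 1) ↔ i.val < p := by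
  rw [Fin.val_succ]
  rcases lt_or_ge i.castSucc l with h | h
  · rw [Fin.succAbove_of_castSucc_lt _ _ h]
    simp
  · rw [Fin.succAbove_of_le_castSucc _ _ h]
    have : l.val ≤ i.val := by
      have := Fin.le_def.mp h
      simpa using this
    simp only [Fin.val_succ]
    omega

theorem card_ge (K p : ℕ) : (univ.filter fun l : Fin (K + 1) => p ≤ l.val).card = K + 1 - p := by
  have h1 : (univ.filter fun l : Fin (K + 1) => p ≤ l.val).card =
      ((Finset.range (K + 1)).filter fun l => p ≤ l).card := by
    rw [Finset.card_filter, ← Finset.sum_range (fun l => if p ≤ l then 1 else 0),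
      ← Finset.card_filter]
  rw [h1]
  have h2 : (Finset.range (K + 1)).filter (fun l => p ≤ l) = Finset.Ico p (K + 1) := by
    ext l
    simp only [Finset.mem_filter, Finset.mem_range, Finset.mem_Ico]
    omega
  rw [h2, Nat.card_Ico]

theorem tendsto_Wg {g : ℝ} (hg : 1 ≤ g) (F : FS) (hF : Tendsto (cN F) atTop (𝓝 1)) (b : Bool) :
    ∀ K p q : ℕ, p + q = K → Tendsto (fun N => Wg g F N K (Gf b p K)) atTop (𝓝 (Lf b p q)) := by
  intro K
  induction K using Nat.strong_induction_on with
  | _ K ih =>
  intro p q hpq
  match K, ih with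
  | 0, _ =>
    obtain ⟨rfl, rfl⟩ : p = 0 ∧ q = 0 := by omega
    simp only [Wg_zero, Lf]
    exact tendsto_const_nhds
  | 1, _ =>
    simp only [Wg_one hg]
    have : Lf b p q = 0 := by
      rcases p with _ | p
      · obtain rfl : q = 1 := by omega
        simp [Lf]
      · obtain ⟨rfl, rfl⟩ : p = 0 ∧ q = 0 := by omega
        simp [Lf]
    rw [this]
    exact tendsto_const_nhds
  | K + 2, ih =>
    classical
    obtain ⟨C, hC, hstep⟩ := step F K hg (Gf b p (K + 2)) (Gf_symm b p (K + 2))
    have h0 := tendsto_sub_zero hstep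
    have h1 : Tendsto (fun N => ∑ l : Fin (K + 1), (if ¬ Gf b p (K + 2) 0 l.succ then
      cN F N * Wg g F N K (fun i j => Gf b p (K + 2) (l.succAbove i).succ (l.succAbove j).succ)
        else 0)) atTop (𝓝 (Lf b p q)) := by
      rcases p with _ | p
      · obtain rfl : q = K + 2 := by omega
        cases b
        · have e1 : ∀ l : Fin (K + 1), ¬ Gf false 0 (K + 2) 0 l.succ := by
            intro l; unfold Gf; simp
          have e2 : ∀ l : Fin (K + 1), (fun i j => Gf false 0 (K + 2) (l.succAbove i).succ
              (l.succAbove j).succ) = Gf false 0 K := by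
            intro l; funext i j; unfold Gf; simp
          simp only [e1, e2, not_false_eq_true, if_true]
          simp only [Finset.sum_const, Finset.card_univ, Fintype.card_fin, nsmul_eq_mul]
          have h2 := (hF.mul (ih K (by omega) 0 K (by omega))).const_mul ((K + 1 : ℕ) : ℝ)
          rw [one_mul] at h2
          convert h2 using 2
          simp only [Lf]
          push_cast; simp
        · have e1 : ∀ l : Fin (K + 1), Gf true 0 (K + 2) 0 l.succ := by
            intro l; unfold Gf; simp
          simp only [e1, not_true_eq_false, if_false, Finset.sum_const_zero]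
          have : Lf true 0 (K + 2) = 0 := by simp [Lf]
          rw [this]
          exact tendsto_const_nhds
      · have e1 : ∀ l : Fin (K + 1), (¬ Gf b (p + 1) (K + 2) 0 l.succ) ↔ p ≤ l.val := by
          intro l; unfold Gf
          cases b
          · simp
          · simp
        have e2 : ∀ l : Fin (K + 1), p ≤ l.val → (fun i j => Gf b (p + 1) (K + 2)
            (l.succAbove i).succ (l.succAbove j).succ) = Gf b p K := by
          intro l hl; funext i j; unfold Gf
          rw [succAbove_lt l hl, succAbove_lt l hl]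
        have e3 : ∀ N : ℕ, (∑ l : Fin (K + 1), (if ¬ Gf b (p + 1) (K + 2) 0 l.succ then
            cN F N * Wg g F N K (fun i j => Gf b (p + 1) (K + 2) (l.succAbove i).succ
              (l.succAbove j).succ) else 0)) =
            ((K + 1 - p : ℕ) : ℝ) * (cN F N * Wg g F N K (Gf b p K)) := by
          intro N
          rw [← card_ge, Finset.card_filter]
          push_cast
          rw [Finset.sum_mul]
          refine Finset.sum_congr rfl fun l _ => ?_
          by_cases hl : p ≤ l.val
          · rw [if_pos ((e1 l).mpr hl), if_pos hl, e2 l hl, one_mul]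
          · rw [if_neg (fun h => hl ((e1 l).mp h)), if_neg hl, zero_mul]
        simp only [e3]
        rcases q with _ | q
        · have : K + 1 - p = 0 := by omega
          rw [this]
          simp only [Nat.cast_zero, zero_mul, Lf]
          exact tendsto_const_nhds
        · have h3 : K + 1 - p = q + 1 := by omega
          rw [h3]
          have h2 := (hF.mul (ih K (by omega) p q (by omega))).const_mul ((q + 1 : ℕ) : ℝ)
          rw [one_mul] at h2
          convert h2 using 2
          simp only [Lf]
          push_cast; ring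
    have h2 := h0.add h1
    rw [zero_add] at h2
    refine h2.congr fun N => ?_
    simp only [sub_add_cancel]

end Pool.Agent.H90.TF
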