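import Mathlib
import Pool.Agent.H90.TFLim
import Pool.Agent.H90.Four

set_option autoImplicit false

namespace Pool.Agent.H90.TF

open Finset Pool.Agent.H90.Round Pool.Agent.H90.Bern Pool.Agent.H90.Four Filter Topology

/-! ### Negation of labellings -/

/-- Negate all labels. -/
def ng {F : FS} {N : ℕ} (x : Lam F N) : Lam F N := ⟨x.1, fun a => -(x.2 a)⟩

theorem val_ng (T : Sys) {N : ℕ} (k : T.A → ZMod (N + 1)) (v : T.V) :
    T.val (fun a => -(k a)) v = -T.val k v := by
  unfold Sys.val; rw [Finset.sum_neg_distrib]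

theorem ng_ng {F : FS} {N : ℕ} (x : Lam F N) : ng (ng x) = x := by
  unfold ng; simp

theorem rt_ng {F : FS} {N : ℕ} (x : Lam F N) : rt (ng x) = -rt x := by
  unfold rt ng; rw [Finset.sum_neg_distrib]

theorem cls_ng {F : FS} {N : ℕ} (x : Lam F N) : cls (ng x) = cls x := by
  unfold cls clk ng
  refine Finset.image_congr ?_
  intro v _
  simp only
  rw [val_ng, ds_neg]

theorem Int_ng {T : Sys} {N : ℕ} {k : T.A → ZMod (N + 1)} (h : Int T k) :
    Int T (fun a => -(k a)) := by
  constructor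
  · intro v; rw [val_ng]; exact neg_ne_zero.mpr (h.1 v)
  · intro u v huv
    simp only [val_ng, ds_neg] at huv
    exact h.2 huv

theorem wt_ng {F : FS} {N : ℕ} (x : Lam F N) : wt (ng x) = wt x := by
  unfold wt
  by_cases h : Int (F.T x.1) x.2
  · rw [if_pos h, if_pos (show Int (F.T (ng x).1) (ng x).2 from Int_ng h)]; rfl
  · rw [if_neg h, if_neg]
    intro h2
    apply h
    have := Int_ng h2
    simpa [ng] using this

/-- Negation on tuples. -/
def ngt {F : FS} {N K : ℕ} (x : Fin K → Lam F N) : Fin K → Lam F N := fun i => ng (x i)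

theorem ngt_inv {F : FS} {N K : ℕ} : Function.Involutive (ngt (F := F) (N := N) (K := K)) := by
  intro x; funext i; exact ng_ng _

theorem frt_ngt {F : FS} {N K : ℕ} (x : Fin K → Lam F N) : frt (ngt x) = -frt x := by
  unfold frt ngt
  simp only [rt_ng, Finset.sum_neg_distrib]

/-! ### Fields -/

open Classical in
/-- Coefficient of a tuple. -/
noncomputable def cf (g : ℝ) (F : FS) (N K : ℕ) (G : Fin K → Fin K → Prop) (S : Finset ℕ)
    (x : Fin K → Lam F N) : ℝ :=
  (∏ i, wt (x i)) * (if GD G (fun i => cls (x i)) then ∏ i, ∏ d ∈ cls (x i), xi g S d else 0)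

theorem cf_ngt (g : ℝ) (F : FS) (N K : ℕ) (G : Fin K → Fin K → Prop) (S : Finset ℕ)
    (x : Fin K → Lam F N) : cf g F N K G S (ngt x) = cf g F N K G S x := by
  unfold cf ngt
  have h : (fun i => cls (ng (x i))) = fun i => cls (x i) := funext fun i => cls_ng _
  rw [h]
  simp only [wt_ng, cls_ng]

/-- General field. -/
noncomputable def gf (g : ℝ) (F : FS) (N K : ℕ) (G : Fin K → Fin K → Prop) (S : Finset ℕ)
    (j : ZMod (N + 1)) : ℝ :=
  ∑ x : Fin K → Lam F N, cf g F N K G S x * co (j * frt x)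

theorem gs_zero (g : ℝ) (F : FS) (N K : ℕ) (G : Fin K → Fin K → Prop) (S : Finset ℕ)
    (j : ZMod (N + 1)) : ∑ x : Fin K → Lam F N, cf g F N K G S x * si (j * frt x) = 0 := by
  have h1 : ∑ x : Fin K → Lam F N, cf g F N K G S x * si (j * frt x) =
      ∑ x : Fin K → Lam F N, cf g F N K G S (ngt x) * si (j * frt (ngt x)) :=
    (Equiv.sum_comp (Function.Involutive.toPerm _ (ngt_inv (F := F) (N := N) (K := K)))
      (fun x => cf g F N K G S x * si (j * frt x))).symm
  have h2 : ∑ x : Fin K → Lam F N, cf g F N K G S (ngt x) * si (j * frt (ngt x)) =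
      -∑ x : Fin K → Lam F N, cf g F N K G S x * si (j * frt x) := by
    rw [← Finset.sum_neg_distrib]
    refine Finset.sum_congr rfl fun x _ => ?_
    rw [cf_ngt, frt_ngt, mul_neg, si_neg]; ring
  linarith

/-- Expectation over the random set and the position. -/
noncomputable def EE (g : ℝ) (N : ℕ) (f : Finset ℕ → ZMod (N + 1) → ℝ) : ℝ :=
  Ex (Ud N) (pr g) (fun S => (∑ j, f S j) / ((N : ℝ) + 1))

theorem sum_co' {N : ℕ} (r : ZMod (N + 1)) :
    ∑ j : ZMod (N + 1), co (j * r) = if r = 0 then ((N : ℝ) + 1) else 0 := by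
  rw [← sum_co r]
  exact Finset.sum_congr rfl fun j _ => by rw [mul_comm]

theorem EE_gf {g : ℝ} (F : FS) (N K : ℕ) (G : Fin K → Fin K → Prop) :
    EE g N (gf g F N K G) = Wg g F N K G := by
  classical
  have h1 : ∀ S, (∑ j, gf g F N K G S j) / ((N : ℝ) + 1) =
      ∑ x : Fin K → Lam F N, (if frt x = 0 then 1 else 0) * cf g F N K G S x := by
    intro S
    unfold gf
    rw [Finset.sum_comm, Finset.sum_div]
    refine Finset.sum_congr rfl fun x _ => ?_
    rw [← Finset.mul_sum, sum_co']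
    have : ((N : ℝ) + 1) ≠ 0 := by positivity
    split_ifs
    · field_simp
    · simp
  unfold EE Wg
  simp only [h1]
  rw [Ex_sum]
  refine Finset.sum_congr rfl fun x _ => ?_
  rw [Ex_smul]
  unfold cf
  rw [Ex_smul]
  by_cases hx : ∀ i, wt (x i) ≠ 0
  · by_cases h2 : GD G (fun i => cls (x i))
    · by_cases h3 : frt x = 0
      · rw [if_pos h3, if_pos ⟨h2, h3⟩]
        simp only [if_pos h2]
        rw [Ex_mom g fun i => cls_sub (hx i)]; ring
      · rw [if_neg h3, if_neg (show ¬ (GD G (fun i => cls (x i)) ∧ frt x = 0) from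
          fun h => h3 h.2)]; ring
    · simp only [if_neg h2]
      rw [if_neg (show ¬ (GD G (fun i => cls (x i)) ∧ frt x = 0) from
        fun h => h2 h.1), Ex_const]; ring
  · push Not at hx
    obtain ⟨i, hi⟩ := hx
    rw [Finset.prod_eq_zero (Finset.mem_univ i) hi]; ring

theorem GD_append {p q : ℕ} {G : Fin (p + q) → Fin (p + q) → Prop}
    {G1 : Fin p → Fin p → Prop} {G2 : Fin q → Fin q → Prop}
    (h1 : ∀ i j, G (Fin.castAdd q i) (Fin.castAdd q j) ↔ G1 i j)
    (h2 : ∀ i j, G (Fin.natAdd p i) (Fin.natAdd p j) ↔ G2 i j)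
    (h3 : ∀ i j, ¬ G (Fin.castAdd q i) (Fin.natAdd p j))
    (h4 : ∀ i j, ¬ G (Fin.natAdd p i) (Fin.castAdd q j))
    (c : Fin (p + q) → Finset ℕ) :
    GD G c ↔ GD G1 (fun i => c (Fin.castAdd q i)) ∧ GD G2 (fun i => c (Fin.natAdd p i)) := by
  constructor
  · intro h
    refine ⟨fun i j hij hG => h _ _ (fun h5 => hij ?_) ((h1 i j).mpr hG),
      fun i j hij hG => h _ _ (fun h5 => hij ?_) ((h2 i j).mpr hG)⟩
    · exact Fin.castAdd_injective _ _ h5
    · exact Fin.natAdd_injective _ _ h5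
  · rintro ⟨a1, a2⟩ i j hij hG
    revert hij hG
    refine Fin.addCases (fun i => ?_) (fun i => ?_) i <;>
      refine Fin.addCases (fun j => ?_) (fun j => ?_) j
    · intro hij hG
      exact a1 i j (fun h => hij (by rw [h])) ((h1 i j).mp hG)
    · intro _ hG; exact absurd hG (h3 i j)
    · intro _ hG; exact absurd hG (h4 i j)
    · intro hij hG
      exact a2 i j (fun h => hij (by rw [h])) ((h2 i j).mp hG)

theorem gf_mul (g : ℝ) (F : FS) (N : ℕ) {p q : ℕ} {G : Fin (p + q) → Fin (p + q) → Prop}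
    {G1 : Fin p → Fin p → Prop} {G2 : Fin q → Fin q → Prop}
    (h1 : ∀ i j, G (Fin.castAdd q i) (Fin.castAdd q j) ↔ G1 i j)
    (h2 : ∀ i j, G (Fin.natAdd p i) (Fin.natAdd p j) ↔ G2 i j)
    (h3 : ∀ i j, ¬ G (Fin.castAdd q i) (Fin.natAdd p j))
    (h4 : ∀ i j, ¬ G (Fin.natAdd p i) (Fin.castAdd q j))
    (S : Finset ℕ) (j : ZMod (N + 1)) :
    gf g F N (p + q) G S j = gf g F N p G1 S j * gf g F N q G2 S j := by
  classical
  have e1 : gf g F N (p + q) G S j = ∑ x : Fin p → Lam F N, ∑ y : Fin q → Lam F N,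
      cf g F N p G1 S x * cf g F N q G2 S y * co (j * frt x + j * frt y) := by
    unfold gf
    rw [← (Fin.appendEquiv (α := Lam F N) p q).sum_comp, Fintype.sum_prod_type]
    refine Finset.sum_congr rfl fun x _ => Finset.sum_congr rfl fun y _ => ?_
    have e2 : (Fin.appendEquiv (α := Lam F N) p q) (x, y) = Fin.append x y := rfl
    rw [e2]
    have e3 : frt (Fin.append x y) = frt x + frt y := by
      unfold frt; rw [Fin.sum_univ_add]; simp
    have e4 : cf g F N (p + q) G S (Fin.append x y) =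
        cf g F N p G1 S x * cf g F N q G2 S y := by
      unfold cf
      have e5 := GD_append h1 h2 h3 h4 (fun i => cls (Fin.append x y i))
      simp only [Fin.append_left, Fin.append_right] at e5
      rw [Fin.prod_univ_add, Fin.prod_univ_add]
      simp only [Fin.append_left, Fin.append_right]
      by_cases a1 : GD G1 (fun i => cls (x i))
      · by_cases a2 : GD G2 (fun i => cls (y i))
        · rw [if_pos (e5.mpr ⟨a1, a2⟩), if_pos a1, if_pos a2]; ring
        · rw [if_neg (fun h => a2 (e5.mp h).2), if_neg a2]; ring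
      · rw [if_neg (fun h => a1 (e5.mp h).1), if_neg a1]; ring
    rw [e3, e4, mul_add]
  rw [e1]
  have e6 : ∀ x : Fin p → Lam F N, ∑ y : Fin q → Lam F N,
      cf g F N p G1 S x * cf g F N q G2 S y * co (j * frt x + j * frt y) =
      cf g F N p G1 S x * co (j * frt x) * gf g F N q G2 S j := by
    intro x
    have e7 : ∀ y : Fin q → Lam F N,
        cf g F N p G1 S x * cf g F N q G2 S y * co (j * frt x + j * frt y) =
        cf g F N p G1 S x * co (j * frt x) * (cf g F N q G2 S y * co (j * frt y)) -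
        cf g F N p G1 S x * si (j * frt x) * (cf g F N q G2 S y * si (j * frt y)) := by
      intro y; rw [co_add]; ring
    simp only [e7]
    rw [Finset.sum_sub_distrib, ← Finset.mul_sum, ← Finset.mul_sum, gs_zero, mul_zero, sub_zero]
    rfl
  simp only [e6]
  rw [← Finset.sum_mul]
  rfl

/-- The field of a formal sum. -/
noncomputable def zf (g : ℝ) (F : FS) (N : ℕ) (S : Finset ℕ) (j : ZMod (N + 1)) : ℝ :=
  ∑ x : Lam F N, wt x * (∏ d ∈ cls x, xi g S d) * co (j * rt x)

/-- Wick powers. -/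
noncomputable def wp (g : ℝ) (F : FS) (N p : ℕ) (S : Finset ℕ) (j : ZMod (N + 1)) : ℝ :=
  gf g F N p (fun _ _ => True) S j

theorem gf_one (g : ℝ) (F : FS) (N : ℕ) (G : Fin 1 → Fin 1 → Prop) (S : Finset ℕ)
    (j : ZMod (N + 1)) : gf g F N 1 G S j = zf g F N S j := by
  classical
  unfold gf zf
  rw [← (Equiv.funUnique (Fin 1) (Lam F N)).symm.sum_comp]
  refine Finset.sum_congr rfl fun x _ => ?_
  unfold cf frt
  have h : GD G (fun i => cls ((Equiv.funUnique (Fin 1) (Lam F N)).symm x i)) := by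
    intro i j hij; exact absurd (Subsingleton.elim _ _) hij
  rw [if_pos h]
  simp

theorem gf_zero (g : ℝ) (F : FS) (N : ℕ) (G : Fin 0 → Fin 0 → Prop) (S : Finset ℕ)
    (j : ZMod (N + 1)) : gf g F N 0 G S j = 1 := by
  classical
  unfold gf
  rw [Fintype.sum_unique]
  unfold cf frt
  have h : GD G (fun i => cls ((default : Fin 0 → Lam F N) i)) := fun i => i.elim0
  rw [if_pos h]
  simp [co_zero]

theorem gf_false (g : ℝ) (F : FS) (N q : ℕ) (S : Finset ℕ) (j : ZMod (N + 1)) :
    gf g F N q (fun _ _ => False) S j = zf g F N S j ^ q := by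
  induction q with
  | zero => rw [gf_zero, pow_zero]
  | succ q ih =>
    rw [gf_mul g F N (p := q) (q := 1) (G := fun _ _ => False) (G1 := fun _ _ => False)
      (G2 := fun _ _ => False) (by simp) (by simp) (by simp) (by simp), ih, gf_one, pow_succ]

theorem wp_mul_z (g : ℝ) (F : FS) (N p q : ℕ) (S : Finset ℕ) (j : ZMod (N + 1)) :
    gf g F N (p + q) (Gf false p (p + q)) S j = wp g F N p S j * zf g F N S j ^ q := by
  rw [← gf_false]
  refine gf_mul g F N ?_ ?_ ?_ ?_ S j
  · intro i j; unfold Gf; simp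
  · intro i j; unfold Gf; simp
  · intro i j; unfold Gf; simp
  · intro i j; unfold Gf; simp

theorem wp_mul_wp (g : ℝ) (F : FS) (N p q : ℕ) (S : Finset ℕ) (j : ZMod (N + 1)) :
    gf g F N (p + q) (Gf true p (p + q)) S j = wp g F N p S j * wp g F N q S j := by
  refine gf_mul g F N ?_ ?_ ?_ ?_ S j
  · intro i j; unfold Gf; simp
  · intro i j; unfold Gf; simp
  · intro i j; unfold Gf; simp
  · intro i j; unfold Gf; simp

/-! ### Properties of the expectation -/

theorem EE_add (g : ℝ) (N : ℕ) (f h : Finset ℕ → ZMod (N + 1) → ℝ) :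
    EE g N (fun S j => f S j + h S j) = EE g N f + EE g N h := by
  unfold EE
  rw [← Ex_add]
  refine Ex_congr fun S _ => ?_
  rw [Finset.sum_add_distrib, add_div]

theorem EE_smul (g : ℝ) (N : ℕ) (c : ℝ) (f : Finset ℕ → ZMod (N + 1) → ℝ) :
    EE g N (fun S j => c * f S j) = c * EE g N f := by
  unfold EE
  rw [← Ex_smul]
  refine Ex_congr fun S _ => ?_
  rw [← Finset.mul_sum, mul_div_assoc]

theorem EE_sum {ι : Type} (g : ℝ) (N : ℕ) (s : Finset ι)
    (f : ι → Finset ℕ → ZMod (N + 1) → ℝ) :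
    EE g N (fun S j => ∑ i ∈ s, f i S j) = ∑ i ∈ s, EE g N (f i) := by
  classical
  induction s using Finset.induction_on with
  | empty =>
    simp only [Finset.sum_empty]
    have := EE_smul g N 0 (fun _ _ => 0)
    simpa using this
  | insert a s ha ih =>
    simp only [Finset.sum_insert ha]
    rw [EE_add, ih]

theorem EE_mono {g : ℝ} {N : ℕ} {f h : Finset ℕ → ZMod (N + 1) → ℝ}
    (hfh : ∀ S, S ⊆ Ud N → ∀ j, f S j ≤ h S j) : EE g N f ≤ EE g N h := by
  unfold EE
  refine Ex_mono (pr_nonneg g) (pr_le g) fun S hS => ?_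
  exact div_le_div_of_nonneg_right (Finset.sum_le_sum fun j _ => hfh S hS j) (by positivity)

theorem EE_congr {g : ℝ} {N : ℕ} {f h : Finset ℕ → ZMod (N + 1) → ℝ}
    (hfh : ∀ S j, f S j = h S j) : EE g N f = EE g N h := by
  have : f = h := by funext S j; exact hfh S j
  rw [this]

theorem EE_const (g : ℝ) (N : ℕ) (c : ℝ) : EE g N (fun _ _ => c) = c := by
  unfold EE
  have h : (∑ _j : ZMod (N + 1), c) / ((N : ℝ) + 1) = c := by
    rw [Finset.sum_const, Finset.card_univ, ZMod.card, nsmul_eq_mul]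
    have : ((N : ℝ) + 1) ≠ 0 := by positivity
    push_cast
    field_simp
  beta_reduce
  rw [h]
  exact Ex_const _ _ _

theorem EE_nonneg {g : ℝ} {N : ℕ} {f : Finset ℕ → ZMod (N + 1) → ℝ}
    (hf : ∀ S, S ⊆ Ud N → ∀ j, 0 ≤ f S j) : 0 ≤ EE g N f := by
  have := EE_mono (g := g) (f := fun _ _ => 0) hf
  rwa [EE_const] at this

theorem tendsto_wp_z {g : ℝ} (hg : 1 ≤ g) (F : FS) (hF : Tendsto (cN F) atTop (𝓝 1))
    (p q : ℕ) : Tendsto (fun N => EE g N (fun S j => wp g F N p S j * zf g F N S j ^ q)) atTop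
      (𝓝 (Lf false p q)) := by
  refine (tendsto_Wg hg F hF false (p + q) p q rfl).congr fun N => ?_
  rw [← EE_gf]
  exact EE_congr fun S j => wp_mul_z g F N p q S j

theorem tendsto_wp_wp {g : ℝ} (hg : 1 ≤ g) (F : FS) (hF : Tendsto (cN F) atTop (𝓝 1))
    (p q : ℕ) : Tendsto (fun N => EE g N (fun S j => wp g F N p S j * wp g F N q S j)) atTop
      (𝓝 (Lf true p q)) := by
  refine (tendsto_Wg hg F hF true (p + q) p q rfl).congr fun N => ?_
  rw [← EE_gf]
  exact EE_congr fun S j => wp_mul_wp g F N p q S j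

theorem Lf_true (p q : ℕ) : Lf true p q = if p = q then (p.factorial : ℝ) else 0 := by
  induction p generalizing q with
  | zero =>
    rcases q with _ | _ | q
    · simp [Lf]
    · simp [Lf]
    · simp [Lf]
  | succ p ih =>
    rcases q with _ | q
    · simp [Lf]
    · simp only [Lf, ih]
      by_cases h : p = q
      · subst h
        simp only [if_true]
        rw [Nat.factorial_succ]; push_cast; ring
      · have : ¬ (p + 1 = q + 1) := by omega
        rw [if_neg h, if_neg this, mul_zero]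

end Pool.Agent.H90.TF
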