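import Mathlib
import Pool.Agent.H90.TFFld

set_option autoImplicit false

namespace Pool.Agent.H90.TF

open Finset Pool.Agent.H90.Round Pool.Agent.H90.Bern Pool.Agent.H90.Four Filter Topology
open Polynomial (C X derivative monomial)

/-- Hermite polynomials. -/
noncomputable def He : ℕ → Polynomial ℝ
  | 0 => 1
  | 1 => X
  | (p + 2) => X * He (p + 1) - C ((p : ℝ) + 1) * He p

theorem He_succ (p : ℕ) : He (p + 2) = X * He (p + 1) - C ((p : ℝ) + 1) * He p := rfl

theorem deriv_He (p : ℕ) : derivative (He (p + 1)) = C ((p : ℝ) + 1) * He p := by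
  induction p using Nat.twoStepInduction with
  | zero => simp [He]
  | one =>
    rw [He_succ]
    simp [He]
    ring_nf
  | more p ih0 ih1 =>
    rw [He_succ (p + 1)]
    simp only [Polynomial.derivative_sub, Polynomial.derivative_mul, Polynomial.derivative_X,
      Polynomial.derivative_C, ih0, ih1, one_mul, zero_mul, zero_add]
    have h1 : He (p + 1 + 1) = X * He (p + 1) - C ((p : ℝ) + 1) * He p := He_succ p
    rw [h1]
    simp only [Polynomial.C_add, Polynomial.C_1]
    push_cast
    simp only [Polynomial.C_add, Polynomial.C_1, map_ofNat]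
    ring

/-- Limit functionals. -/
noncomputable def ell (p : ℕ) : Polynomial ℝ →ₗ[ℝ] ℝ :=
  Polynomial.lsum fun q => (Lf false p q) • LinearMap.id

theorem ell_monomial (p q : ℕ) (a : ℝ) : ell p (monomial q a) = a * Lf false p q := by
  unfold ell
  rw [Polynomial.lsum_apply, Polynomial.sum_monomial_index]
  · simp [mul_comm]
  · simp

theorem ell_succ (p : ℕ) (R : Polynomial ℝ) : ell (p + 1) R = ell p (derivative R) := by
  have h : ell (p + 1) = (ell p).comp Polynomial.derivative := by
    apply Polynomial.lhom_ext'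
    intro k
    ext
    simp only [LinearMap.coe_comp, Function.comp_apply, ell_monomial,
      Polynomial.derivative_monomial, one_mul]
    rcases k with _ | k
    · simp [Lf]
    · simp [Lf]
  rw [h]; rfl

theorem ell_X (R : Polynomial ℝ) : ell 0 (X * R) = ell 0 (derivative R) := by
  have h : (ell 0).comp (LinearMap.mulLeft ℝ (X : Polynomial ℝ)) =
      (ell 0).comp Polynomial.derivative := by
    apply Polynomial.lhom_ext'
    intro k
    ext
    simp only [LinearMap.coe_comp, Function.comp_apply, LinearMap.mulLeft_apply,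
      Polynomial.X_mul_monomial, ell_monomial, Polynomial.derivative_monomial, one_mul]
    rcases k with _ | k
    · simp [Lf]
    · simp [Lf]
  have := congrArg (fun L => L R) h
  exact this

theorem ell_C_mul (p : ℕ) (a : ℝ) (R : Polynomial ℝ) : ell p (C a * R) = a * ell p R := by
  rw [← Polynomial.smul_eq_C_mul, map_smul, smul_eq_mul]

theorem ell_He (p : ℕ) : ∀ R : Polynomial ℝ, ell 0 (He p * R) = ell p R := by
  induction p using Nat.twoStepInduction with
  | zero => intro R; simp [He]
  | one => intro R; rw [show He 1 = X from rfl, ell_X, ← ell_succ]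
  | more p ih0 ih1 =>
    intro R
    rw [He_succ, sub_mul, map_sub, mul_assoc, ell_X, Polynomial.derivative_mul, deriv_He,
      map_add, mul_assoc, ell_C_mul, ih0, ih1, ← ell_succ]
    ring

theorem ell_He_He (p : ℕ) : ∀ q : ℕ, ell p (He q) = if p = q then (p.factorial : ℝ) else 0 := by
  induction p with
  | zero =>
    intro q
    rcases q with _ | q
    · have h1 : ell 0 (1 : Polynomial ℝ) = 1 := by
        have := ell_monomial 0 0 1
        simpa [Lf] using this
      simp [He, h1]
    · have h1 := ell_He (q + 1) 1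
      rw [mul_one] at h1
      rw [h1, ell_succ]; simp
  | succ p ih =>
    intro q
    rw [ell_succ]
    rcases q with _ | q
    · simp [He]
    · rw [deriv_He, ell_C_mul, ih q]
      by_cases h : p = q
      · subst h
        simp only [if_true]
        rw [Nat.factorial_succ]; push_cast; ring
      · have : ¬ (p + 1 = q + 1) := by omega
        rw [if_neg h, if_neg this, mul_zero]

theorem tendsto_poly {g : ℝ} (hg : 1 ≤ g) (F : FS) (hF : Tendsto (cN F) atTop (𝓝 1))
    (p : ℕ) (R : Polynomial ℝ) :
    Tendsto (fun N => EE g N (fun S j => wp g F N p S j * R.eval (zf g F N S j))) atTop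
      (𝓝 (ell p R)) := by
  induction R using Polynomial.induction_on' with
  | add P Q hP hQ =>
    rw [map_add]
    refine (hP.add hQ).congr fun N => ?_
    rw [← EE_add]
    refine EE_congr fun S j => ?_
    rw [Polynomial.eval_add]; ring
  | monomial n a =>
    rw [ell_monomial]
    refine ((tendsto_wp_z hg F hF p n).const_mul a).congr fun N => ?_
    rw [← EE_smul]
    refine EE_congr fun S j => ?_
    rw [Polynomial.eval_monomial]; ring

theorem wp_zero (g : ℝ) (F : FS) (N : ℕ) (S : Finset ℕ) (j : ZMod (N + 1)) :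
    wp g F N 0 S j = 1 := gf_zero _ _ _ _ _ _

theorem tendsto_poly0 {g : ℝ} (hg : 1 ≤ g) (F : FS) (hF : Tendsto (cN F) atTop (𝓝 1))
    (R : Polynomial ℝ) :
    Tendsto (fun N => EE g N (fun S j => R.eval (zf g F N S j))) atTop (𝓝 (ell 0 R)) := by
  refine (tendsto_poly hg F hF 0 R).congr fun N => ?_
  refine EE_congr fun S j => ?_
  rw [wp_zero, one_mul]

/-- Wick powers are close to Hermite polynomials of the field. -/
theorem tendsto_wick {g : ℝ} (hg : 1 ≤ g) (F : FS) (hF : Tendsto (cN F) atTop (𝓝 1)) (p : ℕ) :
    Tendsto (fun N => EE g N (fun S j =>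
      (wp g F N p S j - (He p).eval (zf g F N S j)) ^ 2)) atTop (𝓝 0) := by
  have h1 := tendsto_wp_wp hg F hF p p
  have h2 := tendsto_poly hg F hF p (He p)
  have h3 := tendsto_poly0 hg F hF (He p * He p)
  rw [Lf_true, if_pos rfl] at h1
  rw [ell_He_He, if_pos rfl] at h2
  rw [ell_He, ell_He_He, if_pos rfl] at h3
  have h4 := (h1.add (h2.const_mul (-2))).add h3
  have e : (p.factorial : ℝ) + -2 * p.factorial + p.factorial = 0 := by ring
  rw [e] at h4
  refine h4.congr fun N => ?_
  rw [← EE_smul, ← EE_add, ← EE_add]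
  refine EE_congr fun S j => ?_
  rw [Polynomial.eval_mul]; ring

/-- Positivity of the limit functional. -/
theorem ell_nonneg {g : ℝ} (hg : 1 ≤ g) (F : FS) (hF : Tendsto (cN F) atTop (𝓝 1))
    {R : Polynomial ℝ} (hR : ∀ x : ℝ, 0 ≤ R.eval x) : 0 ≤ ell 0 R :=
  ge_of_tendsto' (tendsto_poly0 hg F hF R) fun _ => EE_nonneg fun _ _ _ => hR _

end Pool.Agent.H90.TF
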