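import Mathlib
import Pool.Agent.H90.TFPoly

set_option autoImplicit false

namespace Pool.Agent.H90.TF

open Finset Filter Topology
open Polynomial (C X derivative monomial)

/-- Partial sums of the cosine series. -/
noncomputable def Tc (M : ℕ) (t : ℝ) : ℝ :=
  ∑ k ∈ range M, (-1) ^ k * t ^ (2 * k) / ((2 * k).factorial : ℝ)

/-- Partial sums of the sine series. -/
noncomputable def Ts (M : ℕ) (t : ℝ) : ℝ :=
  ∑ k ∈ range M, (-1) ^ k * t ^ (2 * k + 1) / ((2 * k + 1).factorial : ℝ)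

theorem deriv_Ts (M : ℕ) (t : ℝ) : HasDerivAt (Ts M) (Tc M t) t := by
  unfold Ts Tc
  refine HasDerivAt.fun_sum fun k _ => ?_
  have h1 := ((hasDerivAt_pow (2 * k + 1) t).const_mul ((-1) ^ k)).div_const
    ((2 * k + 1).factorial : ℝ)
  refine h1.congr_deriv ?_
  rw [Nat.factorial_succ]
  have : ((2 * k).factorial : ℝ) ≠ 0 := by positivity
  push_cast
  have h2 : (2 * (k : ℝ) + 1) ≠ 0 := by positivity
  field_simp

theorem deriv_Tc (M : ℕ) (t : ℝ) : HasDerivAt (Tc (M + 1)) (-Ts M t) t := by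
  have e : Tc (M + 1) = fun t => (∑ k ∈ range M, (-1) ^ (k + 1) * t ^ (2 * (k + 1)) /
      ((2 * (k + 1)).factorial : ℝ)) + 1 := by
    funext t
    unfold Tc
    rw [Finset.sum_range_succ']
    simp
  rw [e]
  have h0 : -Ts M t = (∑ k ∈ range M, (-1) ^ (k + 1) * t ^ (2 * k + 1) /
      ((2 * k + 1).factorial : ℝ)) + 0 := by
    unfold Ts
    rw [← Finset.sum_neg_distrib, add_zero]
    refine Finset.sum_congr rfl fun k _ => ?_
    rw [pow_succ]; ring
  rw [h0]
  refine HasDerivAt.add (HasDerivAt.fun_sum fun k _ => ?_) (hasDerivAt_const t 1)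
  have h1 := ((hasDerivAt_pow (2 * (k + 1)) t).const_mul ((-1) ^ (k + 1))).div_const
    ((2 * (k + 1)).factorial : ℝ)
  refine h1.congr_deriv ?_
  have e1 : 2 * (k + 1) = (2 * k + 1) + 1 := by ring
  rw [e1, Nat.factorial_succ]
  have : ((2 * k + 1).factorial : ℝ) ≠ 0 := by positivity
  push_cast
  have h2 : (2 * (k : ℝ) + 1 + 1) ≠ 0 := by positivity
  field_simp

theorem Tc_bound (M : ℕ) : (∀ t : ℝ, 0 ≤ t → |Real.cos t - Tc M t| ≤
      t ^ (2 * M) / ((2 * M).factorial : ℝ)) ∧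
    (∀ t : ℝ, 0 ≤ t → |Real.sin t - Ts M t| ≤ t ^ (2 * M + 1) / ((2 * M + 1).factorial : ℝ)) := by
  have step1 : ∀ M : ℕ, (∀ t : ℝ, 0 ≤ t → |Real.cos t - Tc M t| ≤
      t ^ (2 * M) / ((2 * M).factorial : ℝ)) →
      (∀ t : ℝ, 0 ≤ t → |Real.sin t - Ts M t| ≤
        t ^ (2 * M + 1) / ((2 * M + 1).factorial : ℝ)) := by
    intro M h t ht
    have hd : ∀ x : ℝ, HasDerivAt (fun x => Real.sin x - Ts M x) (Real.cos x - Tc M x) x :=
      fun x => (Real.hasDerivAt_sin x).sub (deriv_Ts M x)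
    have hB : ∀ x : ℝ, HasDerivAt (fun x : ℝ => x ^ (2 * M + 1) / ((2 * M + 1).factorial : ℝ))
        (x ^ (2 * M) / ((2 * M).factorial : ℝ)) x := by
      intro x
      refine ((hasDerivAt_pow (2 * M + 1) x).div_const
        ((2 * M + 1).factorial : ℝ)).congr_deriv ?_
      rw [Nat.factorial_succ]
      have : ((2 * M).factorial : ℝ) ≠ 0 := by positivity
      push_cast
      have h2 : (2 * (M : ℝ) + 1) ≠ 0 := by positivity
      field_simp
    have key := image_norm_le_of_norm_deriv_right_le_deriv_boundary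
      (f := fun x => Real.sin x - Ts M x) (a := 0) (b := t)
      (fun x _ => (hd x).continuousAt.continuousWithinAt)
      (fun x _ => (hd x).hasDerivWithinAt)
      (B := fun x : ℝ => x ^ (2 * M + 1) / ((2 * M + 1).factorial : ℝ))
      (by simp [Ts]) hB (fun x hx => by
        rw [Real.norm_eq_abs]; exact h x hx.1) (Set.right_mem_Icc.mpr ht)
    simpa [Real.norm_eq_abs] using key
  have step2 : ∀ M : ℕ, (∀ t : ℝ, 0 ≤ t → |Real.sin t - Ts M t| ≤
        t ^ (2 * M + 1) / ((2 * M + 1).factorial : ℝ)) →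
      (∀ t : ℝ, 0 ≤ t → |Real.cos t - Tc (M + 1) t| ≤
      t ^ (2 * (M + 1)) / ((2 * (M + 1)).factorial : ℝ)) := by
    intro M h t ht
    have hd : ∀ x : ℝ, HasDerivAt (fun x => Real.cos x - Tc (M + 1) x)
        (-(Real.sin x - Ts M x)) x := by
      intro x
      refine ((Real.hasDerivAt_cos x).sub (deriv_Tc M x)).congr_deriv ?_
      ring
    have hB : ∀ x : ℝ, HasDerivAt (fun x : ℝ => x ^ (2 * (M + 1)) /
        ((2 * (M + 1)).factorial : ℝ)) (x ^ (2 * M + 1) / ((2 * M + 1).factorial : ℝ)) x := by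
      intro x
      refine ((hasDerivAt_pow (2 * (M + 1)) x).div_const
        ((2 * (M + 1)).factorial : ℝ)).congr_deriv ?_
      have e1 : 2 * (M + 1) = (2 * M + 1) + 1 := by ring
      rw [e1, Nat.factorial_succ]
      have : ((2 * M + 1).factorial : ℝ) ≠ 0 := by positivity
      push_cast
      have h2 : (2 * (M : ℝ) + 1 + 1) ≠ 0 := by positivity
      field_simp
    have h0 : Tc (M + 1) 0 = 1 := by
      unfold Tc
      rw [Finset.sum_range_succ']
      simp
    have key := image_norm_le_of_norm_deriv_right_le_deriv_boundary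
      (f := fun x => Real.cos x - Tc (M + 1) x) (a := 0) (b := t)
      (fun x _ => (hd x).continuousAt.continuousWithinAt)
      (fun x _ => (hd x).hasDerivWithinAt)
      (B := fun x : ℝ => x ^ (2 * (M + 1)) / ((2 * (M + 1)).factorial : ℝ))
      (by simp [h0]) hB (fun x hx => by
        rw [Real.norm_eq_abs, abs_neg]; exact h x hx.1) (Set.right_mem_Icc.mpr ht)
    simpa [Real.norm_eq_abs] using key
  induction M with
  | zero =>
    have h0 : ∀ t : ℝ, 0 ≤ t → |Real.cos t - Tc 0 t| ≤ t ^ (2 * 0) / ((2 * 0).factorial : ℝ) := by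
      intro t _
      simp [Tc, Real.abs_cos_le_one]
    exact ⟨h0, step1 0 h0⟩
  | succ M ih =>
    have h0 := step2 M ih.2
    exact ⟨h0, step1 (M + 1) h0⟩

theorem Tc_bound' (M : ℕ) (t : ℝ) : |Real.cos t - Tc M t| ≤
      t ^ (2 * M) / ((2 * M).factorial : ℝ) := by
  rcases le_total 0 t with h | h
  · exact (Tc_bound M).1 t h
  · have h1 := (Tc_bound M).1 (-t) (by linarith)
    have h2 : Tc M (-t) = Tc M t := by
      unfold Tc
      refine Finset.sum_congr rfl fun k _ => ?_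
      rw [Even.neg_pow (even_two_mul k)]
    rw [Real.cos_neg, h2, Even.neg_pow (even_two_mul M)] at h1
    exact h1

theorem hasSum_cos {x : ℝ} (hx : x ∈ Set.Icc (0 : ℝ) 1) :
    HasSum (fun n : ℕ => 1 / (n : ℝ) ^ 2 * Real.cos (2 * Real.pi * n * x))
      (Real.pi ^ 2 * (x ^ 2 - x + 1 / 6)) := by
  have h := hasSum_one_div_nat_pow_mul_cos (k := 1) one_ne_zero hx
  rw [mul_one] at h
  convert h using 1
  have e : (Polynomial.map (algebraMap ℚ ℝ) (Polynomial.bernoulli 2)).eval x =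
      x ^ 2 - x + 1 / 6 := by
    simp only [Polynomial.bernoulli, Finset.sum_range_succ, Finset.sum_range_zero,
      Polynomial.map_add, Polynomial.map_monomial, Polynomial.eval_add,
      Polynomial.eval_monomial, zero_add]
    rw [bernoulli_two, bernoulli_one, bernoulli_zero]
    norm_num
    ring
  rw [e, show ((Nat.factorial 2 : ℕ) : ℝ) = 2 by norm_num [Nat.factorial]]
  ring

/-- Tail of the zeta series. -/
noncomputable def ztail (K : ℕ) : ℝ := ∑' n : ℕ, 1 / ((n + K : ℕ) : ℝ) ^ 2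

theorem summ2 : Summable (fun n : ℕ => 1 / (n : ℝ) ^ 2) := hasSum_zeta_two.summable

theorem tendsto_ztail : Tendsto ztail atTop (𝓝 0) :=
  tendsto_sum_nat_add fun n : ℕ => 1 / (n : ℝ) ^ 2

/-- Truncated trigonometric approximation of the absolute value. -/
noncomputable def h1 (A : ℝ) (K : ℕ) (x : ℝ) : ℝ :=
  x ^ 2 / A + A / 6 - A / Real.pi ^ 2 *
    ∑ n ∈ range K, 1 / (n : ℝ) ^ 2 * Real.cos (2 * Real.pi * n * (x / A))

theorem h1_in {A : ℝ} (hA : 0 < A) (K : ℕ) {x : ℝ} (hx : |x| ≤ A) :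
    |(|x| - h1 A K x)| ≤ A / Real.pi ^ 2 * ztail K := by
  have hpi : Real.pi ^ 2 ≠ 0 := by positivity
  have hy : |x| / A ∈ Set.Icc (0 : ℝ) 1 := ⟨by positivity, by rw [div_le_one hA]; exact hx⟩
  have hs := hasSum_cos hy
  set f : ℕ → ℝ := fun n => 1 / (n : ℝ) ^ 2 * Real.cos (2 * Real.pi * n * (|x| / A)) with hf
  have hcos : ∀ n : ℕ, Real.cos (2 * Real.pi * n * (x / A)) =
      Real.cos (2 * Real.pi * n * (|x| / A)) := by
    intro n
    rcases abs_choice x with h | h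
    · rw [h]
    · rw [h, neg_div, mul_neg, Real.cos_neg]
  have h2 : ∑ n ∈ range K, 1 / (n : ℝ) ^ 2 * Real.cos (2 * Real.pi * n * (x / A)) =
      ∑ n ∈ range K, f n := Finset.sum_congr rfl fun n _ => by rw [hcos]
  have h3 : ∑ n ∈ range K, f n + ∑' n, f (n + K) = Real.pi ^ 2 * ((|x| / A) ^ 2 - |x| / A + 1 / 6)
      := by
    rw [hs.summable.sum_add_tsum_nat_add, hs.tsum_eq]
  have hsum2 : Summable (fun n : ℕ => 1 / ((n + K : ℕ) : ℝ) ^ 2) :=
    (summable_nat_add_iff (f := fun n : ℕ => 1 / (n : ℝ) ^ 2) K).mpr summ2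
  have h4 : |∑' n, f (n + K)| ≤ ztail K := by
    rw [← Real.norm_eq_abs]
    refine tsum_of_norm_bounded hsum2.hasSum fun n => ?_
    rw [hf]
    simp only
    rw [Real.norm_eq_abs, abs_mul, abs_of_nonneg (by positivity)]
    have := Real.abs_cos_le_one (2 * Real.pi * ((n + K : ℕ) : ℝ) * (|x| / A))
    have h5 : (0 : ℝ) ≤ 1 / ((n + K : ℕ) : ℝ) ^ 2 := by positivity
    nlinarith
  have h5 : |x| - h1 A K x = -(A / Real.pi ^ 2 * ∑' n, f (n + K)) := by
    unfold h1
    rw [h2]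
    have h6 : ∑ n ∈ range K, f n = Real.pi ^ 2 * ((|x| / A) ^ 2 - |x| / A + 1 / 6) -
      ∑' n, f (n + K) := by linarith
    rw [h6, div_pow, sq_abs]
    field_simp
    ring
  rw [h5, abs_neg, abs_mul, abs_of_nonneg (by positivity)]
  exact mul_le_mul_of_nonneg_left h4 (by positivity)

theorem sum_sq_le (K : ℕ) : ∑ n ∈ range K, 1 / (n : ℝ) ^ 2 ≤ Real.pi ^ 2 / 6 :=
  sum_le_hasSum _ (fun _ _ => by positivity) hasSum_zeta_two

theorem h1_out {A : ℝ} (hA : 0 < A) (K : ℕ) {x : ℝ} (hx : A ≤ |x|) :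
    |(|x| - h1 A K x)| ≤ 3 * x ^ 2 / A := by
  have hpi : 0 < Real.pi ^ 2 := by positivity
  have h2 : |∑ n ∈ range K, 1 / (n : ℝ) ^ 2 * Real.cos (2 * Real.pi * n * (x / A))| ≤
      Real.pi ^ 2 / 6 := by
    refine (Finset.abs_sum_le_sum_abs _ _).trans (le_trans ?_ (sum_sq_le K))
    refine Finset.sum_le_sum fun n _ => ?_
    rw [abs_mul, abs_of_nonneg (by positivity)]
    have := Real.abs_cos_le_one (2 * Real.pi * n * (x / A))
    have h5 : (0 : ℝ) ≤ 1 / (n : ℝ) ^ 2 := by positivity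
    nlinarith
  set s := ∑ n ∈ range K, 1 / (n : ℝ) ^ 2 * Real.cos (2 * Real.pi * n * (x / A)) with hs
  have h3 : |A / Real.pi ^ 2 * s| ≤ A / 6 := by
    rw [abs_mul, abs_of_nonneg (by positivity)]
    calc A / Real.pi ^ 2 * |s| ≤ A / Real.pi ^ 2 * (Real.pi ^ 2 / 6) :=
          mul_le_mul_of_nonneg_left h2 (by positivity)
      _ = A / 6 := by field_simp
  have hx2 : x ^ 2 = |x| ^ 2 := (sq_abs x).symm
  have h4 : |x| ≤ x ^ 2 / A := by
    rw [le_div_iff₀ hA, hx2]; nlinarith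
  have h5 : A ≤ x ^ 2 / A := by
    rw [le_div_iff₀ hA, hx2]; nlinarith
  have h6 : 0 ≤ |x| := abs_nonneg x
  have h7 : 3 * x ^ 2 / A = 3 * (x ^ 2 / A) := by ring
  unfold h1
  rw [← hs, h7]
  rw [abs_le] at h3 ⊢
  constructor <;> linarith [h3.1, h3.2]

theorem h1_all {A : ℝ} (hA : 0 < A) (K : ℕ) (x : ℝ) :
    (|x| - h1 A K x) ^ 2 ≤ (A / Real.pi ^ 2 * ztail K) ^ 2 + 9 * x ^ 4 / A ^ 2 := by
  rcases le_total (|x|) A with h | h
  · have h2 := sq_le_sq' (abs_le.mp (h1_in hA K h)).1 (abs_le.mp (h1_in hA K h)).2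
    have : 0 ≤ 9 * x ^ 4 / A ^ 2 := by positivity
    linarith
  · have h2 := sq_le_sq' (abs_le.mp (h1_out hA K h)).1 (abs_le.mp (h1_out hA K h)).2
    have h3 : (3 * x ^ 2 / A) ^ 2 = 9 * x ^ 4 / A ^ 2 := by
      field_simp; ring
    have : 0 ≤ (A / Real.pi ^ 2 * ztail K) ^ 2 := by positivity
    linarith

/-- Polynomial approximation of the absolute value. -/
noncomputable def hp (A : ℝ) (K M : ℕ) : Polynomial ℝ :=
  C (1 / A) * X ^ (2 * 1) + C (A / 6) * X ^ (2 * 0) - C (A / Real.pi ^ 2) *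
    ∑ n ∈ range K, C (1 / (n : ℝ) ^ 2) * ∑ k ∈ range M,
      C ((-1) ^ k * (2 * Real.pi * n / A) ^ (2 * k) / ((2 * k).factorial : ℝ)) * X ^ (2 * k)

theorem hp_eval (A : ℝ) (K M : ℕ) (x : ℝ) : (hp A K M).eval x =
    x ^ 2 / A + A / 6 - A / Real.pi ^ 2 *
      ∑ n ∈ range K, 1 / (n : ℝ) ^ 2 * Tc M (2 * Real.pi * n * (x / A)) := by
  unfold hp
  have e1 : ∀ n : ℕ, (∑ k ∈ range M,
      C ((-1) ^ k * (2 * Real.pi * n / A) ^ (2 * k) / ((2 * k).factorial : ℝ)) *
        (X : Polynomial ℝ) ^ (2 * k)).eval x = Tc M (2 * Real.pi * n * (x / A)) := by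
    intro n
    rw [Polynomial.eval_finsetSum]
    unfold Tc
    refine Finset.sum_congr rfl fun k _ => ?_
    rw [Polynomial.eval_C_mul, Polynomial.eval_pow, Polynomial.eval_X]
    have : 2 * Real.pi * n * (x / A) = (2 * Real.pi * n / A) * x := by ring
    rw [this, mul_pow]; ring
  have e2 : (∑ n ∈ range K, C (1 / (n : ℝ) ^ 2) * ∑ k ∈ range M,
      C ((-1) ^ k * (2 * Real.pi * n / A) ^ (2 * k) / ((2 * k).factorial : ℝ)) *
        (X : Polynomial ℝ) ^ (2 * k)).eval x =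
      ∑ n ∈ range K, 1 / (n : ℝ) ^ 2 * Tc M (2 * Real.pi * n * (x / A)) := by
    rw [Polynomial.eval_finsetSum]
    refine Finset.sum_congr rfl fun n _ => ?_
    rw [Polynomial.eval_C_mul, e1]
  rw [Polynomial.eval_sub, Polynomial.eval_add, Polynomial.eval_C_mul, Polynomial.eval_C_mul,
    Polynomial.eval_C_mul, e2, Polynomial.eval_pow, Polynomial.eval_X,
    Polynomial.eval_pow, Polynomial.eval_X]
  ring

theorem hp_close {A : ℝ} (hA : 0 < A) (K M : ℕ) (x : ℝ) :
    |h1 A K x - (hp A K M).eval x| ≤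
      A / 6 * ((2 * Real.pi * K / A) ^ (2 * M) / ((2 * M).factorial : ℝ)) * x ^ (2 * M) := by
  have hpi : 0 < Real.pi ^ 2 := by positivity
  rw [hp_eval]
  unfold h1
  have e1 : x ^ 2 / A + A / 6 - A / Real.pi ^ 2 *
      ∑ n ∈ range K, 1 / (n : ℝ) ^ 2 * Real.cos (2 * Real.pi * n * (x / A)) -
      (x ^ 2 / A + A / 6 - A / Real.pi ^ 2 *
      ∑ n ∈ range K, 1 / (n : ℝ) ^ 2 * Tc M (2 * Real.pi * n * (x / A))) =
      -(A / Real.pi ^ 2 * ∑ n ∈ range K, 1 / (n : ℝ) ^ 2 *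
        (Real.cos (2 * Real.pi * n * (x / A)) - Tc M (2 * Real.pi * n * (x / A)))) := by
    simp only [mul_sub, Finset.sum_sub_distrib]
    ring
  rw [e1, abs_neg, abs_mul, abs_of_nonneg (by positivity)]
  set B : ℝ := (2 * Real.pi * K / A) ^ (2 * M) / ((2 * M).factorial : ℝ) * x ^ (2 * M) with hB
  have hxe : 0 ≤ x ^ (2 * M) := by rw [pow_mul]; positivity
  have hB0 : 0 ≤ B := by positivity
  have h2 : |∑ n ∈ range K, 1 / (n : ℝ) ^ 2 *
        (Real.cos (2 * Real.pi * n * (x / A)) - Tc M (2 * Real.pi * n * (x / A)))| ≤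
      (Real.pi ^ 2 / 6) * B := by
    refine (Finset.abs_sum_le_sum_abs _ _).trans ?_
    refine le_trans ?_ (mul_le_mul_of_nonneg_right (sum_sq_le K) hB0)
    rw [Finset.sum_mul]
    refine Finset.sum_le_sum fun n hn => ?_
    rw [abs_mul, abs_of_nonneg (by positivity)]
    refine mul_le_mul_of_nonneg_left ?_ (by positivity)
    refine (Tc_bound' M _).trans ?_
    have e2 : 2 * Real.pi * n * (x / A) = (2 * Real.pi * n / A) * x := by ring
    rw [e2, mul_pow, hB, mul_div_right_comm]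
    refine mul_le_mul_of_nonneg_right ?_ hxe
    refine div_le_div_of_nonneg_right ?_ (by positivity)
    refine pow_le_pow_left₀ (by positivity) ?_ _
    refine div_le_div_of_nonneg_right ?_ hA.le
    have : (n : ℝ) ≤ K := by exact_mod_cast (Finset.mem_range.mp hn).le
    have := Real.pi_pos
    nlinarith
  calc A / Real.pi ^ 2 * _ ≤ A / Real.pi ^ 2 * ((Real.pi ^ 2 / 6) * B) :=
        mul_le_mul_of_nonneg_left h2 (by positivity)
    _ = _ := by rw [hB]; field_simp

theorem Lf_even (j : ℕ) : 0 ≤ Lf false 0 (2 * j) ∧ Lf false 0 (2 * j) ≤ 2 ^ j * (j.factorial : ℝ)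
    := by
  induction j with
  | zero => simp [Lf]
  | succ j ih =>
    have e : 2 * (j + 1) = 2 * j + 2 := by ring
    rw [e]
    simp only [Lf]
    rw [Nat.factorial_succ, pow_succ]
    push_cast
    constructor
    · exact mul_nonneg (by positivity) ih.1
    · have h0 : (0 : ℝ) ≤ j := Nat.cast_nonneg j
      have h2 : (0 : ℝ) ≤ 2 ^ j * (j.factorial : ℝ) := by positivity
      nlinarith [ih.1, ih.2]

/-- Span of the even Hermite polynomials. -/
noncomputable def EvS : Submodule ℝ (Polynomial ℝ) :=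
  Submodule.span ℝ (Set.range fun i : ℕ => He (2 * i))

theorem X2_mem {R : Polynomial ℝ} (hR : R ∈ EvS) : X ^ 2 * R ∈ EvS := by
  unfold EvS at *
  induction hR using Submodule.span_induction with
  | mem x hx =>
    obtain ⟨i, rfl⟩ := hx
    rcases i with _ | i
    · have : X ^ 2 * He (2 * 0) = He (2 * 1) + He (2 * 0) := by
        simp [He]; ring
      simp only
      rw [this]
      exact Submodule.add_mem _ (Submodule.subset_span ⟨1, rfl⟩) (Submodule.subset_span ⟨0, rfl⟩)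
    · have e : X ^ 2 * He (2 * (i + 1)) = He (2 * (i + 2)) +
          ((4 * (i : ℝ) + 5) • He (2 * (i + 1)) +
          ((2 * (i : ℝ) + 2) * (2 * i + 1)) • He (2 * i)) := by
        have a1 : He (2 * (i + 2)) = X * He (2 * i + 3) - C (((2 * i + 2 : ℕ) : ℝ) + 1) *
            He (2 * i + 2) := He_succ (2 * i + 2)
        have a2 : He (2 * i + 3) = X * He (2 * i + 2) - C (((2 * i + 1 : ℕ) : ℝ) + 1) *
            He (2 * i + 1) := He_succ (2 * i + 1)
        have a3 : He (2 * i + 2) = X * He (2 * i + 1) - C (((2 * i : ℕ) : ℝ) + 1) *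
            He (2 * i) := He_succ (2 * i)
        have a4 : 2 * (i + 1) = 2 * i + 2 := by ring
        rw [a4, a1, a2, Polynomial.smul_eq_C_mul, Polynomial.smul_eq_C_mul]
        have a5 : X * He (2 * i + 1) = He (2 * i + 2) + C (((2 * i : ℕ) : ℝ) + 1) *
            He (2 * i) := by rw [a3]; ring
        have a6 : X * (X * He (2 * i + 2) - C (((2 * i + 1 : ℕ) : ℝ) + 1) * He (2 * i + 1)) =
            X ^ 2 * He (2 * i + 2) - C (((2 * i + 1 : ℕ) : ℝ) + 1) * (He (2 * i + 2) +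
            C (((2 * i : ℕ) : ℝ) + 1) * He (2 * i)) := by rw [← a5]; ring
        rw [a6]
        push_cast
        simp only [Polynomial.C_add, Polynomial.C_mul, Polynomial.C_1, map_ofNat]
        ring
      simp only
      rw [e]
      exact Submodule.add_mem _ (Submodule.subset_span ⟨i + 2, rfl⟩)
        (Submodule.add_mem _ (Submodule.smul_mem _ _ (Submodule.subset_span ⟨i + 1, rfl⟩))
          (Submodule.smul_mem _ _ (Submodule.subset_span ⟨i, rfl⟩)))
  | zero => rw [mul_zero]; exact Submodule.zero_mem _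
  | add x y _ _ hx hy => rw [mul_add]; exact Submodule.add_mem _ hx hy
  | smul a x _ hx => rw [mul_smul_comm]; exact Submodule.smul_mem _ _ hx

theorem pow_mem (k : ℕ) : (X ^ (2 * k) : Polynomial ℝ) ∈ EvS := by
  induction k with
  | zero =>
    have : (X ^ (2 * 0) : Polynomial ℝ) = He (2 * 0) := by simp [He]
    rw [this]
    exact Submodule.subset_span ⟨0, rfl⟩
  | succ k ih =>
    have : (X ^ (2 * (k + 1)) : Polynomial ℝ) = X ^ 2 * X ^ (2 * k) := by ring
    rw [this]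
    exact X2_mem ih

theorem C_mem {R : Polynomial ℝ} (a : ℝ) (h : R ∈ EvS) : C a * R ∈ EvS := by
  rw [← Polynomial.smul_eq_C_mul]; exact Submodule.smul_mem _ _ h

theorem hp_mem (A : ℝ) (K M : ℕ) : hp A K M ∈ EvS := by
  unfold hp
  refine Submodule.sub_mem _ (Submodule.add_mem _ (C_mem _ (pow_mem 1)) (C_mem _ (pow_mem 0)))
    (C_mem _ ?_)
  refine Submodule.sum_mem _ fun n _ => C_mem _ ?_
  exact Submodule.sum_mem _ fun k _ => C_mem _ (pow_mem k)

theorem mem_EvS {R : Polynomial ℝ} (h : R ∈ EvS) : ∃ (D : ℕ) (c : ℕ → ℝ),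
    R = ∑ i ∈ range (D + 1), c i • He (2 * i) := by
  unfold EvS at h
  rw [Finsupp.mem_span_range_iff_exists_finsupp] at h
  obtain ⟨c, hc⟩ := h
  refine ⟨c.support.sup id, c, ?_⟩
  rw [← hc, Finsupp.sum]
  apply Finset.sum_subset
  · intro i hi
    rw [Finset.mem_range]
    have := Finset.le_sup (f := id) hi
    simp only [id] at this
    omega
  · intro i _ hi
    rw [Finsupp.notMem_support_iff.mp hi, zero_smul]

/-- The approximation lemma. -/
theorem approx {ε : ℝ} (hε : 0 < ε) : ∃ (D : ℕ) (c : ℕ → ℝ) (Q : Polynomial ℝ),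
    (∀ x : ℝ, (|x| - (∑ i ∈ range (D + 1), c i • He (2 * i)).eval x) ^ 2 ≤ Q.eval x) ∧
    ell 0 Q ≤ ε := by
  obtain ⟨A, hA0, hA⟩ : ∃ A : ℝ, 0 < A ∧ 54 / A ^ 2 ≤ ε / 3 := by
    refine ⟨Real.sqrt (162 / ε), Real.sqrt_pos.mpr (by positivity), ?_⟩
    rw [Real.sq_sqrt (by positivity)]
    apply le_of_eq
    field_simp
    norm_num
  obtain ⟨K, hK⟩ : ∃ K : ℕ, 2 * (A / Real.pi ^ 2 * ztail K) ^ 2 ≤ ε / 3 := by
    have h1 : Tendsto (fun K => 2 * (A / Real.pi ^ 2 * ztail K) ^ 2) atTop (𝓝 0) := by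
      have := ((tendsto_ztail.const_mul (A / Real.pi ^ 2)).pow 2).const_mul 2
      simpa using this
    exact (h1.eventually_le_const (by positivity : (0 : ℝ) < ε / 3)).exists
  set W : ℝ := 2 * Real.pi * K / A with hW
  obtain ⟨M, hM⟩ : ∃ M : ℕ, 2 * (A / 6) ^ 2 * ((2 * W ^ 2) ^ (2 * M) / ((2 * M).factorial : ℝ)) ≤
      ε / 3 := by
    have h1 := FloorSemiring.tendsto_pow_div_factorial_atTop (2 * W ^ 2)
    have h2 : Tendsto (fun M : ℕ => 2 * M) atTop atTop :=
      tendsto_id.const_mul_atTop' (by norm_num)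
    have h3 := (h1.comp h2).const_mul (2 * (A / 6) ^ 2)
    rw [mul_zero] at h3
    exact (h3.eventually_le_const (by positivity : (0 : ℝ) < ε / 3)).exists
  obtain ⟨D, c, hc⟩ := mem_EvS (hp_mem A K M)
  refine ⟨D, c, C (2 * (A / Real.pi ^ 2 * ztail K) ^ 2) + C (18 / A ^ 2) * X ^ 4 +
    C (2 * (A / 6 * (W ^ (2 * M) / ((2 * M).factorial : ℝ))) ^ 2) * X ^ (2 * (2 * M)), ?_, ?_⟩
  · intro x
    rw [← hc]
    have a1 := h1_all hA0 K x
    have a2 := hp_close hA0 K M x
    have a3 := sq_le_sq' (abs_le.mp a2).1 (abs_le.mp a2).2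
    simp only [Polynomial.eval_add, Polynomial.eval_C, Polynomial.eval_mul, Polynomial.eval_pow,
      Polynomial.eval_X]
    have a4 : (|x| - (hp A K M).eval x) ^ 2 ≤ 2 * (|x| - h1 A K x) ^ 2 +
        2 * (h1 A K x - (hp A K M).eval x) ^ 2 := by
      nlinarith [sq_nonneg ((|x| - h1 A K x) - (h1 A K x - (hp A K M).eval x))]
    have a5 : 2 * (A / 6 * (W ^ (2 * M) / ((2 * M).factorial : ℝ))) ^ 2 * x ^ (2 * (2 * M)) =
        2 * (A / 6 * (W ^ (2 * M) / ((2 * M).factorial : ℝ)) * x ^ (2 * M)) ^ 2 := by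
      ring
    have a6 : 18 / A ^ 2 * x ^ 4 = 2 * (9 * x ^ 4 / A ^ 2) := by ring
    rw [a5, a6]
    rw [← hW] at a3
    linarith
  · have b1 : ell 0 (C (2 * (A / Real.pi ^ 2 * ztail K) ^ 2)) =
        2 * (A / Real.pi ^ 2 * ztail K) ^ 2 := by
      have := ell_monomial 0 0 (2 * (A / Real.pi ^ 2 * ztail K) ^ 2)
      rw [Polynomial.monomial_zero_left] at this
      rw [this]; simp [Lf]
    have b2 : ∀ (k : ℕ) (a : ℝ), ell 0 (C a * X ^ k) = a * Lf false 0 k := by
      intro k a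
      rw [Polynomial.C_mul_X_pow_eq_monomial, ell_monomial]
    rw [map_add, map_add, b1, b2, b2]
    have b3 : Lf false 0 4 = 3 := by
      simp [Lf]; norm_num
    rw [b3]
    have b4 := Lf_even (2 * M)
    have b5 : 2 * (A / 6 * (W ^ (2 * M) / ((2 * M).factorial : ℝ))) ^ 2 *
        Lf false 0 (2 * (2 * M)) ≤
        2 * (A / 6) ^ 2 * ((2 * W ^ 2) ^ (2 * M) / ((2 * M).factorial : ℝ)) := by
      calc _ ≤ 2 * (A / 6 * (W ^ (2 * M) / ((2 * M).factorial : ℝ))) ^ 2 *
            (2 ^ (2 * M) * ((2 * M).factorial : ℝ)) :=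
            mul_le_mul_of_nonneg_left b4.2 (by positivity)
        _ = _ := by
            have : ((2 * M).factorial : ℝ) ≠ 0 := by positivity
            field_simp
            ring_nf
    have b6 : 18 / A ^ 2 * 3 = 54 / A ^ 2 := by ring
    rw [b6]
    linarith

end Pool.Agent.H90.TF
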