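import Mathlib
import Pool.Agent.H90.TFAbs

set_option autoImplicit false

namespace Pool.Agent.H90.TF

open Finset Pool.Agent.H90.Round Pool.Agent.H90.Bern Pool.Agent.H90.Four Filter Topology

/-- Field of a weighted set of forests. -/
noncomputable def rf (g : ℝ) (F : FS) (N p : ℕ) (ρ : (Fin p → Lam F N) → ℝ) (S : Finset ℕ)
    (j : ZMod (N + 1)) : ℝ :=
  ∑ x : Fin p → Lam F N, ρ x * cf g F N p (fun _ _ => True) S x * co (j * frt x)

theorem rs_zero (g : ℝ) (F : FS) (N p : ℕ) {ρ : (Fin p → Lam F N) → ℝ}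
    (hρ : ∀ x, ρ (ngt x) = ρ x) (S : Finset ℕ) (j : ZMod (N + 1)) :
    ∑ x : Fin p → Lam F N, ρ x * cf g F N p (fun _ _ => True) S x * si (j * frt x) = 0 := by
  have h1 : ∑ x : Fin p → Lam F N, ρ x * cf g F N p (fun _ _ => True) S x * si (j * frt x) =
      ∑ x : Fin p → Lam F N, ρ (ngt x) * cf g F N p (fun _ _ => True) S (ngt x) *
        si (j * frt (ngt x)) :=
    (Equiv.sum_comp (Function.Involutive.toPerm _ (ngt_inv (F := F) (N := N) (K := p)))
      (fun x => ρ x * cf g F N p (fun _ _ => True) S x * si (j * frt x))).symm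
  have h2 : ∑ x : Fin p → Lam F N, ρ (ngt x) * cf g F N p (fun _ _ => True) S (ngt x) *
        si (j * frt (ngt x)) =
      -∑ x : Fin p → Lam F N, ρ x * cf g F N p (fun _ _ => True) S x * si (j * frt x) := by
    rw [← Finset.sum_neg_distrib]
    refine Finset.sum_congr rfl fun x _ => ?_
    rw [cf_ngt, frt_ngt, mul_neg, si_neg, hρ]; ring
  linarith

open Classical in
/-- Compatibility of two forests. -/
def Cmp {F : FS} {N p q : ℕ} (x : Fin p → Lam F N) (y : Fin q → Lam F N) : Prop :=
  GD (fun _ _ => True) (fun i => cls (x i)) ∧ GD (fun _ _ => True) (fun i => cls (y i)) ∧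
    fcls x = fcls y ∧ frt x + frt y = 0

open Classical in
theorem EE_rf {g : ℝ} (hg : 0 < g) (F : FS) (N : ℕ) {p q : ℕ} (ρ : (Fin p → Lam F N) → ℝ)
    {ρ' : (Fin q → Lam F N) → ℝ} (hρ : ∀ x, ρ' (ngt x) = ρ' x) :
    EE g N (fun S j => rf g F N p ρ S j * rf g F N q ρ' S j) =
      ∑ x : Fin p → Lam F N, ∑ y : Fin q → Lam F N, ρ x * ρ' y *
        ((∏ i, wt (x i)) * (∏ i, wt (y i)) * (if Cmp x y then 1 else 0)) := by
  have e1 : ∀ S j, rf g F N p ρ S j * rf g F N q ρ' S j =
      ∑ x : Fin p → Lam F N, ∑ y : Fin q → Lam F N,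
        (ρ x * cf g F N p (fun _ _ => True) S x) * (ρ' y * cf g F N q (fun _ _ => True) S y) *
          co (j * (frt x + frt y)) := by
    intro S j
    have e2 : ∀ x : Fin p → Lam F N, ∑ y : Fin q → Lam F N,
        (ρ x * cf g F N p (fun _ _ => True) S x) * (ρ' y * cf g F N q (fun _ _ => True) S y) *
          co (j * (frt x + frt y)) =
        ρ x * cf g F N p (fun _ _ => True) S x * co (j * frt x) * rf g F N q ρ' S j := by
      intro x
      have e3 : ∀ y : Fin q → Lam F N,
          (ρ x * cf g F N p (fun _ _ => True) S x) * (ρ' y * cf g F N q (fun _ _ => True) S y) *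
          co (j * (frt x + frt y)) =
          ρ x * cf g F N p (fun _ _ => True) S x * co (j * frt x) *
            (ρ' y * cf g F N q (fun _ _ => True) S y * co (j * frt y)) -
          ρ x * cf g F N p (fun _ _ => True) S x * si (j * frt x) *
            (ρ' y * cf g F N q (fun _ _ => True) S y * si (j * frt y)) := by
        intro y; rw [mul_add, co_add]; ring
      simp only [e3]
      rw [Finset.sum_sub_distrib, ← Finset.mul_sum, ← Finset.mul_sum, rs_zero g F N q hρ,
        mul_zero, sub_zero]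
      rfl
    simp only [e2]
    rw [← Finset.sum_mul]
    rfl
  have e4 : ∀ S, (∑ j : ZMod (N + 1), rf g F N p ρ S j * rf g F N q ρ' S j) / ((N : ℝ) + 1) =
      ∑ x : Fin p → Lam F N, ∑ y : Fin q → Lam F N,
        (ρ x * ρ' y * (if frt x + frt y = 0 then 1 else 0)) *
          (cf g F N p (fun _ _ => True) S x * cf g F N q (fun _ _ => True) S y) := by
    intro S
    simp only [e1]
    rw [Finset.sum_comm, Finset.sum_div]
    refine Finset.sum_congr rfl fun x _ => ?_
    rw [Finset.sum_comm, Finset.sum_div]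
    refine Finset.sum_congr rfl fun y _ => ?_
    rw [← Finset.mul_sum, sum_co']
    have : ((N : ℝ) + 1) ≠ 0 := by positivity
    split_ifs
    · field_simp
    · simp
  unfold EE
  simp only [e4]
  rw [Ex_sum]
  refine Finset.sum_congr rfl fun x _ => ?_
  rw [Ex_sum]
  refine Finset.sum_congr rfl fun y _ => ?_
  rw [Ex_smul]
  have e5 : Ex (Ud N) (pr g) (fun S => cf g F N p (fun _ _ => True) S x *
      cf g F N q (fun _ _ => True) S y) = (∏ i, wt (x i)) * (∏ i, wt (y i)) *
      (if GD (fun _ _ => True) (fun i => cls (x i)) ∧ GD (fun _ _ => True) (fun i => cls (y i)) ∧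
        fcls x = fcls y then 1 else 0) := by
    by_cases hx : ∀ i, wt (x i) ≠ 0
    swap
    · push Not at hx
      obtain ⟨i, hi⟩ := hx
      have h0 : ∀ S, cf g F N p (fun _ _ => True) S x = 0 := by
        intro S; unfold cf
        rw [Finset.prod_eq_zero (Finset.mem_univ i) hi, zero_mul]
      simp only [h0, zero_mul]
      rw [Ex_const, Finset.prod_eq_zero (Finset.mem_univ i) hi]; ring
    by_cases hy : ∀ i, wt (y i) ≠ 0
    swap
    · push Not at hy
      obtain ⟨i, hi⟩ := hy
      have h0 : ∀ S, cf g F N q (fun _ _ => True) S y = 0 := by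
        intro S; unfold cf
        rw [Finset.prod_eq_zero (Finset.mem_univ i) hi, zero_mul]
      simp only [h0, mul_zero]
      rw [Ex_const, Finset.prod_eq_zero (f := fun i => wt (y i)) (Finset.mem_univ i) hi]; ring
    by_cases h1 : GD (fun _ _ => True) (fun i => cls (x i))
    swap
    · have h0 : ∀ S, cf g F N p (fun _ _ => True) S x = 0 := by
        intro S; unfold cf
        rw [if_neg h1, mul_zero]
      simp only [h0, zero_mul]
      rw [Ex_const, if_neg (fun h => h1 h.1), mul_zero]
    by_cases h2 : GD (fun _ _ => True) (fun i => cls (y i))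
    swap
    · have h0 : ∀ S, cf g F N q (fun _ _ => True) S y = 0 := by
        intro S; unfold cf
        rw [if_neg h2, mul_zero]
      simp only [h0, mul_zero]
      rw [Ex_const, if_neg (fun h => h2 h.2.1), mul_zero]
    have hc : ∀ i, Fin.append (fun i => cls (x i)) (fun i => cls (y i)) i ⊆ Ud N := by
      intro i
      refine Fin.addCases (fun i => ?_) (fun i => ?_) i
      · rw [Fin.append_left]; exact cls_sub (hx i)
      · rw [Fin.append_right]; exact cls_sub (hy i)
    have h3 : ∀ S, cf g F N p (fun _ _ => True) S x * cf g F N q (fun _ _ => True) S y =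
        ((∏ i, wt (x i)) * (∏ i, wt (y i))) *
        ∏ i, ∏ d ∈ Fin.append (fun i => cls (x i)) (fun i => cls (y i)) i, xi g S d := by
      intro S
      rw [Fin.prod_univ_add]
      simp only [Fin.append_left, Fin.append_right]
      unfold cf
      rw [if_pos h1, if_pos h2]; ring
    simp only [h3]
    rw [Ex_smul, Ex_mom g hc, mom_two hg (fun i => cls_sub (hx i)) (fun i => cls_sub (hy i))
      (fun i j hij => h1 i j hij trivial) (fun i j hij => h2 i j hij trivial)]
    congr 1
    by_cases h4 : fcls x = fcls y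
    · rw [if_pos (show univ.biUnion (fun i => cls (x i)) = univ.biUnion (fun i => cls (y i))
        from h4), if_pos ⟨h1, h2, h4⟩]
    · rw [if_neg (show ¬ univ.biUnion (fun i => cls (x i)) = univ.biUnion (fun i => cls (y i))
        from h4), if_neg (fun h => h4 h.2.2)]
  rw [e5]
  unfold Cmp
  by_cases h1 : frt x + frt y = 0
  · simp only [h1, if_true, and_true]; ring
  · simp only [h1, if_false, and_false]; ring

theorem wp_eq (g : ℝ) (F : FS) (N p : ℕ) (S : Finset ℕ) (j : ZMod (N + 1)) :
    wp g F N p S j = rf g F N p (fun _ => 1) S j := by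
  unfold wp gf rf
  refine Finset.sum_congr rfl fun x _ => ?_
  rw [one_mul]

/-- A forest whose root sum is not admissible. -/
def Bad {F : FS} {N p : ℕ} (x : Fin p → Lam F N) : Prop := frt x = 0 ∨ ds (frt x) ∈ fcls x

theorem fcls_ngt {F : FS} {N p : ℕ} (x : Fin p → Lam F N) : fcls (ngt x) = fcls x := by
  unfold fcls ngt
  simp only [cls_ng]

theorem Bad_ngt {F : FS} {N p : ℕ} (x : Fin p → Lam F N) : Bad (ngt x) ↔ Bad x := by
  unfold Bad
  rw [frt_ngt, fcls_ngt, ds_neg, neg_eq_zero]

theorem Bad_Cmp {F : FS} {N p q : ℕ} {x : Fin p → Lam F N} {y : Fin q → Lam F N}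
    (h : Cmp x y) : Bad x ↔ Bad y := by
  obtain ⟨_, _, h1, h2⟩ := h
  have h3 : frt y = -frt x := (neg_eq_of_add_eq_zero_right h2).symm
  unfold Bad
  rw [h3, neg_eq_zero, ds_neg, h1]

open Classical in
/-- Indicator of bad forests. -/
noncomputable def rb {F : FS} {N p : ℕ} (x : Fin p → Lam F N) : ℝ := if Bad x then 1 else 0

open Classical in
/-- Indicator of good forests. -/
noncomputable def rg {F : FS} {N p : ℕ} (x : Fin p → Lam F N) : ℝ := if Bad x then 0 else 1

theorem rb_ngt {F : FS} {N p : ℕ} (x : Fin p → Lam F N) : rb (ngt x) = rb x := by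
  unfold rb
  by_cases h : Bad x
  · rw [if_pos h, if_pos ((Bad_ngt x).mpr h)]
  · rw [if_neg h, if_neg (fun h2 => h ((Bad_ngt x).mp h2))]

theorem rg_eq {F : FS} {N p : ℕ} (x : Fin p → Lam F N) : rg x = 1 - rb x := by
  unfold rg rb
  split_ifs <;> ring

theorem rg_ngt {F : FS} {N p : ℕ} (x : Fin p → Lam F N) : rg (ngt x) = rg x := by
  rw [rg_eq, rg_eq, rb_ngt]

theorem wp_split (g : ℝ) (F : FS) (N p : ℕ) (S : Finset ℕ) (j : ZMod (N + 1)) :
    rf g F N p rg S j = wp g F N p S j - rf g F N p rb S j := by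
  rw [wp_eq]
  unfold rf
  rw [← Finset.sum_sub_distrib]
  refine Finset.sum_congr rfl fun x _ => ?_
  rw [rg_eq]; ring

theorem tendsto_rb {g : ℝ} (hg : 1 ≤ g) (F : FS) (q : ℕ) :
    Tendsto (fun N => EE g N (fun S j => rf g F N (q + 2) rb S j ^ 2)) atTop (𝓝 0) := by
  classical
  obtain ⟨C, hC, h⟩ := RCb F q
  refine squeeze_zero (fun N => EE_nonneg fun _ _ _ => sq_nonneg _)
    (g := fun N : ℕ => C * (1 / ((N : ℝ) + 1))) (fun N => ?_) ?_
  · have e1 : EE g N (fun S j => rf g F N (q + 2) rb S j ^ 2) =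
        EE g N (fun S j => rf g F N (q + 2) rb S j * rf g F N (q + 2) rb S j) :=
      EE_congr fun S j => sq _
    rw [e1, EE_rf (by linarith) F N rb (fun x => rb_ngt x), mul_one_div,
      le_div_iff₀ (by positivity)]
    refine le_trans (mul_le_mul_of_nonneg_right ?_ (by positivity)) (h N)
    refine Finset.sum_le_sum fun x _ => Finset.sum_le_sum fun y _ => ?_
    by_cases h1 : Cmp x y ∧ Bad x
    · have h2 : Bad y := (Bad_Cmp h1.1).mp h1.2
      have h3 : fcls x = fcls y ∧ frt x + frt y = 0 ∧ (frt x = 0 ∨ ds (frt x) ∈ fcls x) :=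
        ⟨h1.1.2.2.1, h1.1.2.2.2, h1.2⟩
      unfold rb
      rw [if_pos h1.2, if_pos h2, if_pos h1.1, if_pos h3, ← Finset.abs_prod, ← Finset.abs_prod]
      have := le_abs_self ((∏ i, wt (x i)) * ∏ i, wt (y i))
      rw [abs_mul] at this
      linarith
    · have h4 : rb x * rb y * ((∏ i, wt (x i)) * (∏ i, wt (y i)) *
          (if Cmp x y then (1 : ℝ) else 0)) = 0 := by
        by_cases h5 : Cmp x y
        · have h6 : ¬ Bad x := fun h6 => h1 ⟨h5, h6⟩
          unfold rb
          rw [if_neg h6]; ring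
        · rw [if_neg h5]; ring
      rw [h4]
      refine mul_nonneg (mul_nonneg (Finset.prod_nonneg fun _ _ => abs_nonneg _)
        (Finset.prod_nonneg fun _ _ => abs_nonneg _)) ?_
      split_ifs <;> norm_num
  · have := tendsto_one_div_add_atTop_nhds_zero_nat (𝕜 := ℝ)
    have := this.const_mul C
    rwa [mul_zero] at this

end Pool.Agent.H90.TF
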