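import Mathlib
import Pool.Agent.H90.TFRc

set_option autoImplicit false

namespace Pool.Agent.H90.TF

open Finset Pool.Agent.H90.Round Pool.Agent.H90.Bern Pool.Agent.H90.Four Filter Topology

/-- A single leaf. -/
@[reducible] def leafSys : Sys where
  A := Unit
  V := Unit
  supp := fun _ => univ
  leaf := fun _ => ()
  root := ()
  supp_leaf := by intro a; rfl
  supp_root := rfl
  supp_ne := by intro v; exact ⟨(), Finset.mem_univ _⟩

/-- The next formal sum. -/
@[reducible] noncomputable def nxt (F : FS) (D : ℕ) (c : ℕ → ℝ) (g β : ℝ) : FS where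
  R := Option (Σ i : Fin D, Fin (2 * i.val + 2) → F.R)
  w := fun r => match r with
    | none => β
    | some u => g * c (u.1.val + 1) * ∏ a, F.w (u.2 a)
  T := fun r => match r with
    | none => leafSys
    | some u => rootSys fun a => F.T (u.2 a)

variable {F : FS} {D : ℕ} {c : ℕ → ℝ} {g β : ℝ} {N : ℕ}

/-- Leaf element of the next sum. -/
def lfe (κ : Unit → ZMod (N + 1)) : Lam (nxt F D c g β) N := ⟨none, κ⟩

/-- Rooted forest as an element of the next sum. -/
def rte (i : Fin D) (x : Fin (2 * i.val + 2) → Lam F N) : Lam (nxt F D c g β) N :=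
  ⟨some ⟨i, fun a => (x a).1⟩, fun p => (x p.1).2 p.2⟩

theorem sum_nxt (Φ : Lam (nxt F D c g β) N → ℝ) :
    ∑ y, Φ y = (∑ κ : Unit → ZMod (N + 1), Φ (lfe κ)) +
      ∑ i : Fin D, ∑ x : Fin (2 * i.val + 2) → Lam F N, Φ (rte i x) := by
  rw [Fintype.sum_sigma, Fintype.sum_option]
  congr 1
  rw [Fintype.sum_sigma]
  refine Finset.sum_congr rfl fun i _ => ?_
  rw [← (forEq F N (2 * i.val + 2)).symm.sum_comp, Fintype.sum_sigma]
  rfl

theorem cls_lfe (κ : Unit → ZMod (N + 1)) :
    cls (lfe (F := F) (D := D) (c := c) (g := g) (β := β) κ) = {ds (κ ())} := by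
  ext d
  rw [mem_cls, Finset.mem_singleton]
  constructor
  · rintro ⟨v, hv⟩
    rw [← hv]
    unfold lfe Sys.val
    simp
  · rintro rfl
    refine ⟨(), ?_⟩
    unfold lfe Sys.val
    simp

theorem rt_lfe (κ : Unit → ZMod (N + 1)) :
    rt (lfe (F := F) (D := D) (c := c) (g := g) (β := β) κ) = κ () := by
  unfold rt lfe
  simp

open Classical in
theorem wt_lfe (κ : Unit → ZMod (N + 1)) :
    wt (lfe (F := F) (D := D) (c := c) (g := g) (β := β) κ) =
      if κ () = 0 then 0 else β / Real.sqrt ((N : ℝ) + 1) := by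
  have h : Int leafSys κ ↔ κ () ≠ 0 := by
    unfold Int Sys.val
    constructor
    · rintro ⟨h, _⟩
      have := h ()
      simpa using this
    · intro h
      refine ⟨fun v => ?_, fun u v _ => rfl⟩
      simpa using h
  unfold wt
  by_cases h0 : κ () = 0
  · rw [if_pos h0, if_neg]
    intro h2
    exact (h.mp h2) h0
  · rw [if_neg h0, if_pos (show Int ((nxt F D c g β).T (lfe (F := F) (D := D) (c := c)
      (g := g) (β := β) κ).1) (lfe (F := F) (D := D) (c := c) (g := g) (β := β) κ).2 from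
      h.mpr h0)]
    unfold lfe
    simp

theorem cls_rte (i : Fin D) (x : Fin (2 * i.val + 2) → Lam F N) :
    cls (rte (D := D) (c := c) (g := g) (β := β) i x) = insert (ds (frt x)) (fcls x) := by
  have vn : (rootSys fun a => F.T (x a).1).val
      (fun p : (Σ a, (F.T (x a).1).A) => (x p.1).2 p.2) none = frt x :=
    val_none (fun a => F.T (x a).1) (fun p : (Σ a, (F.T (x a).1).A) => (x p.1).2 p.2)
  have vs : ∀ a v, (rootSys fun a => F.T (x a).1).val
      (fun p : (Σ a, (F.T (x a).1).A) => (x p.1).2 p.2) (some ⟨a, v⟩) =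
        (F.T (x a).1).val (x a).2 v := fun a v =>
    val_some (fun a => F.T (x a).1) (fun p : (Σ a, (F.T (x a).1).A) => (x p.1).2 p.2) a v
  ext d
  rw [mem_cls, Finset.mem_insert, mem_fcls]
  constructor
  · rintro ⟨v, hv⟩
    rcases v with _ | ⟨a, v⟩
    · left
      rw [← hv, ← vn]
      rfl
    · right
      refine ⟨a, v, ?_⟩
      rw [← hv, ← vs]
      rfl
  · rintro (h | ⟨a, v, hv⟩)
    · refine ⟨none, ?_⟩
      rw [h, ← vn]
      rfl
    · refine ⟨some ⟨a, v⟩, ?_⟩
      rw [← hv, ← vs]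
      rfl

theorem rt_rte (i : Fin D) (x : Fin (2 * i.val + 2) → Lam F N) :
    rt (rte (D := D) (c := c) (g := g) (β := β) i x) = frt x := by
  unfold rt rte frt
  exact Fintype.sum_sigma _

theorem Int_rte {q : ℕ} (x : Fin (q + 2) → Lam F N) :
    Int (rootSys fun a => F.T (x a).1) (fun p : (Σ a, (F.T (x a).1).A) => (x p.1).2 p.2) ↔
      (∀ a, Int (F.T (x a).1) (x a).2) ∧ GD (fun _ _ => True) (fun a => cls (x a)) ∧ ¬ Bad x := by
  have vn : (rootSys fun a => F.T (x a).1).val
      (fun p : (Σ a, (F.T (x a).1).A) => (x p.1).2 p.2) none = frt x :=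
    val_none (fun a => F.T (x a).1) (fun p : (Σ a, (F.T (x a).1).A) => (x p.1).2 p.2)
  have vs : ∀ a v, (rootSys fun a => F.T (x a).1).val
      (fun p : (Σ a, (F.T (x a).1).A) => (x p.1).2 p.2) (some ⟨a, v⟩) =
        (F.T (x a).1).val (x a).2 v := fun a v =>
    val_some (fun a => F.T (x a).1) (fun p : (Σ a, (F.T (x a).1).A) => (x p.1).2 p.2) a v
  constructor
  · rintro ⟨h1, h2⟩
    refine ⟨fun a => ⟨fun v => ?_, fun u v huv => ?_⟩, fun a b hab _ => ?_, ?_⟩
    · rw [← vs]; exact h1 _
    · have h3 : (some ⟨a, u⟩ : Option (Σ a, (F.T (x a).1).V)) = some ⟨a, v⟩ := by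
        apply h2
        simp only [vs]
        exact huv
      have h4 := Option.some.inj h3
      simpa using h4
    · rw [Finset.disjoint_left]
      intro d hd hd'
      obtain ⟨u, hu⟩ := mem_cls.mp hd
      obtain ⟨v, hv⟩ := mem_cls.mp hd'
      have h3 : (some ⟨a, u⟩ : Option (Σ a, (F.T (x a).1).V)) = some ⟨b, v⟩ := by
        apply h2
        simp only [vs]
        rw [hu, hv]
      exact hab (congrArg Sigma.fst (Option.some.inj h3))
    · rintro (h | h)
      · apply h1 none
        rw [vn]; exact h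
      · obtain ⟨a, v, hv⟩ := mem_fcls.mp h
        have h3 : (some ⟨a, v⟩ : Option (Σ a, (F.T (x a).1).V)) = none := by
          apply h2
          simp only [vs, vn]
          exact hv
        exact absurd h3 (by simp)
  · rintro ⟨h1, h2, h3⟩
    unfold Bad at h3
    push Not at h3
    constructor
    · rintro (_ | ⟨a, v⟩)
      · rw [vn]; exact h3.1
      · rw [vs]; exact (h1 a).1 v
    · rintro (_ | ⟨a, u⟩) (_ | ⟨b, v⟩) huv
      · rfl
      · exfalso
        simp only [vs, vn] at huv
        exact h3.2 (mem_fcls.mpr ⟨b, v, huv.symm⟩)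
      · exfalso
        simp only [vs, vn] at huv
        exact h3.2 (mem_fcls.mpr ⟨a, u, huv⟩)
      · simp only [vs] at huv
        by_cases hab : a = b
        · subst hab
          have := (h1 a).2 huv
          rw [this]
        · exfalso
          have h4 := h2 a b hab trivial
          exact Finset.disjoint_left.mp h4 (mem_cls.mpr ⟨u, rfl⟩) (mem_cls.mpr ⟨v, huv.symm⟩)

open Classical in
theorem wt_rte (i : Fin D) (x : Fin (2 * i.val + 2) → Lam F N) :
    wt (rte (D := D) (c := c) (g := g) (β := β) i x) =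
      g * c (i.val + 1) * ((∏ a, wt (x a)) *
        (if GD (fun _ _ => True) (fun a => cls (x a)) ∧ ¬ Bad x then 1 else 0)) := by
  unfold wt
  by_cases h : ∀ a, Int (F.T (x a).1) (x a).2
  · have e1 : (∏ a, (if Int (F.T (x a).1) (x a).2 then F.w (x a).1 /
        Real.sqrt ((N : ℝ) + 1) ^ (Fintype.card (F.T (x a).1).A) else 0)) =
        (∏ a, F.w (x a).1) / Real.sqrt ((N : ℝ) + 1) ^ (∑ a, Fintype.card (F.T (x a).1).A) := by
      rw [← Finset.prod_pow_eq_pow_sum, ← Finset.prod_div_distrib]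
      exact Finset.prod_congr rfl fun a _ => if_pos (h a)
    rw [e1]
    by_cases h2 : GD (fun _ _ => True) (fun a => cls (x a)) ∧ ¬ Bad x
    · rw [if_pos h2, if_pos (show Int ((nxt F D c g β).T (rte (D := D) (c := c) (g := g)
        (β := β) i x).1) (rte (D := D) (c := c) (g := g) (β := β) i x).2 from
        (Int_rte x).mpr ⟨h, h2⟩)]
      have e2 : Fintype.card ((nxt F D c g β).T (rte (D := D) (c := c) (g := g)
        (β := β) i x).1).A = ∑ a, Fintype.card (F.T (x a).1).A := Fintype.card_sigma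
      rw [e2]
      have e3 : (nxt F D c g β).w (rte (D := D) (c := c) (g := g) (β := β) i x).1 =
          g * c (i.val + 1) * ∏ a, F.w (x a).1 := rfl
      rw [e3]; ring
    · rw [if_neg h2, mul_zero, mul_zero, if_neg]
      intro h3
      exact h2 ((Int_rte x).mp h3).2
  · have e1 : (∏ a, (if Int (F.T (x a).1) (x a).2 then F.w (x a).1 /
        Real.sqrt ((N : ℝ) + 1) ^ (Fintype.card (F.T (x a).1).A) else 0)) = 0 := by
      push Not at h
      obtain ⟨a, ha⟩ := h
      exact Finset.prod_eq_zero (Finset.mem_univ a) (if_neg ha)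
    rw [e1, zero_mul, mul_zero, if_neg]
    intro h3
    exact h ((Int_rte x).mp h3).1

theorem EE_rg {F : FS} {N p q : ℕ} {g : ℝ} (hg : 0 < g) :
    EE g N (fun S j => rf g F N p rg S j * rf g F N q rg S j) =
      EE g N (fun S j => wp g F N p S j * wp g F N q S j) -
      EE g N (fun S j => rf g F N p rb S j * rf g F N q rb S j) := by
  classical
  have e1 : EE g N (fun S j => wp g F N p S j * wp g F N q S j) =
      EE g N (fun S j => rf g F N p (fun _ => 1) S j * rf g F N q (fun _ => 1) S j) :=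
    EE_congr fun S j => by rw [wp_eq, wp_eq]
  rw [e1, EE_rf hg F N _ (fun x => rg_ngt x), EE_rf hg F N _ (fun x => rb_ngt x),
    EE_rf hg F N _ (fun _ => rfl), ← Finset.sum_sub_distrib]
  refine Finset.sum_congr rfl fun x _ => ?_
  rw [← Finset.sum_sub_distrib]
  refine Finset.sum_congr rfl fun y _ => ?_
  by_cases h : Cmp x y
  · have h2 := Bad_Cmp h
    rw [if_pos h]
    unfold rg rb
    by_cases h3 : Bad x
    · rw [if_pos h3, if_pos (h2.mp h3), if_pos h3, if_pos (h2.mp h3)]; ring
    · rw [if_neg h3, if_neg (fun h4 => h3 (h2.mpr h4)), if_neg h3,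
        if_neg (fun h4 => h3 (h2.mpr h4))]; ring
  · rw [if_neg h]; ring

theorem tendsto_rg {g : ℝ} (hg : 1 ≤ g) (F : FS) (hF : Tendsto (cN F) atTop (𝓝 1))
    (p q : ℕ) : Tendsto (fun N => EE g N (fun S j =>
      rf g F N (p + 2) rg S j * rf g F N (q + 2) rg S j)) atTop
      (𝓝 (if p = q then ((p + 2).factorial : ℝ) else 0)) := by
  have h1 := tendsto_wp_wp hg F hF (p + 2) (q + 2)
  rw [Lf_true] at h1
  have h2 : Tendsto (fun N => EE g N (fun S j =>
      rf g F N (p + 2) rb S j * rf g F N (q + 2) rb S j)) atTop (𝓝 0) := by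
    have h3 := ((tendsto_rb hg F p).add (tendsto_rb hg F q)).div_const 2
    rw [add_zero, zero_div] at h3
    refine squeeze_zero_norm (fun N => ?_) h3
    rw [Real.norm_eq_abs, abs_le]
    have e0 : (EE g N (fun S j => rf g F N (p + 2) rb S j ^ 2) +
        EE g N (fun S j => rf g F N (q + 2) rb S j ^ 2)) / 2 =
        EE g N (fun S j => 1 / 2 * (rf g F N (p + 2) rb S j ^ 2 +
          rf g F N (q + 2) rb S j ^ 2)) := by
      rw [EE_smul, EE_add]; ring
    rw [e0]
    constructor
    · rw [neg_le_iff_add_nonneg, ← EE_add]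
      refine EE_nonneg fun S _ j => ?_
      nlinarith [sq_nonneg (rf g F N (p + 2) rb S j + rf g F N (q + 2) rb S j)]
    · refine EE_mono fun S _ j => ?_
      nlinarith [sq_nonneg (rf g F N (p + 2) rb S j - rf g F N (q + 2) rb S j)]
  have h4 := h1.sub h2
  rw [sub_zero] at h4
  have e : (if p + 2 = q + 2 then ((p + 2).factorial : ℝ) else 0) =
      if p = q then ((p + 2).factorial : ℝ) else 0 := by
    by_cases h : p = q
    · rw [if_pos h, if_pos (by omega)]
    · rw [if_neg h, if_neg (by omega)]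
  rw [e] at h4
  refine h4.congr fun N => ?_
  rw [EE_rg (by linarith)]

theorem sum_unit (f : ZMod (N + 1) → ℝ) : ∑ κ : Unit → ZMod (N + 1), f (κ ()) = ∑ z, f z :=
  (Equiv.funUnique Unit (ZMod (N + 1))).sum_comp f

open Classical in
theorem fcls_ne {q : ℕ} (x : Fin (q + 2) → Lam F N) : (fcls x).Nonempty := by
  obtain ⟨d, hd⟩ := cls_nonempty (x 0)
  exact ⟨d, Finset.mem_biUnion.mpr ⟨0, Finset.mem_univ _, hd⟩⟩

open Classical in
theorem cN_nxt (hg : 0 < g) : cN (nxt F D c g β) N = β ^ 2 * ((N : ℝ) / ((N : ℝ) + 1)) +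
    ∑ i : Fin D, ∑ i' : Fin D, (g * c (i.val + 1)) * (g * c (i'.val + 1)) *
      EE g N (fun S j => rf g F N (2 * i.val + 2) rg S j * rf g F N (2 * i'.val + 2) rg S j) := by
  have hs2 : Real.sqrt ((N : ℝ) + 1) ^ 2 = (N : ℝ) + 1 := Real.sq_sqrt (by positivity)
  have hn : (0 : ℝ) < (N : ℝ) + 1 := by positivity
  -- the four parts
  have LL : ∑ κ : Unit → ZMod (N + 1), ∑ κ' : Unit → ZMod (N + 1),
      wt (lfe (F := F) (D := D) (c := c) (g := g) (β := β) κ) *
      wt (lfe (F := F) (D := D) (c := c) (g := g) (β := β) κ') *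
      (if cls (lfe (F := F) (D := D) (c := c) (g := g) (β := β) κ) =
        cls (lfe (F := F) (D := D) (c := c) (g := g) (β := β) κ') ∧
        rt (lfe (F := F) (D := D) (c := c) (g := g) (β := β) κ) +
        rt (lfe (F := F) (D := D) (c := c) (g := g) (β := β) κ') = 0 then (1 : ℝ) else 0) =
      β ^ 2 * ((N : ℝ) / ((N : ℝ) + 1)) := by
    simp only [wt_lfe, cls_lfe, rt_lfe]
    have e1 : ∀ z z' : ZMod (N + 1), (if z = 0 then 0 else β / Real.sqrt ((N : ℝ) + 1)) *
        (if z' = 0 then 0 else β / Real.sqrt ((N : ℝ) + 1)) *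
        (if ({ds z} : Finset ℕ) = {ds z'} ∧ z + z' = 0 then (1 : ℝ) else 0) =
        if z' = -z then (if z = 0 then 0 else β ^ 2 / ((N : ℝ) + 1)) else 0 := by
      intro z z'
      by_cases h1 : z' = -z
      · subst h1
        by_cases h2 : z = 0
        · simp [h2]
        · have h3 : -z ≠ 0 := neg_ne_zero.mpr h2
          rw [if_neg h2, if_neg h3, if_pos ⟨by rw [ds_neg], add_neg_cancel z⟩, if_pos rfl,
            if_neg h2, mul_one]
          have e0 : β / Real.sqrt ((N : ℝ) + 1) * (β / Real.sqrt ((N : ℝ) + 1)) =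
              β ^ 2 / Real.sqrt ((N : ℝ) + 1) ^ 2 := by ring
          rw [e0, hs2]
      · rw [if_neg (c := z' = -z) h1, if_neg (show ¬ (({ds z} : Finset ℕ) = {ds z'} ∧
          z + z' = 0) from fun h => h1 (neg_eq_of_add_eq_zero_right h.2).symm), mul_zero]
    have e2 : ∀ κ : Unit → ZMod (N + 1), ∑ κ' : Unit → ZMod (N + 1),
        (if κ () = 0 then 0 else β / Real.sqrt ((N : ℝ) + 1)) *
        (if κ' () = 0 then 0 else β / Real.sqrt ((N : ℝ) + 1)) *
        (if ({ds (κ ())} : Finset ℕ) = {ds (κ' ())} ∧ κ () + κ' () = 0 then (1 : ℝ) else 0) =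
        (if κ () = 0 then 0 else β ^ 2 / ((N : ℝ) + 1)) := by
      intro κ
      rw [sum_unit (fun z' => (if κ () = 0 then 0 else β / Real.sqrt ((N : ℝ) + 1)) *
        (if z' = 0 then 0 else β / Real.sqrt ((N : ℝ) + 1)) *
        (if ({ds (κ ())} : Finset ℕ) = {ds z'} ∧ κ () + z' = 0 then (1 : ℝ) else 0))]
      simp only [e1]
      rw [Finset.sum_ite_eq' Finset.univ (-κ ())]
      simp
    simp only [e2]
    rw [sum_unit (fun z => if z = 0 then 0 else β ^ 2 / ((N : ℝ) + 1))]
    rw [← Finset.add_sum_erase _ _ (Finset.mem_univ (0 : ZMod (N + 1))), if_pos rfl, zero_add]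
    have e3 : ∑ x ∈ (univ : Finset (ZMod (N + 1))).erase 0,
        (if x = 0 then 0 else β ^ 2 / ((N : ℝ) + 1)) =
        ∑ _x ∈ (univ : Finset (ZMod (N + 1))).erase 0, β ^ 2 / ((N : ℝ) + 1) :=
      Finset.sum_congr rfl fun x hx => if_neg (Finset.mem_erase.mp hx).1
    rw [e3, Finset.sum_const, Finset.card_erase_of_mem (Finset.mem_univ _), Finset.card_univ,
      ZMod.card, nsmul_eq_mul]
    simp only [Nat.add_sub_cancel]
    ring
  have hcard : ∀ (i : Fin D) (x : Fin (2 * i.val + 2) → Lam F N) (κ : Unit → ZMod (N + 1)),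
      wt (rte (D := D) (c := c) (g := g) (β := β) i x) ≠ 0 →
      cls (lfe (F := F) (D := D) (c := c) (g := g) (β := β) κ) ≠
        cls (rte (D := D) (c := c) (g := g) (β := β) i x) := by
    intro i x κ hw h
    rw [cls_lfe, cls_rte] at h
    have hb : ¬ Bad x := by
      intro hb
      apply hw
      rw [wt_rte, if_neg (fun h2 => h2.2 hb)]; ring
    have h1 : ds (frt x) ∉ fcls x := fun h2 => hb (Or.inr h2)
    have h2 := congrArg Finset.card h
    rw [Finset.card_singleton, Finset.card_insert_of_notMem h1] at h2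
    have h3 := Finset.card_pos.mpr (fcls_ne x)
    omega
  have LR : ∀ (κ : Unit → ZMod (N + 1)) (i : Fin D) (x : Fin (2 * i.val + 2) → Lam F N),
      wt (lfe (F := F) (D := D) (c := c) (g := g) (β := β) κ) *
      wt (rte (D := D) (c := c) (g := g) (β := β) i x) *
      (if cls (lfe (F := F) (D := D) (c := c) (g := g) (β := β) κ) =
        cls (rte (D := D) (c := c) (g := g) (β := β) i x) ∧
        rt (lfe (F := F) (D := D) (c := c) (g := g) (β := β) κ) +
        rt (rte (D := D) (c := c) (g := g) (β := β) i x) = 0 then (1 : ℝ) else 0) = 0 := by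
    intro κ i x
    by_cases hw : wt (rte (D := D) (c := c) (g := g) (β := β) i x) = 0
    · rw [hw]; ring
    · rw [if_neg (fun h => hcard i x κ hw h.1), mul_zero]
  have RL : ∀ (κ : Unit → ZMod (N + 1)) (i : Fin D) (x : Fin (2 * i.val + 2) → Lam F N),
      wt (rte (D := D) (c := c) (g := g) (β := β) i x) *
      wt (lfe (F := F) (D := D) (c := c) (g := g) (β := β) κ) *
      (if cls (rte (D := D) (c := c) (g := g) (β := β) i x) =
        cls (lfe (F := F) (D := D) (c := c) (g := g) (β := β) κ) ∧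
        rt (rte (D := D) (c := c) (g := g) (β := β) i x) +
        rt (lfe (F := F) (D := D) (c := c) (g := g) (β := β) κ) = 0 then (1 : ℝ) else 0) = 0 := by
    intro κ i x
    by_cases hw : wt (rte (D := D) (c := c) (g := g) (β := β) i x) = 0
    · rw [hw]; ring
    · rw [if_neg (fun h => hcard i x κ hw h.1.symm), mul_zero]
  have RR : ∀ (i i' : Fin D) (x : Fin (2 * i.val + 2) → Lam F N)
      (x' : Fin (2 * i'.val + 2) → Lam F N),
      wt (rte (D := D) (c := c) (g := g) (β := β) i x) *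
      wt (rte (D := D) (c := c) (g := g) (β := β) i' x') *
      (if cls (rte (D := D) (c := c) (g := g) (β := β) i x) =
        cls (rte (D := D) (c := c) (g := g) (β := β) i' x') ∧
        rt (rte (D := D) (c := c) (g := g) (β := β) i x) +
        rt (rte (D := D) (c := c) (g := g) (β := β) i' x') = 0 then (1 : ℝ) else 0) =
      (g * c (i.val + 1)) * (g * c (i'.val + 1)) * (rg x * rg x' *
        ((∏ a, wt (x a)) * (∏ a, wt (x' a)) * (if Cmp x x' then 1 else 0))) := by
    intro i i' x x'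
    rw [wt_rte, wt_rte, cls_rte, cls_rte, rt_rte, rt_rte]
    by_cases a1 : GD (fun _ _ => True) (fun a => cls (x a))
    swap
    · rw [if_neg (c := GD _ _ ∧ _) (fun h => a1 h.1), if_neg (c := Cmp x x') (fun h => a1 h.1)]
      ring
    by_cases a2 : GD (fun _ _ => True) (fun a => cls (x' a))
    swap
    · rw [if_neg (c := Cmp x x') (fun h => a2 h.2.1)]
      have : (if GD (fun _ _ => True) (fun a => cls (x' a)) ∧ ¬ Bad x' then (1 : ℝ) else 0) = 0 :=
        if_neg (fun h => a2 h.1)
      rw [this]; ring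
    by_cases b1 : Bad x
    · have : (if GD (fun _ _ => True) (fun a => cls (x a)) ∧ ¬ Bad x then (1 : ℝ) else 0) = 0 :=
        if_neg (fun h => h.2 b1)
      rw [this]
      have : rg x = 0 := by unfold rg; rw [if_pos b1]
      rw [this]; ring
    by_cases b2 : Bad x'
    · have : (if GD (fun _ _ => True) (fun a => cls (x' a)) ∧ ¬ Bad x' then (1 : ℝ) else 0) = 0 :=
        if_neg (fun h => h.2 b2)
      rw [this]
      have : rg x' = 0 := by unfold rg; rw [if_pos b2]
      rw [this]; ring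
    have r1 : rg x = 1 := by unfold rg; rw [if_neg b1]
    have r2 : rg x' = 1 := by unfold rg; rw [if_neg b2]
    rw [r1, r2, if_pos (⟨a1, b1⟩ : GD (fun _ _ => True) (fun a => cls (x a)) ∧ ¬ Bad x),
      if_pos (⟨a2, b2⟩ : GD (fun _ _ => True) (fun a => cls (x' a)) ∧ ¬ Bad x')]
    have hiff : (insert (ds (frt x)) (fcls x) = insert (ds (frt x')) (fcls x') ∧
        frt x + frt x' = 0) ↔ Cmp x x' := by
      constructor
      · rintro ⟨h1, h2⟩
        refine ⟨a1, a2, ?_, h2⟩
        have h3 : ds (frt x') = ds (frt x) := by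
          rw [(neg_eq_of_add_eq_zero_right h2).symm, ds_neg]
        rw [h3] at h1
        have h4 : ds (frt x) ∉ fcls x := fun h => b1 (Or.inr h)
        have h5 : ds (frt x) ∉ fcls x' := by
          rw [← h3]; exact fun h => b2 (Or.inr h)
        rw [← Finset.erase_insert h4, h1, Finset.erase_insert h5]
      · rintro ⟨_, _, h1, h2⟩
        have h3 : ds (frt x') = ds (frt x) := by
          rw [(neg_eq_of_add_eq_zero_right h2).symm, ds_neg]
        exact ⟨by rw [h1, h3], h2⟩
    by_cases hc : Cmp x x'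
    · rw [if_pos (hiff.mpr hc), if_pos hc]; ring
    · rw [if_neg (fun h => hc (hiff.mp h)), if_neg hc]; ring
  unfold cN
  rw [sum_nxt]
  simp only [sum_nxt]
  simp only [LR, RL, RR, Finset.sum_const_zero, add_zero, zero_add]
  rw [LL]
  congr 1
  refine Finset.sum_congr rfl fun i _ => ?_
  rw [Finset.sum_comm]
  refine Finset.sum_congr rfl fun i' _ => ?_
  rw [EE_rf hg F N _ (fun x => rg_ngt x), Finset.mul_sum]
  refine Finset.sum_congr rfl fun x _ => ?_
  rw [Finset.mul_sum]

theorem tendsto_cN_nxt (hg : 1 ≤ g) (hF : Tendsto (cN F) atTop (𝓝 1)) :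
    Tendsto (cN (nxt F D c g β)) atTop
      (𝓝 (β ^ 2 + ∑ i : Fin D, (g * c (i.val + 1)) ^ 2 * ((2 * i.val + 2).factorial : ℝ))) := by
  have h1 : Tendsto (fun N : ℕ => β ^ 2 * ((N : ℝ) / ((N : ℝ) + 1))) atTop (𝓝 (β ^ 2 * 1)) :=
    tendsto_natCast_div_add_atTop (1 : ℝ) |>.const_mul (β ^ 2)
  rw [mul_one] at h1
  have h2 : Tendsto (fun N : ℕ => ∑ i : Fin D, ∑ i' : Fin D, (g * c (i.val + 1)) *
      (g * c (i'.val + 1)) * EE g N (fun S j => rf g F N (2 * i.val + 2) rg S j *
        rf g F N (2 * i'.val + 2) rg S j)) atTop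
      (𝓝 (∑ i : Fin D, ∑ i' : Fin D, (g * c (i.val + 1)) * (g * c (i'.val + 1)) *
        (if 2 * i.val = 2 * i'.val then ((2 * i.val + 2).factorial : ℝ) else 0))) := by
    refine tendsto_finsetSum _ fun i _ => tendsto_finsetSum _ fun i' _ => ?_
    exact (tendsto_rg hg F hF (2 * i.val) (2 * i'.val)).const_mul _
  have h3 := h1.add h2
  have e : (∑ i : Fin D, ∑ i' : Fin D, (g * c (i.val + 1)) * (g * c (i'.val + 1)) *
        (if 2 * i.val = 2 * i'.val then ((2 * i.val + 2).factorial : ℝ) else 0)) =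
      ∑ i : Fin D, (g * c (i.val + 1)) ^ 2 * ((2 * i.val + 2).factorial : ℝ) := by
    refine Finset.sum_congr rfl fun i _ => ?_
    rw [Finset.sum_eq_single i]
    · rw [if_pos rfl]; ring
    · intro i' _ hi
      rw [if_neg, mul_zero]
      intro h
      exact hi (Fin.ext (by omega))
    · intro h; exact absurd (Finset.mem_univ i) h
  rw [e] at h3
  refine h3.congr fun N => ?_
  exact (cN_nxt (by linarith)).symm

end Pool.Agent.H90.TF
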