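import Mathlib
import Pool.Agent.H90.TFNext
import Pool.Agent.H90.Dual

set_option autoImplicit false

namespace Pool.Agent.H90.TF

open Finset Pool.Agent.H90.Round Pool.Agent.H90.Bern Pool.Agent.H90.Four Pool.Agent.H90.Dual
open Filter Topology

/-- The nonlinear part. -/
noncomputable def Yf (g : ℝ) (F : FS) (D : ℕ) (c : ℕ → ℝ) (N : ℕ) (S : Finset ℕ)
    (j : ZMod (N + 1)) : ℝ :=
  ∑ i : Fin D, c (i.val + 1) * rf g F N (2 * i.val + 2) rg S j

open Classical in
/-- Its coefficients. -/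
noncomputable def Yc (g : ℝ) (F : FS) (D : ℕ) (c : ℕ → ℝ) (N : ℕ) (S : Finset ℕ)
    (κ : ZMod (N + 1)) : ℝ :=
  ∑ i : Fin D, c (i.val + 1) * ∑ x : Fin (2 * i.val + 2) → Lam F N,
    (if frt x = κ then rg x * cf g F N (2 * i.val + 2) (fun _ _ => True) S x else 0)

variable {F : FS} {D : ℕ} {c : ℕ → ℝ} {g β : ℝ} {N : ℕ}

theorem Yc_neg (S : Finset ℕ) (κ : ZMod (N + 1)) :
    Yc g F D c N S (-κ) = Yc g F D c N S κ := by
  classical
  unfold Yc
  refine Finset.sum_congr rfl fun i _ => ?_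
  congr 1
  rw [← Equiv.sum_comp (Function.Involutive.toPerm _
    (ngt_inv (F := F) (N := N) (K := 2 * i.val + 2)))]
  refine Finset.sum_congr rfl fun x _ => ?_
  have e : (Function.Involutive.toPerm _
    (ngt_inv (F := F) (N := N) (K := 2 * i.val + 2))) x = ngt x := rfl
  rw [e, frt_ngt, rg_ngt, cf_ngt]
  by_cases h : frt x = κ
  · rw [if_pos h, if_pos (by rw [h])]
  · rw [if_neg h, if_neg (fun h2 => h (neg_injective h2))]

theorem sum_Yc (w : ZMod (N + 1) → ℝ) (S : Finset ℕ) :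
    ∑ κ, w κ * Yc g F D c N S κ = ∑ i : Fin D, c (i.val + 1) *
      ∑ x : Fin (2 * i.val + 2) → Lam F N,
        rg x * cf g F N (2 * i.val + 2) (fun _ _ => True) S x * w (frt x) := by
  classical
  unfold Yc
  simp only [Finset.mul_sum]
  rw [Finset.sum_comm]
  refine Finset.sum_congr rfl fun i _ => ?_
  rw [Finset.sum_comm]
  refine Finset.sum_congr rfl fun x _ => ?_
  have : ∀ κ : ZMod (N + 1), w κ * (c (i.val + 1) * (if frt x = κ then
      rg x * cf g F N (2 * i.val + 2) (fun _ _ => True) S x else 0)) =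
      if frt x = κ then w κ * (c (i.val + 1) *
        (rg x * cf g F N (2 * i.val + 2) (fun _ _ => True) S x)) else 0 := by
    intro κ; split_ifs <;> ring
  simp only [this]
  rw [Finset.sum_ite_eq Finset.univ (frt x)]
  simp only [Finset.mem_univ, if_true]
  ring

theorem Yf_eq (S : Finset ℕ) (j : ZMod (N + 1)) :
    Yf g F D c N S j = ∑ κ, co (j * κ) * Yc g F D c N S κ := by
  rw [sum_Yc]
  rfl

open Classical in
theorem zf_nxt (S : Finset ℕ) (j : ZMod (N + 1)) :
    zf g (nxt F D c g β) N S j = ∑ κ : ZMod (N + 1), xi g S (ds κ) *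
      ((if κ = 0 then 0 else β / Real.sqrt ((N : ℝ) + 1)) + g * Yc g F D c N S κ) *
        co (j * κ) := by
  have e1 : ∑ κ : ZMod (N + 1), xi g S (ds κ) *
      ((if κ = 0 then 0 else β / Real.sqrt ((N : ℝ) + 1)) + g * Yc g F D c N S κ) *
        co (j * κ) = (∑ κ : ZMod (N + 1), (if κ = 0 then 0 else β / Real.sqrt ((N : ℝ) + 1)) *
        xi g S (ds κ) * co (j * κ)) +
        g * ∑ κ : ZMod (N + 1), (xi g S (ds κ) * co (j * κ)) * Yc g F D c N S κ := by
    rw [Finset.mul_sum, ← Finset.sum_add_distrib]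
    exact Finset.sum_congr rfl fun κ _ => by ring
  rw [e1, sum_Yc]
  unfold zf
  rw [sum_nxt]
  congr 1
  · simp only [wt_lfe, cls_lfe, rt_lfe, Finset.prod_singleton]
    rw [sum_unit (fun κ => (if κ = 0 then 0 else β / Real.sqrt ((N : ℝ) + 1)) *
        xi g S (ds κ) * co (j * κ))]
  · rw [Finset.mul_sum]
    refine Finset.sum_congr rfl fun i _ => ?_
    rw [Finset.mul_sum, Finset.mul_sum]
    refine Finset.sum_congr rfl fun x _ => ?_
    rw [wt_rte, cls_rte, rt_rte]
    by_cases h1 : GD (fun _ _ => True) (fun a => cls (x a)) ∧ ¬ Bad x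
    · rw [if_pos h1]
      have h2 : ds (frt x) ∉ fcls x := fun h => h1.2 (Or.inr h)
      have h3 : rg x = 1 := by unfold rg; rw [if_neg h1.2]
      have h4 : ∏ d ∈ fcls x, xi g S d = ∏ a, ∏ d ∈ cls (x a), xi g S d := by
        unfold fcls
        apply Finset.prod_biUnion
        intro a _ b _ hab
        exact h1.1 a b hab trivial
      rw [Finset.prod_insert h2, h3, h4]
      unfold cf
      rw [if_pos h1.1]
      ring
    · rw [if_neg h1]
      by_cases h2 : Bad x
      · have h3 : rg x = 0 := by unfold rg; rw [if_pos h2]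
        rw [h3]; ring
      · have h3 : ¬ GD (fun _ _ => True) (fun a => cls (x a)) := fun h => h1 ⟨h, h2⟩
        unfold cf
        rw [if_neg h3]; ring

theorem Yf_neg (S : Finset ℕ) (j : ZMod (N + 1)) : Yf g F D c N S (-j) = Yf g F D c N S j := by
  unfold Yf rf
  refine Finset.sum_congr rfl fun i _ => ?_
  congr 1
  refine Finset.sum_congr rfl fun x _ => ?_
  rw [neg_mul, co_neg]

theorem zf_neg (S : Finset ℕ) (j : ZMod (N + 1)) : zf g F N S (-j) = zf g F N S j := by
  unfold zf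
  refine Finset.sum_congr rfl fun x _ => ?_
  rw [neg_mul, co_neg]

theorem ind_eq (g : ℝ) (hg : 0 < g) (S : Finset ℕ) (d : ℕ) :
    (if d ∈ S then (1 : ℝ) else 0) = 1 / (1 + g ^ 2) * (1 + g * xi g S d) := by
  unfold xi
  have : (0 : ℝ) < 1 + g ^ 2 := by positivity
  split_ifs
  · field_simp
  · field_simp; ring

/-- The sequence of formal sums. -/
noncomputable def Fs (D : ℕ) (c : ℕ → ℝ) (g β : ℝ) : ℕ → FS
  | 0 => nxt ⟨Empty, fun _ => 0, fun _ => leafSys⟩ 0 c g 1
  | (a + 1) => nxt (Fs D c g β a) D c g β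

/-- Existence of the certificate. -/
theorem cert (hg : 0 < g) (hβ : 0 < β) {m : ℕ} (hm : 0 < m) {S : Finset ℕ}
    (hS : S ⊆ Ud N) : ∃ cc : ZMod (N + 1) → ℝ, (∀ κ, cc (-κ) = cc κ) ∧
      (∀ κ, cc κ ≠ 0 → ds κ ∈ S) ∧ ∀ j, tr cc j = dl N j - 1 +
        (Real.sqrt ((N : ℝ) + 1) * g / β) * ((∑ a ∈ range m, (Yf g (Fs D c g β a) D c N S j +
          zf g (Fs D c g β (a + 1)) N S j)) / m) := by
  classical
  set s : ℝ := Real.sqrt ((N : ℝ) + 1) with hs
  have hs0 : 0 < s := Real.sqrt_pos.mpr (by positivity)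
  have hs2 : s ^ 2 = (N : ℝ) + 1 := Real.sq_sqrt (by positivity)
  have hm' : (0 : ℝ) < m := by exact_mod_cast hm
  set A : ZMod (N + 1) → ℝ := fun κ => if κ = 0 then 0 else β / s with hA
  set B : ZMod (N + 1) → ℝ := fun κ =>
    (∑ a ∈ range m, Yc g (Fs D c g β a) D c N S κ) / m with hB
  have hA1 : ∀ κ, A (-κ) = A κ := by
    intro κ; simp only [hA, neg_eq_zero]
  have hB1 : ∀ κ, B (-κ) = B κ := by
    intro κ; simp only [hB, Yc_neg]
  refine ⟨fun κ => (if ds κ ∈ S then (1 : ℝ) else 0) * (s * (1 + g ^ 2) / β * (A κ + g * B κ)),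
    fun κ => ?_, fun κ hκ => ?_, fun j => ?_⟩
  · simp only [ds_neg, hA1, hB1]
  · by_contra h
    apply hκ
    simp only [if_neg h, zero_mul]
  · unfold tr
    have e1 : ∀ κ : ZMod (N + 1), (if ds κ ∈ S then (1 : ℝ) else 0) *
        (s * (1 + g ^ 2) / β * (A κ + g * B κ)) * co (j * κ) =
        (s / β) * (A κ * co (j * κ)) + (s * g / β) * (B κ * co (j * κ)) +
        (s * g / β) * (xi g S (ds κ) * (A κ + g * B κ) * co (j * κ)) := by
      intro κ
      rw [ind_eq g hg S (ds κ)]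
      have : (0 : ℝ) < 1 + g ^ 2 := by positivity
      field_simp
    simp only [e1]
    rw [Finset.sum_add_distrib, Finset.sum_add_distrib, ← Finset.mul_sum, ← Finset.mul_sum,
      ← Finset.mul_sum]
    have e2 : ∑ κ, A κ * co (j * κ) = (β / s) * (dl N j - 1) := by
      have e3 : ∀ κ, A κ * co (j * κ) = (β / s) * co (j * κ) -
          (if κ = 0 then β / s else 0) := by
        intro κ
        simp only [hA]
        by_cases h : κ = 0
        · rw [if_pos h, if_pos h, h, mul_zero, co_zero]; ring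
        · rw [if_neg h, if_neg h]; ring
      simp only [e3]
      rw [Finset.sum_sub_distrib, ← Finset.mul_sum, sum_co, Finset.sum_ite_eq' Finset.univ
        (0 : ZMod (N + 1))]
      simp only [Finset.mem_univ, if_true]
      unfold dl
      ring
    have e4 : ∑ κ, B κ * co (j * κ) =
        (∑ a ∈ range m, Yf g (Fs D c g β a) D c N S j) / m := by
      simp only [hB, Yf_eq]
      rw [Finset.sum_comm, Finset.sum_div]
      refine Finset.sum_congr rfl fun κ _ => ?_
      rw [← Finset.mul_sum]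
      ring
    have e5 : ∑ κ, xi g S (ds κ) * (A κ + g * B κ) * co (j * κ) =
        (∑ a ∈ range m, zf g (Fs D c g β (a + 1)) N S j) / m := by
      have e6 : ∀ a, zf g (Fs D c g β (a + 1)) N S j = ∑ κ : ZMod (N + 1), xi g S (ds κ) *
          (A κ + g * Yc g (Fs D c g β a) D c N S κ) * co (j * κ) := by
        intro a
        have : Fs D c g β (a + 1) = nxt (Fs D c g β a) D c g β := rfl
        rw [this, zf_nxt]
      simp only [e6]
      rw [Finset.sum_comm, Finset.sum_div]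
      refine Finset.sum_congr rfl fun κ _ => ?_
      rw [← Finset.sum_mul, ← Finset.mul_sum, Finset.sum_add_distrib, Finset.sum_const,
        Finset.card_range, nsmul_eq_mul, ← Finset.mul_sum]
      simp only [hB]
      field_simp
    rw [e2, e4, e5, Finset.sum_add_distrib]
    field_simp
    ring

/-- Shifting. -/
theorem T_shift {u v : ZMod (N + 1) → ℝ} {cc : ZMod (N + 1) → ℝ} (t : ℝ)
    {S S' : Finset ℕ} (hS : S ⊆ Ud N) (hS' : S' ⊆ Ud N) (h1 : ∀ κ, cc (-κ) = cc κ)
    (h2 : ∀ κ, cc κ ≠ 0 → ds κ ∈ S) (h3 : ∀ j, u j ≤ tr cc j + t + v j) :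
    T u (S ∪ S') ≤ t + T v S' := by
  have hne : (TS v S').Nonempty := ⟨_, TS_triv _ _⟩
  rw [← sub_le_iff_le_add']
  refine le_csInf hne fun t' ht' => ?_
  rw [sub_le_iff_le_add']
  refine T_le (Finset.union_subset hS hS') ?_
  obtain ⟨c, hc1, hc2, hc3⟩ := ht'
  refine ⟨fun k => cc k + c k, fun k => ?_, fun k hk => ?_, fun j => ?_⟩
  · show cc (-k) + c (-k) = cc k + c k
    rw [hc1, h1]
  · rw [Finset.mem_union]
    by_contra h
    push Not at h
    apply hk
    have a1 : c k = 0 := by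
      by_contra h4
      exact h.2 (hc2 k h4)
    have a2 : cc k = 0 := by
      by_contra h4
      exact h.1 (h2 k h4)
    simp [a1, a2]
  · have a1 := hc3 j
    have a2 : tr (fun k => cc k + c k) j = tr cc j + tr c j := by
      unfold tr
      rw [← Finset.sum_add_distrib]
      exact Finset.sum_congr rfl fun k _ => by ring
    rw [a2]
    have a3 := h3 j
    linarith

theorem Ex_T_le' {r : ℝ} (h0 : 0 ≤ r) (hr : r < 1) {v : ZMod (N + 1) → ℝ}
    (hv : ∀ j, v (-j) = v j) (hv0 : ∀ j, 0 ≤ v j) :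
    Ex (Ud N) r (T v) ≤ 58 / (1 - r) ^ 2 * Real.sqrt (En v) := by
  have h3 : ∀ R : ℕ, Ex (Ud N) r (T v) ≤
      Real.sqrt (En v) * ((58 + Real.sqrt ((N : ℝ) + 1) / 2 ^ R) / (1 - r) ^ 2) :=
    fun R => Ex_T_le R h0 hr hv hv0
  have h4 : Filter.Tendsto (fun R : ℕ =>
      Real.sqrt (En v) * ((58 + Real.sqrt ((N : ℝ) + 1) / 2 ^ R) / (1 - r) ^ 2)) Filter.atTop
      (nhds (Real.sqrt (En v) * ((58 + 0) / (1 - r) ^ 2))) := by
    refine Filter.Tendsto.const_mul _ (Filter.Tendsto.div_const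
      (Filter.Tendsto.const_add _ ?_) _)
    have h5 := (tendsto_pow_atTop_nhds_zero_of_lt_one (r := (1 / 2 : ℝ)) (by norm_num)
      (by norm_num)).const_mul (Real.sqrt ((N : ℝ) + 1))
    rw [mul_zero] at h5
    refine h5.congr fun R => ?_
    rw [div_pow, one_pow]; ring
  have h6 := ge_of_tendsto' h4 h3
  rw [add_zero] at h6
  calc _ ≤ _ := h6
    _ = _ := by ring

/-- The violation of the certificate. -/
noncomputable def vio (g β : ℝ) (D : ℕ) (c : ℕ → ℝ) (m N : ℕ) (S : Finset ℕ)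
    (j : ZMod (N + 1)) : ℝ :=
  (Real.sqrt ((N : ℝ) + 1) * g / β) * max (-((∑ a ∈ range m, (c 0 +
    Yf g (Fs D c g β a) D c N S j + zf g (Fs D c g β (a + 1)) N S j)) / m)) 0

/-- The upper bound for every size. -/
theorem main_bound (hg : 1 ≤ g) (hβ : 0 < β) {m : ℕ} (hm : 0 < m) {r' : ℝ} (h0 : 0 ≤ r')
    (hr : r' < 1) (hrr : pr g * r' = 1 / 2) :
    Ex (Ud N) (1 / 2) (T (dl N)) ≤ 1 + (Real.sqrt ((N : ℝ) + 1) * g / β) * c 0 +
      58 / (1 - r') ^ 2 * Real.sqrt (EE g N (fun S j => vio g β D c m N S j ^ 2)) := by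
  have hg0 : 0 < g := by linarith
  have hm' : (0 : ℝ) < m := by exact_mod_cast hm
  rw [← hrr, Ex_union]
  have h1 : ∀ S, S ⊆ Ud N → Ex (Ud N) r' (fun S' => T (dl N) (S ∪ S')) ≤
      (1 + (Real.sqrt ((N : ℝ) + 1) * g / β) * c 0) +
        58 / (1 - r') ^ 2 * Real.sqrt (En (vio g β D c m N S)) := by
    intro S hS
    obtain ⟨cc, c1, c2, c3⟩ := cert (D := D) (c := c) hg0 hβ hm hS
    have h2 : Ex (Ud N) r' (fun S' => T (dl N) (S ∪ S')) ≤
        Ex (Ud N) r' (fun S' => (1 + (Real.sqrt ((N : ℝ) + 1) * g / β) * c 0) +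
          T (vio g β D c m N S) S') := by
      refine Ex_mono h0 hr.le fun S' hS' => ?_
      refine T_shift _ hS hS' c1 c2 fun j => ?_
      rw [c3 j]
      unfold vio
      set P : ℝ := Real.sqrt ((N : ℝ) + 1) * g / β with hP
      have hP0 : 0 ≤ P := by positivity
      have e1 : (∑ a ∈ range m, (c 0 + Yf g (Fs D c g β a) D c N S j +
          zf g (Fs D c g β (a + 1)) N S j)) / m = c 0 + (∑ a ∈ range m,
          (Yf g (Fs D c g β a) D c N S j + zf g (Fs D c g β (a + 1)) N S j)) / m := by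
        simp only [add_assoc]
        rw [Finset.sum_add_distrib, Finset.sum_const, Finset.card_range, nsmul_eq_mul]
        field_simp
      rw [e1]
      set q : ℝ := (∑ a ∈ range m,
          (Yf g (Fs D c g β a) D c N S j + zf g (Fs D c g β (a + 1)) N S j)) / m with hq
      have e2 : -(c 0 + q) ≤ max (-(c 0 + q)) 0 := le_max_left _ _
      have e3 := mul_le_mul_of_nonneg_left e2 hP0
      nlinarith
    refine h2.trans ?_
    rw [Ex_add, Ex_const]
    refine add_le_add le_rfl (Ex_T_le' h0 hr (fun j => ?_) fun j => ?_)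
    · unfold vio
      simp only [Yf_neg, zf_neg]
    · unfold vio
      exact mul_nonneg (by positivity) (le_max_right _ _)
  refine (Ex_mono (pr_nonneg g) (pr_le g) h1).trans ?_
  rw [Ex_add, Ex_const, Ex_smul]
  refine add_le_add le_rfl (mul_le_mul_of_nonneg_left ?_ (by positivity))
  refine (Ex_sqrt_le (pr_nonneg g) (pr_le g) fun S _ => En_nonneg _).trans (le_of_eq ?_)
  rfl

end Pool.Agent.H90.TF
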