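import Mathlib
import Pool.Agent.H90.TFCert

set_option autoImplicit false

namespace Pool.Agent.H90.TF

open Finset Pool.Agent.H90.Round Pool.Agent.H90.Bern Pool.Agent.H90.Four Pool.Agent.H90.Dual
open Filter Topology

/-- Bound for the squared error of one iterate. -/
noncomputable def UB (g : ℝ) (F : FS) (D : ℕ) (c : ℕ → ℝ) (Q : Polynomial ℝ) (N : ℕ)
    (S : Finset ℕ) (j : ZMod (N + 1)) : ℝ :=
  3 * Q.eval (zf g F N S j) + ∑ i : Fin D, (3 * D * c (i.val + 1) ^ 2) *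
    ((wp g F N (2 * i.val + 2) S j - (He (2 * i.val + 2)).eval (zf g F N S j)) ^ 2 +
      rf g F N (2 * i.val + 2) rb S j ^ 2)

theorem E_sq_le {g : ℝ} {F : FS} {D : ℕ} {c : ℕ → ℝ} {Q : Polynomial ℝ}
    (hQ : ∀ x : ℝ, (|x| - (∑ i ∈ range (D + 1), c i • He (2 * i)).eval x) ^ 2 ≤ Q.eval x)
    (N : ℕ) (S : Finset ℕ) (j : ZMod (N + 1)) :
    (c 0 + Yf g F D c N S j - |zf g F N S j|) ^ 2 ≤ UB g F D c Q N S j := by
  set z : ℝ := zf g F N S j with hz
  have h1 : (∑ i ∈ range (D + 1), c i • He (2 * i)).eval z =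
      c 0 + ∑ i : Fin D, c (i.val + 1) * (He (2 * i.val + 2)).eval z := by
    rw [Polynomial.eval_finsetSum, Finset.sum_range_succ', add_comm, Finset.sum_range]
    congr 1
    · simp [He]
    · refine Finset.sum_congr rfl fun i _ => ?_
      rw [Polynomial.eval_smul, smul_eq_mul]
      congr 2
  have h2 : Yf g F D c N S j = ∑ i : Fin D, c (i.val + 1) * (wp g F N (2 * i.val + 2) S j) -
      ∑ i : Fin D, c (i.val + 1) * rf g F N (2 * i.val + 2) rb S j := by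
    unfold Yf
    rw [← Finset.sum_sub_distrib]
    refine Finset.sum_congr rfl fun i _ => ?_
    rw [wp_split]; ring
  set a : ℝ := |z| - (∑ i ∈ range (D + 1), c i • He (2 * i)).eval z with ha
  set b : ℝ := ∑ i : Fin D, c (i.val + 1) *
    (wp g F N (2 * i.val + 2) S j - (He (2 * i.val + 2)).eval z) with hb
  set d : ℝ := ∑ i : Fin D, c (i.val + 1) * rf g F N (2 * i.val + 2) rb S j with hd
  have h3 : c 0 + Yf g F D c N S j - |z| = -a + b - d := by
    rw [ha, hb, h1, h2]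
    simp only [mul_sub, Finset.sum_sub_distrib]
    ring
  have h4 : a ^ 2 ≤ Q.eval z := hQ z
  have h5 : b ^ 2 ≤ ∑ i : Fin D, (D * c (i.val + 1) ^ 2) *
      (wp g F N (2 * i.val + 2) S j - (He (2 * i.val + 2)).eval z) ^ 2 := by
    have := sq_sum_le_card_mul_sum_sq (s := (univ : Finset (Fin D))) (f := fun i =>
      c (i.val + 1) * (wp g F N (2 * i.val + 2) S j - (He (2 * i.val + 2)).eval z))
    rw [Finset.card_univ, Fintype.card_fin, Finset.mul_sum] at this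
    refine this.trans (le_of_eq ?_)
    exact Finset.sum_congr rfl fun i _ => by ring
  have h6 : d ^ 2 ≤ ∑ i : Fin D, (D * c (i.val + 1) ^ 2) *
      rf g F N (2 * i.val + 2) rb S j ^ 2 := by
    have := sq_sum_le_card_mul_sum_sq (s := (univ : Finset (Fin D))) (f := fun i =>
      c (i.val + 1) * rf g F N (2 * i.val + 2) rb S j)
    rw [Finset.card_univ, Fintype.card_fin, Finset.mul_sum] at this
    refine this.trans (le_of_eq ?_)
    exact Finset.sum_congr rfl fun i _ => by ring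
  have h7 : UB g F D c Q N S j = 3 * Q.eval z + 3 * (∑ i : Fin D, (D * c (i.val + 1) ^ 2) *
      (wp g F N (2 * i.val + 2) S j - (He (2 * i.val + 2)).eval z) ^ 2) +
      3 * (∑ i : Fin D, (D * c (i.val + 1) ^ 2) * rf g F N (2 * i.val + 2) rb S j ^ 2) := by
    unfold UB
    rw [Finset.mul_sum, Finset.mul_sum, add_assoc, ← Finset.sum_add_distrib]
    congr 1
    exact Finset.sum_congr rfl fun i _ => by ring
  rw [h3, h7]
  have h8 : (-a + b - d) ^ 2 ≤ 3 * a ^ 2 + 3 * b ^ 2 + 3 * d ^ 2 := by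
    nlinarith [sq_nonneg (a + b), sq_nonneg (a - d), sq_nonneg (b + d)]
  linarith

theorem tendsto_UB {g : ℝ} (hg : 1 ≤ g) {F : FS} (hF : Tendsto (cN F) atTop (𝓝 1)) (D : ℕ)
    (c : ℕ → ℝ) (Q : Polynomial ℝ) :
    Tendsto (fun N => EE g N (UB g F D c Q N)) atTop (𝓝 (3 * ell 0 Q)) := by
  have h1 := (tendsto_poly0 hg F hF Q).const_mul 3
  have h2 : Tendsto (fun N => ∑ i : Fin D, (3 * D * c (i.val + 1) ^ 2) *
      (EE g N (fun S j => (wp g F N (2 * i.val + 2) S j -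
        (He (2 * i.val + 2)).eval (zf g F N S j)) ^ 2) +
      EE g N (fun S j => rf g F N (2 * i.val + 2) rb S j ^ 2))) atTop
      (𝓝 (∑ i : Fin D, (3 * D * c (i.val + 1) ^ 2) * (0 + 0))) := by
    refine tendsto_finsetSum _ fun i _ => Tendsto.const_mul _ (Tendsto.add ?_ ?_)
    · exact tendsto_wick hg F hF _
    · exact tendsto_rb hg F _
  have h3 := h1.add h2
  have e : (∑ i : Fin D, (3 * (D : ℝ) * c (i.val + 1) ^ 2) * (0 + 0)) = 0 := by simp
  rw [e, add_zero] at h3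
  refine h3.congr fun N => ?_
  unfold UB
  rw [EE_add, EE_smul, EE_sum]
  congr 1
  refine Finset.sum_congr rfl fun i _ => ?_
  rw [EE_smul, EE_add]

theorem vio_sq_le {g β : ℝ} {D : ℕ} {c : ℕ → ℝ} {Q : Polynomial ℝ}
    (hQ : ∀ x : ℝ, (|x| - (∑ i ∈ range (D + 1), c i • He (2 * i)).eval x) ^ 2 ≤ Q.eval x)
    {m : ℕ} (hm : 0 < m) (N : ℕ) (S : Finset ℕ) (j : ZMod (N + 1)) :
    vio g β D c m N S j ^ 2 ≤ (Real.sqrt ((N : ℝ) + 1) * g / β) ^ 2 *
      (4 / (m : ℝ) ^ 2 * (zf g (Fs D c g β 0) N S j ^ 2 + zf g (Fs D c g β m) N S j ^ 2) +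
        2 / (m : ℝ) * ∑ a ∈ range m, UB g (Fs D c g β a) D c Q N S j) := by
  have hm' : (0 : ℝ) < m := by exact_mod_cast hm
  unfold vio
  rw [mul_pow]
  refine mul_le_mul_of_nonneg_left ?_ (sq_nonneg _)
  set z : ℕ → ℝ := fun a => zf g (Fs D c g β a) N S j with hz
  set E : ℕ → ℝ := fun a => c 0 + Yf g (Fs D c g β a) D c N S j - |z a| with hE
  have h1 : ∑ a ∈ range m, (c 0 + Yf g (Fs D c g β a) D c N S j + z (a + 1)) ≥
      (∑ a ∈ range m, E a) + (z m - z 0) := by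
    rw [← Finset.sum_range_sub, ← Finset.sum_add_distrib]
    refine Finset.sum_le_sum fun a _ => ?_
    have := neg_abs_le (z a)
    simp only [hE]
    linarith
  set W1 : ℝ := ∑ a ∈ range m, (c 0 + Yf g (Fs D c g β a) D c N S j + z (a + 1)) with hW1
  set WE : ℝ := ∑ a ∈ range m, E a with hWE
  set Y : ℝ := (z 0 - z m - WE) / m with hY
  have h2 : -(W1 / m) ≤ Y := by
    rw [hY, ← neg_div]
    exact div_le_div_of_nonneg_right (by linarith) hm'.le
  have h3 : max (-(W1 / m)) 0 ^ 2 ≤ Y ^ 2 := by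
    rcases le_total (-(W1 / m)) 0 with h | h
    · rw [max_eq_right h]; nlinarith [sq_nonneg Y]
    · rw [max_eq_left h]
      exact pow_le_pow_left₀ h h2 2
  have h4 : WE ^ 2 ≤ m * ∑ a ∈ range m, E a ^ 2 := by
    have := sq_sum_le_card_mul_sum_sq (s := range m) (f := E)
    rwa [Finset.card_range] at this
  have h5 : ∑ a ∈ range m, E a ^ 2 ≤ ∑ a ∈ range m, UB g (Fs D c g β a) D c Q N S j :=
    Finset.sum_le_sum fun a _ => E_sq_le hQ N S j
  have h6 : Y ^ 2 ≤ 4 / (m : ℝ) ^ 2 * (z 0 ^ 2 + z m ^ 2) +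
      2 / (m : ℝ) ^ 2 * WE ^ 2 := by
    rw [hY, div_pow, div_mul_eq_mul_div, div_mul_eq_mul_div, ← add_div]
    refine div_le_div_of_nonneg_right ?_ (by positivity)
    nlinarith [sq_nonneg (z 0 - z m + WE), sq_nonneg (z 0 + z m)]
  have h7 : 2 / (m : ℝ) ^ 2 * WE ^ 2 ≤
      2 / (m : ℝ) * ∑ a ∈ range m, UB g (Fs D c g β a) D c Q N S j := by
    calc 2 / (m : ℝ) ^ 2 * WE ^ 2 ≤ 2 / (m : ℝ) ^ 2 * (m * ∑ a ∈ range m,
          UB g (Fs D c g β a) D c Q N S j) :=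
          mul_le_mul_of_nonneg_left (h4.trans (mul_le_mul_of_nonneg_left h5 hm'.le))
            (by positivity)
      _ = _ := by field_simp
  linarith

/-- Normalised bound for the violation. -/
noncomputable def VN (g β : ℝ) (D : ℕ) (c : ℕ → ℝ) (Q : Polynomial ℝ) (m N : ℕ) : ℝ :=
  (g / β) ^ 2 * (4 / (m : ℝ) ^ 2 * (EE g N (fun S j => zf g (Fs D c g β 0) N S j ^ 2) +
    EE g N (fun S j => zf g (Fs D c g β m) N S j ^ 2)) +
        2 / (m : ℝ) * ∑ a ∈ range m, EE g N (UB g (Fs D c g β a) D c Q N))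

theorem EE_vio_le {g β : ℝ} {D : ℕ} {c : ℕ → ℝ} {Q : Polynomial ℝ}
    (hQ : ∀ x : ℝ, (|x| - (∑ i ∈ range (D + 1), c i • He (2 * i)).eval x) ^ 2 ≤ Q.eval x)
    {m : ℕ} (hm : 0 < m) (N : ℕ) :
    EE g N (fun S j => vio g β D c m N S j ^ 2) ≤ ((N : ℝ) + 1) * VN g β D c Q m N := by
  refine (EE_mono fun S _ j => vio_sq_le hQ hm N S j).trans (le_of_eq ?_)
  rw [EE_smul, EE_add, EE_smul, EE_smul, EE_add, EE_sum]
  unfold VN
  have hs2 : Real.sqrt ((N : ℝ) + 1) ^ 2 = (N : ℝ) + 1 := Real.sq_sqrt (by positivity)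
  have e : (Real.sqrt ((N : ℝ) + 1) * g / β) ^ 2 = ((N : ℝ) + 1) * (g / β) ^ 2 := by
    rw [mul_div_assoc, mul_pow, hs2]
  rw [e, mul_assoc]

theorem tendsto_Fs {g β : ℝ} (hg : 1 ≤ g) {D : ℕ} {c : ℕ → ℝ}
    (hβ : β ^ 2 + ∑ i : Fin D, (g * c (i.val + 1)) ^ 2 * ((2 * i.val + 2).factorial : ℝ) = 1)
    (a : ℕ) : Tendsto (cN (Fs D c g β a)) atTop (𝓝 1) := by
  induction a with
  | zero =>
    have h1 : Tendsto (fun N : ℕ => (1 : ℝ) ^ 2 * ((N : ℝ) / ((N : ℝ) + 1))) atTop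
        (𝓝 (1 ^ 2 * 1)) := (tendsto_natCast_div_add_atTop (1 : ℝ)).const_mul (1 ^ 2)
    rw [one_pow, one_mul] at h1
    refine h1.congr fun N => ?_
    have : Fs D c g β 0 = nxt ⟨Empty, fun _ => 0, fun _ => leafSys⟩ 0 c g 1 := rfl
    rw [this, cN_nxt (by linarith)]
    simp
  | succ a ih =>
    have h1 := tendsto_cN_nxt (F := Fs D c g β a) (D := D) (c := c) (g := g) (β := β) hg ih
    rw [hβ] at h1
    exact h1

theorem tendsto_VN {g β : ℝ} (hg : 1 ≤ g) {D : ℕ} {c : ℕ → ℝ}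
    (hβ : β ^ 2 + ∑ i : Fin D, (g * c (i.val + 1)) ^ 2 * ((2 * i.val + 2).factorial : ℝ) = 1)
    (Q : Polynomial ℝ) {m : ℕ} (hm : 0 < m) :
    Tendsto (VN g β D c Q m) atTop (𝓝 ((g / β) ^ 2 * (8 / (m : ℝ) ^ 2 + 6 * ell 0 Q))) := by
  have hm' : (0 : ℝ) < m := by exact_mod_cast hm
  have hz : ∀ a, Tendsto (fun N => EE g N (fun S j => zf g (Fs D c g β a) N S j ^ 2)) atTop
      (𝓝 1) := by
    intro a
    have h1 := tendsto_wp_z hg (Fs D c g β a) (tendsto_Fs hg hβ a) 0 2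
    have e : Lf false 0 2 = 1 := by simp [Lf]
    rw [e] at h1
    refine h1.congr fun N => ?_
    refine EE_congr fun S j => ?_
    rw [wp_zero, one_mul]
  have h2 : Tendsto (fun N => ∑ a ∈ range m, EE g N (UB g (Fs D c g β a) D c Q N)) atTop
      (𝓝 (∑ _a ∈ range m, 3 * ell 0 Q)) :=
    tendsto_finsetSum _ fun a _ => tendsto_UB hg (tendsto_Fs hg hβ a) D c Q
  rw [Finset.sum_const, Finset.card_range, nsmul_eq_mul] at h2
  have h3 := ((((hz 0).add (hz m)).const_mul (4 / (m : ℝ) ^ 2)).add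
    (h2.const_mul (2 / (m : ℝ)))).const_mul ((g / β) ^ 2)
  have e : (g / β) ^ 2 * (4 / (m : ℝ) ^ 2 * (1 + 1) + 2 / (m : ℝ) * ((m : ℝ) * (3 * ell 0 Q))) =
      (g / β) ^ 2 * (8 / (m : ℝ) ^ 2 + 6 * ell 0 Q) := by
    congr 1
    field_simp
    ring
  rw [e] at h3
  exact h3

end Pool.Agent.H90.TF
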