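import Mathlib
import Pool.Agent.H90.Dual

set_option autoImplicit false

namespace Pool.Agent.H90.TF

open Finset Pool.Agent.H90.Round Pool.Agent.H90.Bern Pool.Agent.H90.Four Pool.Agent.H90.Dual
open Filter Topology

variable {N : ℕ}

theorem one_le_of_TS {S : Finset ℕ} (hS : S ⊆ Ud N) {t : ℝ} (ht : t ∈ TS (dl N) S) : 1 ≤ t := by
  have := TS_lower hS ht
  rwa [mean_dl] at this

theorem psd_circ {w : ZMod (N + 1) → ℝ} (hw : ∀ j, 0 ≤ w j) :
    (Matrix.of fun a b : ZMod (N + 1) => ∑ j, w j * co (j * (a - b))).PosSemidef := by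
  rw [Matrix.posSemidef_iff_dotProduct_mulVec]
  constructor
  · ext a b
    simp only [Matrix.conjTranspose_apply, Matrix.of_apply, star_trivial]
    refine Finset.sum_congr rfl fun j _ => ?_
    rw [← co_neg (j * (a - b)), ← mul_neg, neg_sub]
  · intro x
    have h1 : star x ⬝ᵥ (Matrix.of fun a b : ZMod (N + 1) =>
        ∑ j, w j * co (j * (a - b))).mulVec x =
        ∑ j, w j * ((∑ a, x a * co (j * a)) ^ 2 + (∑ a, x a * si (j * a)) ^ 2) := by
      simp only [dotProduct, Matrix.mulVec, Pi.star_apply, star_trivial, Matrix.of_apply]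
      have e1 : ∀ j, w j * ((∑ a, x a * co (j * a)) ^ 2 + (∑ a, x a * si (j * a)) ^ 2) =
          ∑ a, ∑ b, x a * (w j * co (j * (a - b)) * x b) := by
        intro j
        rw [sq, sq, Finset.sum_mul_sum, Finset.sum_mul_sum, ← Finset.sum_add_distrib,
          Finset.mul_sum]
        refine Finset.sum_congr rfl fun a _ => ?_
        rw [← Finset.sum_add_distrib, Finset.mul_sum]
        refine Finset.sum_congr rfl fun b _ => ?_
        rw [mul_sub, co_sub]; ring
      simp only [e1]
      rw [Finset.sum_comm]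
      refine Finset.sum_congr rfl fun a _ => ?_
      rw [Finset.sum_comm, Finset.mul_sum]
      refine Finset.sum_congr rfl fun b _ => ?_
      rw [Finset.sum_mul, Finset.mul_sum]
    rw [h1]
    exact Finset.sum_nonneg fun j _ => mul_nonneg (hw j) (by positivity)

/-- A feasible primal matrix from a dual certificate of the complement. -/
theorem primal {S S' : Finset ℕ} (hdis : Disjoint S S') (hS' : S' ⊆ Ud N) {t : ℝ}
    (ht : t ∈ TS (dl N) S') : ∃ B : Matrix (ZMod (N + 1)) (ZMod (N + 1)) ℝ,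
      B.PosSemidef ∧ B.trace = 1 ∧ (∀ a b, a ≠ b → ds (a - b) ∈ S → B a b = 0) ∧
      ((N : ℝ) + 1) / t ≤ ∑ a, ∑ b, B a b := by
  have ht1 := one_le_of_TS hS' ht
  obtain ⟨c, hc1, hc2, hc3⟩ := ht
  have ht0 : 0 < t := by linarith
  have hn : (0 : ℝ) < (N : ℝ) + 1 := by positivity
  have hc0 : c 0 = 0 := by
    by_contra h
    have h1 := hS' (hc2 0 h)
    rw [ds_zero] at h1
    simp [Ud] at h1
  set w : ZMod (N + 1) → ℝ := fun j => (tr c j + t) / (t * ((N : ℝ) + 1) ^ 2) with hw
  have hw0 : ∀ j, 0 ≤ w j := by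
    intro j
    refine div_nonneg ?_ (by positivity)
    have := hc3 j
    have := dl_nonneg j
    linarith
  have hker : ∀ x : ZMod (N + 1), ∑ j, w j * co (j * x) =
      (c x + (if x = 0 then t else 0)) / (t * ((N : ℝ) + 1)) := by
    intro x
    have e1 : ∑ j, w j * co (j * x) = ((∑ j, tr c j * co (j * x)) / ((N : ℝ) + 1) +
        t * (∑ j, co (j * x)) / ((N : ℝ) + 1)) / (t * ((N : ℝ) + 1)) := by
      rw [← add_div, Finset.mul_sum, ← Finset.sum_add_distrib, Finset.sum_div, Finset.sum_div]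
      refine Finset.sum_congr rfl fun j _ => ?_
      simp only [hw]
      field_simp
    have e2 : ∑ j : ZMod (N + 1), co (j * x) = if x = 0 then ((N : ℝ) + 1) else 0 := by
      rw [← sum_co x]
      exact Finset.sum_congr rfl fun j _ => by rw [mul_comm]
    have e4 : (∑ j, tr c j * co (j * x)) / ((N : ℝ) + 1) = c x := inv_tr hc1 x
    rw [e1, e2, e4]
    congr 2
    split_ifs
    · field_simp
    · simp
  refine ⟨Matrix.of fun a b => ∑ j, w j * co (j * (a - b)), psd_circ hw0, ?_, ?_, ?_⟩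
  · simp only [Matrix.trace, Matrix.diag, Matrix.of_apply, sub_self]
    simp only [hker 0, if_true, hc0, zero_add]
    rw [Finset.sum_const, Finset.card_univ, ZMod.card, nsmul_eq_mul]
    push_cast
    field_simp
  · intro a b hab hd
    rw [Matrix.of_apply, hker, if_neg (sub_ne_zero.mpr hab)]
    have : c (a - b) = 0 := by
      by_contra h
      exact Finset.disjoint_left.mp hdis hd (hc2 _ h)
    rw [this]; simp
  · simp only [Matrix.of_apply, hker]
    have e1 : ∀ a : ZMod (N + 1), ∑ b, (c (a - b) + (if a - b = 0 then t else 0)) /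
        (t * ((N : ℝ) + 1)) = ∑ x, (c x + (if x = 0 then t else 0)) / (t * ((N : ℝ) + 1)) :=
      fun a => (Equiv.subLeft a).sum_comp
        (fun x => (c x + (if x = 0 then t else 0)) / (t * ((N : ℝ) + 1)))
    simp only [e1]
    rw [Finset.sum_const, Finset.card_univ, ZMod.card, nsmul_eq_mul, ← Finset.sum_div,
      Finset.sum_add_distrib, Finset.sum_ite_eq' Finset.univ (0 : ZMod (N + 1))]
    simp only [Finset.mem_univ, if_true]
    have e2 : ∑ x, c x = tr c 0 := by
      unfold tr
      refine Finset.sum_congr rfl fun x _ => ?_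
      rw [zero_mul, co_zero, mul_one]
    have e3 := hc3 0
    have e4 : dl N 0 = (N : ℝ) + 1 := by unfold dl; rw [if_pos rfl]
    rw [e4] at e3
    rw [e2]
    push_cast
    rw [← mul_div_assoc, mul_comm ((N : ℝ) + 1) (tr c 0 + t), mul_div_mul_right _ _ hn.ne']
    exact div_le_div_of_nonneg_right e3 ht0.le

theorem theta_ge {S : Finset ℕ} (hS : S ⊆ Ud N) {t : ℝ} (ht : t ∈ TS (dl N) (Ud N \ S)) :
    ((N : ℝ) + 1) / t ≤ theta (N + 1) S := by
  obtain ⟨B, hB, htr, hz, hsum⟩ := primal (S := S) (S' := Ud N \ S)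
    Finset.disjoint_sdiff Finset.sdiff_subset ht
  refine hsum.trans ?_
  apply le_csSup
  · obtain ⟨t', ht'⟩ : (TS (dl N) S).Nonempty := ⟨_, TS_triv _ _⟩
    refine ⟨t', ?_⟩
    rintro x ⟨B', hB', htr', hz', rfl⟩
    refine weak_dual (N := N) (B := B') hB' htr' hS ?_ ht'
    intro a b hab hd
    have key : ∀ (a b : Fin (N + 1)), a ≠ b → min (a - b).val (b - a).val ∈ S →
        (SimpleGraph.fromRel
          (fun a b : Fin (N + 1) => min (b - a).val (a - b).val ∈ S)).Adj a b := by
      intro a b hab h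
      rw [SimpleGraph.fromRel_adj]
      exact ⟨hab, Or.inr h⟩
    refine hz' a b (key a b hab ?_)
    have e' : (-(a - b) : ZMod (N + 1)) = b - a := by ring
    unfold ds at hd
    rw [e'] at hd
    exact hd
  · refine ⟨B, hB, htr, ?_, rfl⟩
    have key : ∀ i j : ZMod (N + 1), i ≠ j → (min (j - i).val (i - j).val ∈ S ∨
        min (i - j).val (j - i).val ∈ S) → B i j = 0 := by
      intro i j hne h
      apply hz i j hne
      unfold ds
      have e' : (-(i - j) : ZMod (N + 1)) = j - i := by ring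
      rw [e']
      rcases h with h | h
      · rw [min_comm]; exact h
      · exact h
    intro i j hij
    rw [SimpleGraph.fromRel_adj] at hij
    obtain ⟨hne, h⟩ := hij
    exact key i j hne h

theorem T_ge_one {S : Finset ℕ} (hS : S ⊆ Ud N) : 1 ≤ T (dl N) S :=
  le_csInf ⟨_, TS_triv _ _⟩ fun _ ht => one_le_of_TS hS ht

theorem theta_ge' {S : Finset ℕ} (hS : S ⊆ Ud N) :
    ((N : ℝ) + 1) / T (dl N) (Ud N \ S) ≤ theta (N + 1) S := by
  have hn : (0 : ℝ) < (N : ℝ) + 1 := by positivity
  have hne : (TS (dl N) (Ud N \ S)).Nonempty := ⟨_, TS_triv _ _⟩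
  have hpos : 0 < theta (N + 1) S := by
    obtain ⟨t, ht⟩ := hne
    have h1 := theta_ge hS ht
    have h2 := one_le_of_TS Finset.sdiff_subset ht
    have : 0 < ((N : ℝ) + 1) / t := by positivity
    linarith
  have hT := T_ge_one (N := N) (S := Ud N \ S) Finset.sdiff_subset
  rw [div_le_iff₀ (by linarith), ← div_le_iff₀' hpos]
  refine le_csInf hne fun t ht => ?_
  have h1 := theta_ge hS ht
  have h2 := one_le_of_TS Finset.sdiff_subset ht
  rw [div_le_iff₀ (by linarith)] at h1
  rw [div_le_iff₀' hpos]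
  exact h1

theorem Ex_compl (U : Finset ℕ) (f : Finset ℕ → ℝ) :
    Ex U (1 / 2) (fun S => f (U \ S)) = Ex U (1 / 2) f := by
  rw [Ex_half, Ex_half]
  congr 1
  refine Finset.sum_nbij' (fun S => U \ S) (fun S => U \ S) ?_ ?_ ?_ ?_ ?_
  · intro S _; exact Finset.mem_powerset.mpr Finset.sdiff_subset
  · intro S _; exact Finset.mem_powerset.mpr Finset.sdiff_subset
  · intro S hS; exact Finset.sdiff_sdiff_eq_self (Finset.mem_powerset.mp hS)
  · intro S hS; exact Finset.sdiff_sdiff_eq_self (Finset.mem_powerset.mp hS)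
  · intro S _; rfl

theorem lower (N : ℕ) : ((N : ℝ) + 1) / Ex (Ud N) (1 / 2) (T (dl N)) ≤
    Ex (Ud N) (1 / 2) (theta (N + 1)) := by
  have hn : (0 : ℝ) < (N : ℝ) + 1 := by positivity
  set m := Ex (Ud N) (1 / 2) (T (dl N)) with hm
  have hm1 : 1 ≤ m := by
    have := Ex_mono (U := Ud N) (r := 1 / 2) (by norm_num) (by norm_num)
      (f := fun _ => 1) (g := T (dl N)) fun S hS => T_ge_one hS
    rwa [Ex_const] at this
  have h1 : Ex (Ud N) (1 / 2) (fun S => ((N : ℝ) + 1) * (2 / m) +
      (-(((N : ℝ) + 1) / m ^ 2)) * T (dl N) (Ud N \ S)) ≤ Ex (Ud N) (1 / 2) (theta (N + 1)) := by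
    refine Ex_mono (by norm_num) (by norm_num) fun S hS => ?_
    refine le_trans ?_ (theta_ge' hS)
    have hT := T_ge_one (N := N) (S := Ud N \ S) Finset.sdiff_subset
    set x := T (dl N) (Ud N \ S) with hx
    have hx0 : 0 < x := by linarith
    have hm0 : 0 < m := by linarith
    have e : ((N : ℝ) + 1) / x - (((N : ℝ) + 1) * (2 / m) + (-(((N : ℝ) + 1) / m ^ 2)) * x) =
        ((N : ℝ) + 1) * (m - x) ^ 2 / (x * m ^ 2) := by
      field_simp
      ring
    have : 0 ≤ ((N : ℝ) + 1) * (m - x) ^ 2 / (x * m ^ 2) := by positivity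
    linarith
  rw [Ex_add, Ex_const, Ex_smul, Ex_compl, ← hm] at h1
  refine le_trans (le_of_eq ?_) h1
  have hm0 : 0 < m := by linarith
  field_simp
  ring

end Pool.Agent.H90.TF
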