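import Mathlib
import Pool.Agent.H90.TFErr

set_option autoImplicit false

namespace Pool.Agent.H90.TF

open Finset Pool.Agent.H90.Round Pool.Agent.H90.Bern Pool.Agent.H90.Four Pool.Agent.H90.Dual
open Filter Topology
open Polynomial (C X)

theorem ell_pos {R : Polynomial ℝ} (hR : ∀ x : ℝ, 0 ≤ R.eval x) : 0 ≤ ell 0 R :=
  ell_nonneg (g := 1) le_rfl (Fs 0 (fun _ => 0) 1 1 0)
    (tendsto_Fs (D := 0) le_rfl (by simp) 0) hR

theorem ell_mono {P R : Polynomial ℝ} (h : ∀ x : ℝ, P.eval x ≤ R.eval x) :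
    ell 0 P ≤ ell 0 R := by
  have := ell_pos (R := R - P) fun x => by rw [Polynomial.eval_sub]; linarith [h x]
  rw [map_sub] at this
  linarith

theorem ell_CX (k : ℕ) (a : ℝ) : ell 0 (C a * X ^ k) = a * Lf false 0 k := by
  rw [Polynomial.C_mul_X_pow_eq_monomial, ell_monomial]

theorem ell_C (a : ℝ) : ell 0 (C a) = a := by
  have := ell_CX 0 a
  simpa [Lf] using this

/-- The approximating polynomial. -/
noncomputable def hh (D : ℕ) (c : ℕ → ℝ) : Polynomial ℝ := ∑ i ∈ range (D + 1), c i • He (2 * i)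

theorem ell_hh (D : ℕ) (c : ℕ → ℝ) : ell 0 (hh D c) = c 0 := by
  unfold hh
  rw [map_sum, Finset.sum_eq_single 0]
  · rw [map_smul, ell_He_He]; simp
  · intro i _ hi
    rw [map_smul, ell_He_He, if_neg (by omega), smul_zero]
  · intro h; simp at h

theorem ell_hh2 (D : ℕ) (c : ℕ → ℝ) : ell 0 (hh D c * hh D c) =
    c 0 ^ 2 + ∑ i : Fin D, c (i.val + 1) ^ 2 * ((2 * i.val + 2).factorial : ℝ) := by
  have h1 : ell 0 (hh D c * hh D c) = ∑ i ∈ range (D + 1), c i ^ 2 * ((2 * i).factorial : ℝ) := by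
    unfold hh
    rw [Finset.sum_mul_sum, map_sum]
    refine Finset.sum_congr rfl fun i hi => ?_
    rw [map_sum, Finset.sum_eq_single i]
    · rw [smul_mul_smul_comm, map_smul, ell_He, ell_He_He, if_pos rfl, smul_eq_mul]; ring
    · intro j _ hj
      rw [smul_mul_smul_comm, map_smul, ell_He, ell_He_He, if_neg (by omega), smul_zero]
    · intro h; exact absurd hi h
  rw [h1, Finset.sum_range_succ', add_comm, Finset.sum_range]
  congr 1
  simp

theorem c0_ge {D : ℕ} {c : ℕ → ℝ} {Q : Polynomial ℝ} {ε : ℝ}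
    (hQ : ∀ x : ℝ, (|x| - (hh D c).eval x) ^ 2 ≤ Q.eval x) (hε : ell 0 Q ≤ ε)
    (hε2 : ε ≤ 1 / 400) : 1 / 2 ≤ c 0 := by
  have h1 : ell 0 (C 1 * X ^ 2 - C (4 / 27) * X ^ 4 - (C 10 * Q + C (1 / 40))) ≤
      ell 0 (hh D c) := by
    apply ell_mono
    intro x
    simp only [Polynomial.eval_sub, Polynomial.eval_add, Polynomial.eval_mul, Polynomial.eval_C,
      Polynomial.eval_pow, Polynomial.eval_X]
    have h2 := hQ x
    set y : ℝ := (hh D c).eval x with hy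
    have h3 : |x| - y ≤ 10 * (|x| - y) ^ 2 + 1 / 40 := by
      nlinarith [sq_nonneg (20 * (|x| - y) - 1)]
    have hu : 0 ≤ |x| := abs_nonneg x
    have hx2 : x ^ 2 = |x| ^ 2 := (sq_abs x).symm
    have hx4 : x ^ 4 = |x| ^ 4 := by
      rw [show (4 : ℕ) = 2 * 2 by norm_num, pow_mul, pow_mul, hx2]
    have h4 : 1 * x ^ 2 - 4 / 27 * x ^ 4 ≤ |x| := by
      rw [hx2, hx4]
      set u : ℝ := |x| with hu'
      have : 0 ≤ u * ((u - 3 / 2) ^ 2 * (u + 3)) := by positivity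
      nlinarith
    linarith
  rw [ell_hh, map_sub, map_sub, map_add, ell_CX, ell_CX, ell_C_mul, ell_C] at h1
  have e2 : Lf false 0 2 = 1 := by simp [Lf]
  have e4 : Lf false 0 4 = 3 := by simp [Lf]; norm_num
  rw [e2, e4] at h1
  linarith

theorem w_le {D : ℕ} {c : ℕ → ℝ} {Q : Polynomial ℝ} {ε δ : ℝ} (hδ : 0 < δ)
    (hQ : ∀ x : ℝ, (|x| - (hh D c).eval x) ^ 2 ≤ Q.eval x) (hε : ell 0 Q ≤ ε) :
    c 0 ^ 2 + ∑ i : Fin D, c (i.val + 1) ^ 2 * ((2 * i.val + 2).factorial : ℝ) ≤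
      (1 + δ) + (1 + 1 / δ) * ε := by
  rw [← ell_hh2]
  have h1 : ell 0 (hh D c * hh D c) ≤ ell 0 (C (1 + δ) * X ^ 2 + C (1 + 1 / δ) * Q) := by
    apply ell_mono
    intro x
    simp only [Polynomial.eval_add, Polynomial.eval_mul, Polynomial.eval_C,
      Polynomial.eval_pow, Polynomial.eval_X]
    have h2 := hQ x
    set y : ℝ := (hh D c).eval x with hy
    have hx2 : x ^ 2 = |x| ^ 2 := (sq_abs x).symm
    have h3 : y * y ≤ (1 + δ) * |x| ^ 2 + (1 + 1 / δ) * (|x| - y) ^ 2 := by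
      have h4 : 0 ≤ (δ * |x| + (|x| - y)) ^ 2 / δ := by positivity
      have h5 : (δ * |x| + (|x| - y)) ^ 2 / δ = δ * |x| ^ 2 + 2 * |x| * (|x| - y) +
          (1 / δ) * (|x| - y) ^ 2 := by
        field_simp
        ring
      nlinarith
    have h6 : (1 + 1 / δ) * (|x| - y) ^ 2 ≤ (1 + 1 / δ) * Q.eval x :=
      mul_le_mul_of_nonneg_left h2 (by positivity)
    rw [hx2]
    linarith
  rw [map_add, ell_CX, ell_C_mul] at h1
  have e2 : Lf false 0 2 = 1 := by simp [Lf]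
  rw [e2] at h1
  have h2 : (1 + 1 / δ) * ell 0 Q ≤ (1 + 1 / δ) * ε := mul_le_mul_of_nonneg_left hε (by positivity)
  linarith

/-- Upper bound, in terms of a small parameter. -/
theorem upper_eta {η : ℝ} (hη : 0 < η) (hη1 : η ≤ 1 / 24) :
    ∀ᶠ N : ℕ in atTop, Ex (Ud N) (1 / 2) (T (dl N)) ≤
      (1 + 26 * η) * Real.sqrt ((N : ℝ) + 1) := by
  -- parameters
  set κ : ℝ := (η ^ 3 / 522) ^ 2 with hκ
  have hκ0 : 0 < κ := by positivity
  set ε : ℝ := min (η ^ 2 / 8) (κ / 200) with hε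
  have hε0 : 0 < ε := lt_min (by positivity) (by positivity)
  have hε1 : ε ≤ η ^ 2 / 8 := min_le_left _ _
  have hε2 : ε ≤ κ / 200 := min_le_right _ _
  have hη2 : η ^ 2 ≤ η / 24 := by nlinarith
  have hε3 : ε ≤ 1 / 400 := by nlinarith
  obtain ⟨D, c, Q, hQ, hQe⟩ := approx hε0
  have hQ' : ∀ x : ℝ, (|x| - (hh D c).eval x) ^ 2 ≤ Q.eval x := hQ
  have hc0 := c0_ge hQ' hQe hε3
  have hw := w_le (half_pos hη) hQ' hQe
  set w : ℝ := ∑ i : Fin D, c (i.val + 1) ^ 2 * ((2 * i.val + 2).factorial : ℝ) with hwdef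
  have hw0 : 0 ≤ w := Finset.sum_nonneg fun i _ => by positivity
  have hw2 : c 0 ^ 2 + w ≤ 1 + η := by
    have h1 : (1 + 1 / (η / 2)) * ε ≤ (1 + 1 / (η / 2)) * (η ^ 2 / 8) :=
      mul_le_mul_of_nonneg_left hε1 (by positivity)
    have h2 : (1 + 1 / (η / 2)) * (η ^ 2 / 8) = η ^ 2 / 8 + η / 4 := by
      field_simp
      ring
    nlinarith
  set g : ℝ := Real.sqrt (1 + η) with hg
  have hg2 : g ^ 2 = 1 + η := Real.sq_sqrt (by linarith)
  have hg1 : 1 ≤ g := by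
    rw [hg]; apply Real.le_sqrt_of_sq_le; linarith
  have hg0 : 0 < g := by linarith
  have hc2 : 1 / 4 ≤ c 0 ^ 2 := by nlinarith
  set b : ℝ := 1 - g ^ 2 * w with hb
  have hb1 : (1 + η) * c 0 ^ 2 - 3 * η ≤ b := by
    rw [hb, hg2]
    nlinarith
  have hb2 : 1 / 8 ≤ b := by nlinarith
  have hb0 : 0 < b := by linarith
  set β : ℝ := Real.sqrt b with hβ
  have hβ2 : β ^ 2 = b := Real.sq_sqrt hb0.le
  have hβ0 : 0 < β := Real.sqrt_pos.mpr hb0
  have hβs : β ^ 2 + ∑ i : Fin D, (g * c (i.val + 1)) ^ 2 * ((2 * i.val + 2).factorial : ℝ) = 1 := by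
    have e1 : ∑ i : Fin D, (g * c (i.val + 1)) ^ 2 * ((2 * i.val + 2).factorial : ℝ) =
        g ^ 2 * w := by
      rw [hwdef, Finset.mul_sum]
      exact Finset.sum_congr rfl fun i _ => by ring
    rw [e1, hβ2, hb]; ring
  -- the value
  have hval : g / β * c 0 ≤ 1 + 24 * η := by
    have hnn : 0 ≤ g / β * c 0 := by
      have : 0 ≤ c 0 := by linarith
      positivity
    refine (pow_le_pow_iff_left₀ hnn (by positivity) (by norm_num : (2 : ℕ) ≠ 0)).mp ?_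
    rw [mul_pow, div_pow, hg2, hβ2, div_mul_eq_mul_div, div_le_iff₀ hb0]
    have h1 : (1 + η) * c 0 ^ 2 ≤ b + 3 * η := by linarith
    have h2 : b + 3 * η ≤ b * (1 + 24 * η) := by nlinarith
    have h3 : (1 + 24 * η) ≤ (1 + 24 * η) ^ 2 := by nlinarith
    nlinarith
  have hgb : (g / β) ^ 2 ≤ 9 := by
    rw [div_pow, hg2, hβ2, div_le_iff₀ hb0]
    linarith
  -- the second density
  set r' : ℝ := (2 + η) / (2 + 2 * η) with hr'
  have hr0 : 0 ≤ r' := by positivity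
  have hr1 : 1 - r' = η / (2 + 2 * η) := by
    rw [hr']; field_simp; ring
  have hr2 : r' < 1 := by
    have : 0 < 1 - r' := by rw [hr1]; positivity
    linarith
  have hrr : pr g * r' = 1 / 2 := by
    unfold pr
    rw [hg2, hr']
    field_simp
    ring
  have h58 : 58 / (1 - r') ^ 2 ≤ 522 / η ^ 2 := by
    rw [hr1, div_pow, div_div_eq_mul_div]
    refine div_le_div_of_nonneg_right ?_ (by positivity)
    nlinarith
  -- number of iterations
  obtain ⟨m, hm, hm2⟩ : ∃ m : ℕ, 0 < m ∧ 8 / (m : ℝ) ^ 2 ≤ κ / 36 := by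
    have h1 : Tendsto (fun m : ℕ => 8 / (m : ℝ) ^ 2) atTop (𝓝 0) := by
      have := tendsto_const_div_pow (8 : ℝ) 2 (by norm_num)
      exact this.comp tendsto_natCast_atTop_atTop
    have h2 := (h1.eventually_le_const (by positivity : (0 : ℝ) < κ / 36)).and
      (eventually_gt_atTop 0)
    obtain ⟨m, hm⟩ := h2.exists
    exact ⟨m, hm.2, hm.1⟩
  have hV := tendsto_VN hg1 hβs Q hm
  have hlim : (g / β) ^ 2 * (8 / (m : ℝ) ^ 2 + 6 * ell 0 Q) < κ := by
    have h1 : 8 / (m : ℝ) ^ 2 + 6 * ell 0 Q ≤ κ / 36 + 6 * (κ / 200) := by linarith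
    have hQ0 : 0 ≤ ell 0 Q := ell_pos fun x => (sq_nonneg _).trans (hQ x)
    have h2 : 0 ≤ 8 / (m : ℝ) ^ 2 + 6 * ell 0 Q := by positivity
    calc _ ≤ 9 * (κ / 36 + 6 * (κ / 200)) := mul_le_mul hgb h1 h2 (by norm_num)
      _ < κ := by linarith
  have hsN : Tendsto (fun N : ℕ => Real.sqrt ((N : ℝ) + 1)) atTop atTop :=
    Real.tendsto_sqrt_atTop.comp
      (tendsto_atTop_add_const_right _ _ tendsto_natCast_atTop_atTop)
  filter_upwards [hV.eventually_le_const hlim, hsN.eventually_ge_atTop (1 / η)] with N h1 h2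
  have h3 := main_bound (D := D) (c := c) (N := N) hg1 hβ0 hm hr0 hr2 hrr
  have h4 := EE_vio_le (g := g) (β := β) hQ hm N
  set s : ℝ := Real.sqrt ((N : ℝ) + 1) with hs
  have hs0 : 0 < s := Real.sqrt_pos.mpr (by positivity)
  have hs2 : s ^ 2 = (N : ℝ) + 1 := Real.sq_sqrt (by positivity)
  have h5 : Real.sqrt (EE g N (fun S j => vio g β D c m N S j ^ 2)) ≤ s * (η ^ 3 / 522) := by
    rw [← Real.sqrt_sq (by positivity : 0 ≤ s * (η ^ 3 / 522))]
    apply Real.sqrt_le_sqrt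
    refine h4.trans ?_
    rw [mul_pow, hs2]
    exact mul_le_mul_of_nonneg_left h1 (by positivity)
  have h6 : 58 / (1 - r') ^ 2 * Real.sqrt (EE g N (fun S j => vio g β D c m N S j ^ 2)) ≤
      522 / η ^ 2 * (s * (η ^ 3 / 522)) :=
    mul_le_mul h58 h5 (Real.sqrt_nonneg _) (by positivity)
  have h7 : 522 / η ^ 2 * (s * (η ^ 3 / 522)) = s * η := by
    field_simp
  have h8 : s * g / β * c 0 ≤ s * (1 + 24 * η) := by
    rw [mul_div_assoc, mul_assoc]
    exact mul_le_mul_of_nonneg_left hval hs0.le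
  have h9 : 1 ≤ s * η := by
    have := mul_le_mul_of_nonneg_right h2 hη.le
    rwa [one_div, inv_mul_cancel₀ hη.ne'] at this
  linarith

theorem upper {ε : ℝ} (hε : 0 < ε) : ∀ᶠ N : ℕ in atTop, Ex (Ud N) (1 / 2) (T (dl N)) ≤
      (1 + ε) * Real.sqrt ((N : ℝ) + 1) := by
  set η : ℝ := min (1 / 24) (ε / 26) with hη
  have h0 : 0 < η := lt_min (by norm_num) (by positivity)
  have h1 : η ≤ 1 / 24 := min_le_left _ _
  have h2 : η ≤ ε / 26 := min_le_right _ _
  filter_upwards [upper_eta h0 h1] with N hN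
  refine hN.trans (mul_le_mul_of_nonneg_right ?_ (Real.sqrt_nonneg _))
  linarith

end Pool.Agent.H90.TF
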