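import Mathlib
import Pool.Agent.H90.TFUp
import Pool.Agent.H90.TFLow

set_option autoImplicit false

namespace Pool.Agent.H90.TF

open Finset Pool.Agent.H90.Round Pool.Agent.H90.Bern Pool.Agent.H90.Four Pool.Agent.H90.Dual
open Filter Topology

theorem theta_lim : Tendsto (fun N : ℕ => Ex (Ud N) (1 / 2) (theta (N + 1)) /
    Real.sqrt ((N : ℝ) + 1)) atTop (𝓝 1) := by
  rw [Metric.tendsto_nhds]
  intro ε hε
  set δ : ℝ := min (ε / 2) (1 / 2) with hδ
  have hδ0 : 0 < δ := lt_min (by positivity) (by norm_num)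
  have hδ1 : δ ≤ ε / 2 := min_le_left _ _
  filter_upwards [upper hδ0] with N hN
  set s : ℝ := Real.sqrt ((N : ℝ) + 1) with hs
  have hs0 : 0 < s := Real.sqrt_pos.mpr (by positivity)
  have hs2 : s * s = (N : ℝ) + 1 := Real.mul_self_sqrt (by positivity)
  set m := Ex (Ud N) (1 / 2) (T (dl N)) with hm
  have hm1 : 1 ≤ m := by
    have := Ex_mono (U := Ud N) (r := 1 / 2) (by norm_num) (by norm_num)
      (f := fun _ => 1) (g := T (dl N)) fun S hS => T_ge_one hS
    rwa [Ex_const] at this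
  have hm0 : 0 < m := by linarith
  have hup : Ex (Ud N) (1 / 2) (theta (N + 1)) ≤ m :=
    Ex_mono (by norm_num) (by norm_num) fun S hS => theta_le_T hS
  have hlo := lower N
  rw [← hm] at hlo
  set x := Ex (Ud N) (1 / 2) (theta (N + 1)) with hx
  have h1 : x / s ≤ 1 + δ := by
    rw [div_le_iff₀ hs0]; linarith
  have h2 : 1 - δ ≤ x / s := by
    rw [le_div_iff₀ hs0]
    refine le_trans ?_ hlo
    rw [le_div_iff₀ hm0, ← hs2]
    have h3 : (1 - δ) * m ≤ s := by
      have h4 : δ ≤ 1 / 2 := min_le_right _ _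
      have h5 : (1 - δ) * m ≤ (1 - δ) * ((1 + δ) * s) :=
        mul_le_mul_of_nonneg_left hN (by linarith)
      nlinarith [sq_nonneg δ]
    nlinarith
  rw [Real.dist_eq, abs_lt]
  constructor <;> linarith

theorem avg_eq (N : ℕ) : (∑ S ∈ (Finset.Icc 1 ((N + 1) / 2)).powerset, theta (N + 1) S) /
    (2 : ℝ) ^ ((N + 1) / 2) = Ex (Ud N) (1 / 2) (theta (N + 1)) := by
  rw [Ex_half]
  unfold Ud
  rw [Nat.card_Icc, Nat.add_sub_cancel]

theorem final : Tendsto (fun n : ℕ => ((∑ S ∈ (Finset.Icc 1 (n / 2)).powerset, theta n S) /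
    (2 : ℝ) ^ (n / 2)) / Real.sqrt (n : ℝ)) atTop (𝓝 1) := by
  rw [← tendsto_add_atTop_iff_nat 1]
  refine theta_lim.congr fun N => ?_
  rw [avg_eq]
  push_cast
  rfl

end Pool.Agent.H90.TF
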