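import Mathlib
import Pool.Agent.H90.TFFin

set_option autoImplicit false

namespace Pool.Agent.H90.TF

open Finset Pool.Agent.H90.Round Pool.Agent.H90.Bern Pool.Agent.H90.Four Pool.Agent.H90.Dual
open Filter Topology

/-- Elementary inequality. -/
theorem two_abs {x y δ : ℝ} (hx : 0 < x) (hy : 0 < y) (hxy : 1 ≤ x * y) (hδ : 0 < δ) :
    |x - 1| + |y - 1| ≤ (1 + 1 / δ) * (x + y - 2) + δ := by
  have key : ∀ {a b : ℝ}, 0 < a → 0 < b → 1 ≤ a * b → b ≤ 1 →
      |a - 1| + |b - 1| ≤ (1 + 1 / δ) * (a + b - 2) + δ := by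
    intro a b ha hb hab hb1
    have ha1 : 1 ≤ a := by nlinarith
    rw [abs_of_nonneg (by linarith), abs_of_nonpos (by linarith)]
    have h1 : (1 - b) ^ 2 ≤ a + b - 2 := by nlinarith [mul_nonneg hb.le (sub_nonneg.mpr ha1)]
    have h2 : 2 * (1 - b) ≤ (1 / δ) * (1 - b) ^ 2 + δ := by
      have : 0 ≤ (1 - b - δ) ^ 2 / δ := by positivity
      have e : (1 - b - δ) ^ 2 / δ = (1 / δ) * (1 - b) ^ 2 - 2 * (1 - b) + δ := by
        field_simp
        ring
      linarith
    have h3 : (1 / δ) * (1 - b) ^ 2 ≤ (1 / δ) * (a + b - 2) :=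
      mul_le_mul_of_nonneg_left h1 (by positivity)
    nlinarith
  rcases le_total y 1 with h | h
  · exact key hx hy hxy h
  · rcases le_total x 1 with h' | h'
    · have := key hy hx (by rw [mul_comm]; exact hxy) h'
      rw [add_comm]
      calc |y - 1| + |x - 1| ≤ (1 + 1 / δ) * (y + x - 2) + δ := this
        _ = _ := by ring
    · rw [abs_of_nonneg (by linarith), abs_of_nonneg (by linarith)]
      have : 0 ≤ 1 / δ * (x + y - 2) := mul_nonneg (by positivity) (by linarith)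
      nlinarith

theorem abs_theta {N : ℕ} {S : Finset ℕ} (hS : S ⊆ Ud N) {δ : ℝ} (hδ : 0 < δ) :
    |theta (N + 1) S / Real.sqrt ((N : ℝ) + 1) - 1| ≤
      (1 + 1 / δ) * (T (dl N) S / Real.sqrt ((N : ℝ) + 1) +
        T (dl N) (Ud N \ S) / Real.sqrt ((N : ℝ) + 1) - 2) + δ := by
  set s : ℝ := Real.sqrt ((N : ℝ) + 1) with hs
  have hs0 : 0 < s := Real.sqrt_pos.mpr (by positivity)
  have hs2 : s * s = (N : ℝ) + 1 := Real.mul_self_sqrt (by positivity)
  have h1 := theta_le_T hS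
  have h2 := theta_ge' hS
  have hT := T_ge_one (N := N) hS
  have hT' := T_ge_one (N := N) (S := Ud N \ S) Finset.sdiff_subset
  set x := T (dl N) S / s with hx
  set y := T (dl N) (Ud N \ S) / s with hy
  have hx0 : 0 < x := by positivity
  have hy0 : 0 < y := by positivity
  set q := theta (N + 1) S / s with hq
  have a1 : q ≤ x := div_le_div_of_nonneg_right h1 hs0.le
  have a2 : 1 / y ≤ q := by
    rw [hq, le_div_iff₀ hs0, hy]
    refine le_trans (le_of_eq ?_) h2
    rw [← hs2]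
    field_simp
  have hxy : 1 ≤ x * y := by
    have := a2.trans a1
    rwa [div_le_iff₀ hy0] at this
  refine le_trans ?_ (two_abs hx0 hy0 hxy hδ)
  rcases le_total 1 q with h | h
  · rw [abs_of_nonneg (by linarith), abs_of_nonneg (a := x - 1) (by linarith)]
    have := abs_nonneg (y - 1)
    linarith
  · have h3 : 1 / y ≤ 1 := a2.trans h
    have hy1 : 1 ≤ y := by rwa [div_le_one hy0] at h3
    rw [abs_of_nonpos (by linarith), abs_of_nonneg (a := y - 1) (by linarith)]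
    have h4 : 2 - y ≤ 1 / y := by
      rw [le_div_iff₀ hy0]; nlinarith [sq_nonneg (y - 1)]
    have := abs_nonneg (x - 1)
    linarith

theorem L1_lim : Tendsto (fun N : ℕ => Ex (Ud N) (1 / 2) (fun S =>
    |theta (N + 1) S / Real.sqrt ((N : ℝ) + 1) - 1|)) atTop (𝓝 0) := by
  rw [Metric.tendsto_nhds]
  intro ε hε
  set δ : ℝ := ε / 3 with hδ
  have hδ0 : 0 < δ := by positivity
  set η : ℝ := ε / (6 * (1 + 1 / δ)) with hη
  have hη0 : 0 < η := by positivity
  filter_upwards [upper hη0] with N hN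
  set s : ℝ := Real.sqrt ((N : ℝ) + 1) with hs
  have hs0 : 0 < s := Real.sqrt_pos.mpr (by positivity)
  set m := Ex (Ud N) (1 / 2) (T (dl N)) with hm
  have h0 : 0 ≤ Ex (Ud N) (1 / 2) (fun S => |theta (N + 1) S / s - 1|) :=
    Ex_nonneg (by norm_num) (by norm_num) fun _ _ => abs_nonneg _
  have h1 : Ex (Ud N) (1 / 2) (fun S => |theta (N + 1) S / s - 1|) ≤
      Ex (Ud N) (1 / 2) (fun S => (((1 + 1 / δ) / s) * T (dl N) S +
        ((1 + 1 / δ) / s) * T (dl N) (Ud N \ S)) + ((1 + 1 / δ) * (-2) + δ)) := by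
    refine Ex_mono (by norm_num) (by norm_num) fun S hS => ?_
    refine (abs_theta hS hδ0).trans (le_of_eq ?_)
    rw [← hs]; ring
  rw [Ex_add, Ex_add, Ex_const, Ex_smul, Ex_smul, Ex_compl, ← hm] at h1
  have h2 : (1 + 1 / δ) / s * m ≤ (1 + 1 / δ) * (1 + η) := by
    rw [div_mul_eq_mul_div, div_le_iff₀ hs0, mul_assoc]
    exact mul_le_mul_of_nonneg_left hN (by positivity)
  have h3 : (1 + 1 / δ) * η = ε / 6 := by
    rw [hη]; field_simp
  rw [Real.dist_eq, sub_zero, abs_of_nonneg h0]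
  have h4 : (1 + 1 / δ) * (1 + η) = (1 + 1 / δ) + ε / 6 := by rw [mul_add, h3]; ring
  rw [h4] at h2
  linarith

/-- Mean absolute deviation. -/
theorem final1 : Tendsto (fun n : ℕ => (∑ S ∈ (Finset.Icc 1 (n / 2)).powerset,
    |theta n S / Real.sqrt (n : ℝ) - 1|) / (2 : ℝ) ^ (n / 2)) atTop (𝓝 0) := by
  rw [← tendsto_add_atTop_iff_nat 1]
  refine L1_lim.congr fun N => ?_
  rw [Ex_half]
  unfold Ud
  rw [Nat.card_Icc, Nat.add_sub_cancel]
  push_cast
  rfl

end Pool.Agent.H90.TF
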